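import Pool.Agent.H900R3.Rev.Line2

set_option autoImplicit false

open Set Filter Topology MeasureTheory
open scoped ContDiff ENNReal NNReal

namespace Pool.Agent.H900R3.Rev

theorem geom_le {ρ : ℝ} (h0 : 0 ≤ ρ) (h1 : ρ < 1) (X : ℕ) :
    ∑ i ∈ Finset.range X, ρ ^ i ≤ 1 / (1 - ρ) := by
  rw [one_div, ← tsum_geometric_of_lt_one h0 h1]
  exact (summable_geometric_of_lt_one h0 h1).sum_le_tsum _ fun i _ => pow_nonneg h0 i

/-- the constant in the line count -/
noncomputable def lineK (C α : ℝ) : ℝ :=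
  2 * Real.sqrt C + 8 / 3 * (2 * Real.sqrt (C * (1 + 2 / α ^ 2)) / α + 1) +
    2 / 3 * (Real.sqrt C * (1 / (1 - Real.exp (-α / 2))))

theorem exp_half_lt {α : ℝ} (hα : 0 < α) : Real.exp (-α / 2) < 1 := by
  rw [← Real.exp_zero]; exact Real.exp_lt_exp.2 (by linarith)

theorem lineK_nonneg {C α : ℝ} (hα : 0 < α) : 0 ≤ lineK C α := by
  have h1 := exp_half_lt hα
  have h2 : 0 < 1 - Real.exp (-α / 2) := by linarith
  unfold lineK
  positivity

theorem line_bound (hT : TaskTail) (hCh : TaskCheb) (hSt : TaskStep) (hN : TaskNear) {C α : ℝ}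
    (hC : 0 < C) (hα : 0 < α) {lam : ℝ} (hlam : 0 < lam) {f : ℝ → ℝ} (hf : Continuous f)
    (hf0 : ∀ x, 0 ≤ f x) (hf1 : ∀ x, f x ≤ C * Real.exp (-α * |x|)) {M : ℕ}
    (hM : (M : ℝ) ^ 2 ≤ lam * C) {g g1 : ℕ → ℝ → ℝ}
    (hg : ∀ m : ℕ, BSol (fun x => lam * f x) ((m : ℝ) ^ 2) (g m) (g1 m))
    (s : Finset ℝ) (hs : ∀ z ∈ s, ∑ m ∈ Finset.range (M + 1), g m z = 0 ∧
      ∑ m ∈ Finset.range (M + 1), g1 m z ≠ 0) :
    (s.card : ℝ) ≤ lineK C α * (1 + Real.sqrt lam) := by
  set D := C * (1 + 2 / α ^ 2) with hD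
  have hD0 : 0 < D := by rw [hD]; positivity
  set B := lam * D with hB
  have hB0 : 0 < B := mul_pos hlam hD0
  set X := ⌈2 * Real.sqrt B / α⌉₊ with hX
  have hX0 : 2 * Real.sqrt B / α ≤ X := Nat.le_ceil _
  have hX0' : 2 * Real.sqrt B ≤ α * X := by
    rw [div_le_iff₀ hα] at hX0; linarith
  have hXlt : (X : ℝ) < 2 * Real.sqrt B / α + 1 := Nat.ceil_lt_add_one (by positivity)
  have hE : B < Real.exp (α * X) := by
    have h1 : Real.exp (2 * Real.sqrt B) ≤ Real.exp (α * X) := Real.exp_le_exp.2 hX0'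
    have h2 : Real.exp (2 * Real.sqrt B) = Real.exp (Real.sqrt B) ^ 2 := by
      rw [← Real.exp_nat_mul]; push_cast; ring_nf
    have h3 := Real.add_one_le_exp (Real.sqrt B)
    have h4 := Real.sq_sqrt hB0.le
    have h5 := Real.sqrt_nonneg B
    rw [h2] at h1
    nlinarith
  have hEpos := Real.exp_pos (α * X)
  have hexp : Real.exp (-α * X) = 1 / Real.exp (α * X) := by
    rw [one_div, ← Real.exp_neg]; congr 1; ring
  have hα2 : 0 < α ^ 2 := by positivity
  have hkey : lam * C * Real.exp (-α * X) * (1 + 2 / α ^ 2) < 1 := by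
    rw [hexp]
    have : lam * C * (1 / Real.exp (α * X)) * (1 + 2 / α ^ 2) = B / Real.exp (α * X) := by
      rw [hB, hD]; ring
    rw [this, div_lt_one hEpos]
    exact hE
  have hy0 : 0 ≤ lam * C * Real.exp (-α * X) := by positivity
  have hX1 : lam * C * Real.exp (-α * X) ≤ 1 := by
    have : 0 ≤ 2 / α ^ 2 := by positivity
    nlinarith
  have hX2 : lam * C * Real.exp (-α * X) < α ^ 2 := by
    have h1 : lam * C * Real.exp (-α * X) * (2 / α ^ 2) < 1 := by nlinarith
    rw [← mul_div_assoc, div_lt_one hα2] at h1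
    linarith
  have main := line_count hT hCh hSt hN hC hα hlam hf hf0 hf1 hg X hX1 hX2 s hs
  set ρ := Real.exp (-α / 2) with hρ
  have hρ1 : ρ < 1 := exp_half_lt hα
  have hρ0 : 0 ≤ ρ := (Real.exp_pos _).le
  have hsum : ∑ i ∈ Finset.range X,
      2 * (1 + (Real.sqrt (lam * C) * Real.exp (-α * i / 2) + 1) / 3) =
      8 / 3 * X + 2 / 3 * (Real.sqrt (lam * C) * ∑ i ∈ Finset.range X, ρ ^ i) := by
    have h1 : ∀ i : ℕ, Real.exp (-α * i / 2) = ρ ^ i := by
      intro i
      rw [hρ, ← Real.exp_nat_mul]; congr 1; ring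
    have h2 : ∀ i ∈ Finset.range X,
        2 * (1 + (Real.sqrt (lam * C) * Real.exp (-α * i / 2) + 1) / 3) =
        8 / 3 + 2 / 3 * (Real.sqrt (lam * C) * ρ ^ i) := fun i _ => by rw [h1]; ring
    rw [Finset.sum_congr rfl h2, Finset.sum_add_distrib, Finset.sum_const, Finset.card_range,
      ← Finset.mul_sum, ← Finset.mul_sum, nsmul_eq_mul]
    ring
  rw [hsum] at main
  have hgeo := geom_le hρ0 hρ1 X
  have hsC : Real.sqrt (lam * C) = Real.sqrt lam * Real.sqrt C := Real.sqrt_mul hlam.le C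
  have hsB : Real.sqrt B = Real.sqrt lam * Real.sqrt D := Real.sqrt_mul hlam.le D
  have hMs : (M : ℝ) ≤ Real.sqrt lam * Real.sqrt C := by
    rw [← hsC]; exact Real.le_sqrt_of_sq_le hM
  have h1 : Real.sqrt (lam * C) * ∑ i ∈ Finset.range X, ρ ^ i ≤
      Real.sqrt lam * Real.sqrt C * (1 / (1 - ρ)) := by
    rw [hsC]
    exact mul_le_mul_of_nonneg_left hgeo (by positivity)
  have h2 : (X : ℝ) ≤ Real.sqrt lam * (2 * Real.sqrt D / α) + 1 := by
    rw [hsB] at hXlt
    have : 2 * (Real.sqrt lam * Real.sqrt D) / α = Real.sqrt lam * (2 * Real.sqrt D / α) := by ring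
    linarith
  have hl := Real.sqrt_nonneg lam
  have h1ρ : 0 < 1 - ρ := by linarith
  have t1 : 0 ≤ 2 * Real.sqrt C := by positivity
  have t2 : 0 ≤ 2 * Real.sqrt D / α := by positivity
  have t3 : 0 ≤ Real.sqrt C * (1 / (1 - ρ)) := by positivity
  have e : lineK C α * (1 + Real.sqrt lam) =
      (2 * Real.sqrt C + 8 / 3 * (2 * Real.sqrt D / α + 1) +
        2 / 3 * (Real.sqrt C * (1 / (1 - ρ)))) * (1 + Real.sqrt lam) := rfl
  rw [e]
  nlinarith [mul_nonneg t1 hl, mul_nonneg t2 hl, mul_nonneg t3 hl]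

/-- zeros on the meridian circles `x = const` -/
theorem y_count {M : ℕ} (A B : ℕ → ℝ) (s : Finset ℝ)
    (hs : ∀ y ∈ s, y ∈ Ico 0 (2 * Real.pi) ∧
      ∑ m ∈ Finset.range (M + 1), (A m * Real.cos (m * y) + B m * Real.sin (m * y)) = 0 ∧
      ∑ m ∈ Finset.range (M + 1), (-(m * A m * Real.sin (m * y)) + m * B m * Real.cos (m * y)) ≠ 0) :
    (s.card : ℝ) ≤ 2 * (M + 1) := by
  classical
  set T : ℕ → ℝ → ℝ := fun m y => A m * Real.cos (m * y) + B m * Real.sin (m * y) with hT
  set T1 : ℕ → ℝ → ℝ := fun m y => -(m * A m * Real.sin (m * y)) + m * B m * Real.cos (m * y)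
    with hT1
  have a1 : ∀ (m : ℕ) y, HasDerivAt (T m) (T1 m y) y := by
    intro m y
    have h0 : HasDerivAt (fun y : ℝ => (m : ℝ) * y) m y := by
      simpa using (hasDerivAt_id y).const_mul (m : ℝ)
    have h1 := (h0.cos.const_mul (A m)).add (h0.sin.const_mul (B m))
    refine h1.congr_deriv ?_
    simp only [hT1]; ring
  have a2 : ∀ (m : ℕ) y, HasDerivAt (T1 m) (-(m : ℝ) ^ 2 * T m y) y := by
    intro m y
    have h0 : HasDerivAt (fun y : ℝ => (m : ℝ) * y) m y := by
      simpa using (hasDerivAt_id y).const_mul (m : ℝ)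
    have h1 := ((h0.sin.const_mul (m * A m)).neg).add (h0.cos.const_mul (m * B m))
    refine h1.congr_deriv ?_
    simp only [hT]; ring
  set w : ℝ → ℝ → ℝ := fun μ y => ∑ m ∈ Finset.range (M + 1),
    if μ = -(m : ℝ) ^ 2 then T m y else 0 with hw
  set w1 : ℝ → ℝ → ℝ := fun μ y => ∑ m ∈ Finset.range (M + 1),
    if μ = -(m : ℝ) ^ 2 then T1 m y else 0 with hw1
  set S := (Finset.range (M + 1)).image fun m : ℕ => -(m : ℝ) ^ 2 with hS
  have hsumw : ∀ (U : ℕ → ℝ), ∑ μ ∈ S, ∑ m ∈ Finset.range (M + 1),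
      (if μ = -(m : ℝ) ^ 2 then U m else 0) = ∑ m ∈ Finset.range (M + 1), U m := by
    intro U
    rw [Finset.sum_comm]
    refine Finset.sum_congr rfl fun m hm => ?_
    rw [Finset.sum_ite_eq' S (-(m : ℝ) ^ 2) fun _ => U m, if_pos]
    exact Finset.mem_image_of_mem _ hm
  have hk : (0:ℝ) < M + 1 := by positivity
  have key := Liou.zeros_le (S := S) (w := w) (w1 := w1) (q := fun _ => 0) (a := 2 * Real.pi)
    (κ := M + 1) (by positivity) hk
    (fun μ y => by
      refine HasDerivAt.fun_sum fun m _ => ?_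
      by_cases h : μ = -(m : ℝ) ^ 2
      · simp only [if_pos h]; exact a1 m y
      · simp only [if_neg h]; exact hasDerivAt_const _ _)
    (fun μ y => by
      have h1 : HasDerivAt (w1 μ) (∑ m ∈ Finset.range (M + 1),
          if μ = -(m : ℝ) ^ 2 then (-(m : ℝ) ^ 2 * T m y) else 0) y := by
        refine HasDerivAt.fun_sum fun m _ => ?_
        by_cases h : μ = -(m : ℝ) ^ 2
        · simp only [if_pos h]; exact a2 m y
        · simp only [if_neg h]; exact hasDerivAt_const _ _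
      refine h1.congr_deriv ?_
      rw [hw, Finset.mul_sum]
      refine Finset.sum_congr rfl fun m _ => ?_
      by_cases h : μ = -(m : ℝ) ^ 2
      · simp only [if_pos h]; rw [h]; ring
      · simp only [if_neg h]; ring)
    (fun μ y => by
      rw [hw]
      refine Finset.sum_congr rfl fun m _ => ?_
      have h1 : T m (y + 2 * Real.pi) = T m y := by
        simp only [hT]
        have : (m : ℝ) * (y + 2 * Real.pi) = m * y + m * (2 * Real.pi) := by ring
        rw [this, Real.cos_add_nat_mul_two_pi, Real.sin_add_nat_mul_two_pi]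
      simp only [h1])
    continuous_const (C := 0) (fun _ => le_refl _)
    (fun μ hμ x => by
      rw [hS, Finset.mem_image] at hμ
      obtain ⟨m, hm, rfl⟩ := hμ
      have h1 : m ≤ M := Nat.lt_succ_iff.1 (Finset.mem_range.1 hm)
      have h2 : (m : ℝ) ≤ M := by exact_mod_cast h1
      have h3 : (0:ℝ) ≤ m := Nat.cast_nonneg m
      nlinarith) s
    (fun y hy => by
      obtain ⟨b1, b2, b3⟩ := hs y hy
      refine ⟨b1, ?_, ?_⟩
      · have := hsumw fun m => T m y
        rw [hw]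
        exact this.trans b2
      · have := hsumw fun m => T1 m y
        rw [hw1]
        intro h0
        exact b3 (this.symm.trans h0))
  have hpi := Real.pi_pos
  have : (s.card : ℝ) * Real.pi ≤ (2 * (M + 1)) * Real.pi := by linarith
  exact le_of_mul_le_mul_right this hpi

end Pool.Agent.H900R3.Rev
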