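import Pool.Agent.H900R3.Rev.Bound

set_option autoImplicit false

open Set Filter Topology MeasureTheory
open scoped ContDiff ENNReal NNReal

namespace Pool.Agent.H900R3.Rev

open Pool.Agent.H900R3.Liou (dX dY dX_smooth dY_smooth hdX hdY hausdorff_le local_x local_y)

/-- the number of simple zeros on horizontal lines and on vertical circles is at most `N` -/
structure Counts (φ : ℂ → ℝ) (N : ℕ) : Prop where
  x : ∀ (y : ℝ) (s : Finset ℝ), (∀ x ∈ s, φ ⟨x, y⟩ = 0 ∧ dX φ ⟨x, y⟩ ≠ 0) → s.card ≤ N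
  y : ∀ (x : ℝ) (s : Finset ℝ), (∀ y ∈ s, y ∈ Ico 0 (2 * Real.pi) ∧ φ ⟨x, y⟩ = 0 ∧
    dY φ ⟨x, y⟩ ≠ 0) → s.card ≤ N

theorem strip_x {φ : ℂ → ℝ} (h : ContDiff ℝ ∞ φ) {N : ℕ} (hN : Counts φ N) (a : ℝ) :
    μH[1] {z : ℂ | (z.re ∈ Ico a (a + 1) ∧ z.im ∈ Ico 0 (2 * Real.pi) ∧ φ z = 0) ∧ dX φ z ≠ 0 ∧
      |dY φ z| ≤ |dX φ z|} ≤ ENNReal.ofReal (4 * Real.pi * N) := by
  classical
  have hφ := h.continuous
  have hx := (dX_smooth h).continuous
  have hy := (dY_smooth h).continuous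
  have hm := hausdorff_le (π := Complex.im) Complex.continuous_im
    (R := {z : ℂ | (z.re ∈ Ico a (a + 1) ∧ z.im ∈ Ico 0 (2 * Real.pi) ∧ φ z = 0) ∧ dX φ z ≠ 0 ∧
      |dY φ z| ≤ |dX φ z|}) ?_ (b := 2 * Real.pi) (fun z hz => Ico_subset_Icc_self hz.1.2.1) (K := 2)
    (fun p hp => ?_) (N := N) (fun y s hs => ?_)
  · refine hm.trans ?_
    have e1 : ((2 : ℝ≥0) : ℝ≥0∞) = ENNReal.ofReal 2 := by simp
    have e2 : ((N : ℕ) : ℝ≥0∞) = ENNReal.ofReal (N : ℝ) := by simp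
    rw [e1, e2, ← ENNReal.ofReal_mul (by positivity), ← ENNReal.ofReal_mul (by norm_num)]
    apply ENNReal.ofReal_le_ofReal
    linarith
  · have m1 : MeasurableSet {z : ℂ | z.re ∈ Ico a (a + 1)} := Complex.measurable_re measurableSet_Ico
    have m2 : MeasurableSet {z : ℂ | z.im ∈ Ico 0 (2 * Real.pi)} :=
      Complex.measurable_im measurableSet_Ico
    have m3 : MeasurableSet {z : ℂ | φ z = 0} := (isClosed_singleton.preimage hφ).measurableSet
    have m4 : MeasurableSet {z : ℂ | dX φ z ≠ 0} :=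
      (isClosed_singleton.preimage hx).measurableSet.compl
    have m5 : MeasurableSet {z : ℂ | |dY φ z| ≤ |dX φ z|} :=
      (isClosed_le hy.abs hx.abs).measurableSet
    exact (m1.inter (m2.inter m3)).inter (m4.inter m5)
  · obtain ⟨U, hU, hpU, hU'⟩ := local_x h hp.2.1 hp.2.2
    exact ⟨U, hU, hpU, fun z hz w hw => hU' z hz.2 w hw.2 hz.1.1.2.2 hw.1.1.2.2⟩
  · have hinj : InjOn Complex.re (s : Set ℂ) := by
      intro z hz w hw hzw
      apply Complex.ext hzw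
      rw [(hs z hz).2, (hs w hw).2]
    rw [← Finset.card_image_of_injOn hinj]
    apply hN.x y
    intro x hx
    rw [Finset.mem_image] at hx
    obtain ⟨z, hz, rfl⟩ := hx
    obtain ⟨c1, c2⟩ := hs z hz
    have e : (⟨z.re, y⟩ : ℂ) = z := by rw [← c2]
    rw [e]
    exact ⟨c1.1.2.2, c1.2.1⟩

theorem strip_y {φ : ℂ → ℝ} (h : ContDiff ℝ ∞ φ) {N : ℕ} (hN : Counts φ N) (a : ℝ) :
    μH[1] {z : ℂ | (z.re ∈ Ico a (a + 1) ∧ z.im ∈ Ico 0 (2 * Real.pi) ∧ φ z = 0) ∧ dY φ z ≠ 0 ∧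
      |dX φ z| ≤ |dY φ z|} ≤ ENNReal.ofReal (2 * N) := by
  classical
  have hφ := h.continuous
  have hx := (dX_smooth h).continuous
  have hy := (dY_smooth h).continuous
  have hm := hausdorff_le (π := fun z : ℂ => z.re - a) (Complex.continuous_re.sub continuous_const)
    (R := {z : ℂ | (z.re ∈ Ico a (a + 1) ∧ z.im ∈ Ico 0 (2 * Real.pi) ∧ φ z = 0) ∧ dY φ z ≠ 0 ∧
      |dX φ z| ≤ |dY φ z|}) ?_ (b := 1) (fun z hz => ⟨by linarith [hz.1.1.1], by linarith [hz.1.1.2]⟩)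
    (K := 2) (fun p hp => ?_) (N := N) (fun y s hs => ?_)
  · refine hm.trans ?_
    have e1 : ((2 : ℝ≥0) : ℝ≥0∞) = ENNReal.ofReal 2 := by simp
    have e2 : ((N : ℕ) : ℝ≥0∞) = ENNReal.ofReal (N : ℝ) := by simp
    rw [e1, e2, ← ENNReal.ofReal_mul (by positivity), ← ENNReal.ofReal_mul (by norm_num)]
    apply ENNReal.ofReal_le_ofReal
    linarith
  · have m1 : MeasurableSet {z : ℂ | z.re ∈ Ico a (a + 1)} := Complex.measurable_re measurableSet_Ico
    have m2 : MeasurableSet {z : ℂ | z.im ∈ Ico 0 (2 * Real.pi)} :=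
      Complex.measurable_im measurableSet_Ico
    have m3 : MeasurableSet {z : ℂ | φ z = 0} := (isClosed_singleton.preimage hφ).measurableSet
    have m4 : MeasurableSet {z : ℂ | dY φ z ≠ 0} :=
      (isClosed_singleton.preimage hy).measurableSet.compl
    have m5 : MeasurableSet {z : ℂ | |dX φ z| ≤ |dY φ z|} :=
      (isClosed_le hx.abs hy.abs).measurableSet
    exact (m1.inter (m2.inter m3)).inter (m4.inter m5)
  · obtain ⟨U, hU, hpU, hU'⟩ := local_y h hp.2.1 hp.2.2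
    refine ⟨U, hU, hpU, fun z hz w hw => ?_⟩
    have := hU' z hz.2 w hw.2 hz.1.1.2.2 hw.1.1.2.2
    have e : dist (z.re - a) (w.re - a) = dist z.re w.re := by
      rw [Real.dist_eq, Real.dist_eq]; congr 1; ring
    rw [e]
    exact this
  · have hinj : InjOn Complex.im (s : Set ℂ) := by
      intro z hz w hw hzw
      refine Complex.ext ?_ hzw
      have h1 := (hs z hz).2
      have h2 := (hs w hw).2
      linarith
    rw [← Finset.card_image_of_injOn hinj]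
    apply hN.y (y + a)
    intro x hx
    rw [Finset.mem_image] at hx
    obtain ⟨z, hz, rfl⟩ := hx
    obtain ⟨c1, c2⟩ := hs z hz
    have e : (⟨y + a, z.im⟩ : ℂ) = z := by
      apply Complex.ext
      · simp only; linarith
      · rfl
    rw [e]
    exact ⟨c1.1.2.1, c1.1.2.2, c1.2.1⟩

/-- length of the nodal set in a strip -/
theorem strip_length {φ : ℂ → ℝ} (h : ContDiff ℝ ∞ φ) {N : ℕ} (hN : Counts φ N)
    (hsing : {z : ℂ | φ z = 0 ∧ dX φ z = 0 ∧ dY φ z = 0}.Countable) (a : ℝ) :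
    μH[1] {z : ℂ | z.re ∈ Ico a (a + 1) ∧ z.im ∈ Ico 0 (2 * Real.pi) ∧ φ z = 0} ≤
      ENNReal.ofReal (15 * N) := by
  have hsub : {z : ℂ | z.re ∈ Ico a (a + 1) ∧ z.im ∈ Ico 0 (2 * Real.pi) ∧ φ z = 0} ⊆
      ({z : ℂ | (z.re ∈ Ico a (a + 1) ∧ z.im ∈ Ico 0 (2 * Real.pi) ∧ φ z = 0) ∧ dX φ z ≠ 0 ∧
        |dY φ z| ≤ |dX φ z|} ∪
      {z : ℂ | (z.re ∈ Ico a (a + 1) ∧ z.im ∈ Ico 0 (2 * Real.pi) ∧ φ z = 0) ∧ dY φ z ≠ 0 ∧
        |dX φ z| ≤ |dY φ z|}) ∪ {z : ℂ | φ z = 0 ∧ dX φ z = 0 ∧ dY φ z = 0} := by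
    intro z hz
    by_cases h1 : |dY φ z| ≤ |dX φ z|
    · by_cases h2 : dX φ z = 0
      · right
        rw [h2, abs_zero] at h1
        exact ⟨hz.2.2, h2, abs_eq_zero.1 (le_antisymm h1 (abs_nonneg _))⟩
      · left; left; exact ⟨hz, h2, h1⟩
    · push Not at h1
      left; right
      refine ⟨hz, fun h0 => ?_, h1.le⟩
      rw [h0, abs_zero] at h1
      exact absurd h1 (not_lt.2 (abs_nonneg _))
  refine (measure_mono hsub).trans ((measure_union_le _ _).trans ?_)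
  have h0 : μH[1] {z : ℂ | φ z = 0 ∧ dX φ z = 0 ∧ dY φ z = 0} = 0 := by
    have := Measure.nullSingletonClass_hausdorff ℂ one_pos
    exact hsing.measure_zero _
  rw [h0, add_zero]
  refine (measure_union_le _ _).trans ((add_le_add (strip_x h hN a) (strip_y h hN a)).trans ?_)
  rw [← ENNReal.ofReal_add (by positivity) (by positivity)]
  apply ENNReal.ofReal_le_ofReal
  have h1 : Real.pi < 3.15 := Real.pi_lt_d2
  have h2 : (0:ℝ) ≤ N := Nat.cast_nonneg N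
  nlinarith

/-- weighted length -/
theorem weighted_length {φ : ℂ → ℝ} (h : ContDiff ℝ ∞ φ) {N : ℕ} (hN : Counts φ N)
    (hsing : {z : ℂ | φ z = 0 ∧ dX φ z = 0 ∧ dY φ z = 0}.Countable) {C α : ℝ} (hC : 0 < C)
    (hα : 0 < α) {f : ℝ → ℝ} (hf1 : ∀ x, f x ≤ C * Real.exp (-α * |x|)) :
    ∫⁻ z in {z : ℂ | z.im ∈ Ico 0 (2 * Real.pi) ∧ φ z = 0}, ENNReal.ofReal (Real.sqrt (f z.re))
      ∂μH[1] ≤ ENNReal.ofReal (30 * (Real.sqrt C * (1 / (1 - Real.exp (-α / 2)))) * N) := by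
  set ρ := Real.exp (-α / 2) with hρ
  have hρ1 : ρ < 1 := exp_half_lt hα
  have hρ0 : 0 ≤ ρ := (Real.exp_pos _).le
  set P : ℕ → Set ℂ := fun i =>
    {z : ℂ | z.re ∈ Ico (i : ℝ) (i + 1) ∧ z.im ∈ Ico 0 (2 * Real.pi) ∧ φ z = 0} with hP
  set Q : ℕ → Set ℂ := fun i =>
    {z : ℂ | z.re ∈ Ico (-((i : ℝ) + 1)) (-((i : ℝ) + 1) + 1) ∧ z.im ∈ Ico 0 (2 * Real.pi) ∧
      φ z = 0} with hQ
  have hcover : {z : ℂ | z.im ∈ Ico 0 (2 * Real.pi) ∧ φ z = 0} ⊆ ⋃ i, (P i ∪ Q i) := by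
    intro z hz
    rw [mem_iUnion]
    rcases le_or_gt 0 z.re with h3 | h3
    · exact ⟨⌊z.re⌋₊, Or.inl ⟨⟨Nat.floor_le h3, Nat.lt_floor_add_one z.re⟩, hz⟩⟩
    · have h4 : 0 < -z.re := by linarith
      have h5 : 0 < ⌈-z.re⌉₊ := Nat.ceil_pos.2 h4
      obtain ⟨i, hi⟩ : ∃ i, ⌈-z.re⌉₊ = i + 1 := ⟨⌈-z.re⌉₊ - 1, by omega⟩
      have h6 := Nat.le_ceil (-z.re)
      have h7 := Nat.ceil_lt_add_one h4.le
      rw [hi] at h6 h7
      push_cast at h6 h7
      refine ⟨i, Or.inr ⟨⟨by linarith, by linarith⟩, hz⟩⟩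
  have hw : ∀ i : ℕ, ∀ z ∈ P i ∪ Q i, Real.sqrt (f z.re) ≤ Real.sqrt C * ρ ^ i := by
    intro i z hz
    have h1 : (i : ℝ) ≤ |z.re| := by
      rcases hz with hz | hz
      · exact hz.1.1.trans (le_abs_self _)
      · have := neg_le_abs z.re
        have := hz.1.2
        linarith
    have h2 : f z.re ≤ C * (ρ ^ i) ^ 2 := by
      refine (hf1 _).trans (mul_le_mul_of_nonneg_left ?_ hC.le)
      have e : (ρ ^ i) ^ 2 = Real.exp (-α * i) := by
        rw [hρ, ← Real.exp_nat_mul, ← Real.exp_nat_mul]; congr 1; push_cast; ring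
      rw [e]
      apply Real.exp_le_exp.2
      have := mul_le_mul_of_nonneg_left h1 hα.le
      linarith
    calc Real.sqrt (f z.re) ≤ Real.sqrt (C * (ρ ^ i) ^ 2) := Real.sqrt_le_sqrt h2
      _ = Real.sqrt C * ρ ^ i := by
        rw [Real.sqrt_mul hC.le, Real.sqrt_sq (pow_nonneg hρ0 i)]
  have hstrip : ∀ i : ℕ, ∫⁻ z in P i ∪ Q i, ENNReal.ofReal (Real.sqrt (f z.re)) ∂μH[1] ≤
      ENNReal.ofReal (30 * Real.sqrt C * N * ρ ^ i) := by
    intro i
    have hφ := h.continuous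
    have mP : ∀ a : ℝ, MeasurableSet
        {z : ℂ | z.re ∈ Ico a (a + 1) ∧ z.im ∈ Ico 0 (2 * Real.pi) ∧ φ z = 0} := by
      intro a
      have m1 : MeasurableSet {z : ℂ | z.re ∈ Ico a (a + 1)} :=
        Complex.measurable_re measurableSet_Ico
      have m2 : MeasurableSet {z : ℂ | z.im ∈ Ico 0 (2 * Real.pi)} :=
        Complex.measurable_im measurableSet_Ico
      have m3 : MeasurableSet {z : ℂ | φ z = 0} := (isClosed_singleton.preimage hφ).measurableSet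
      exact m1.inter (m2.inter m3)
    have hm : MeasurableSet (P i ∪ Q i) := (mP i).union (mP (-((i : ℝ) + 1)))
    calc ∫⁻ z in P i ∪ Q i, ENNReal.ofReal (Real.sqrt (f z.re)) ∂μH[1]
        ≤ ∫⁻ _ in P i ∪ Q i, ENNReal.ofReal (Real.sqrt C * ρ ^ i) ∂μH[1] :=
          setLIntegral_mono' hm fun z hz => ENNReal.ofReal_le_ofReal (hw i z hz)
      _ = ENNReal.ofReal (Real.sqrt C * ρ ^ i) * μH[1] (P i ∪ Q i) := by
          rw [lintegral_const, Measure.restrict_apply MeasurableSet.univ, univ_inter]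
      _ ≤ ENNReal.ofReal (Real.sqrt C * ρ ^ i) * ENNReal.ofReal (30 * N) := by
          gcongr
          refine (measure_union_le _ _).trans ((add_le_add (strip_length h hN hsing _)
            (strip_length h hN hsing _)).trans ?_)
          rw [← ENNReal.ofReal_add (by positivity) (by positivity)]
          apply ENNReal.ofReal_le_ofReal
          linarith
      _ = ENNReal.ofReal (30 * Real.sqrt C * N * ρ ^ i) := by
          rw [← ENNReal.ofReal_mul (by positivity)]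
          congr 1; ring
  have hsummable : Summable fun i : ℕ => 30 * Real.sqrt C * N * ρ ^ i :=
    (summable_geometric_of_lt_one hρ0 hρ1).mul_left _
  calc ∫⁻ z in {z : ℂ | z.im ∈ Ico 0 (2 * Real.pi) ∧ φ z = 0},
        ENNReal.ofReal (Real.sqrt (f z.re)) ∂μH[1]
      ≤ ∫⁻ z in ⋃ i, (P i ∪ Q i), ENNReal.ofReal (Real.sqrt (f z.re)) ∂μH[1] :=
        lintegral_mono_set hcover
    _ ≤ ∑' i, ∫⁻ z in P i ∪ Q i, ENNReal.ofReal (Real.sqrt (f z.re)) ∂μH[1] :=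
        lintegral_iUnion_le _ _
    _ ≤ ∑' i : ℕ, ENNReal.ofReal (30 * Real.sqrt C * N * ρ ^ i) := ENNReal.tsum_le_tsum hstrip
    _ = ENNReal.ofReal (∑' i : ℕ, 30 * Real.sqrt C * N * ρ ^ i) := by
        rw [ENNReal.ofReal_tsum_of_nonneg (fun i => by positivity) hsummable]
    _ = ENNReal.ofReal (30 * (Real.sqrt C * (1 / (1 - ρ))) * N) := by
        rw [tsum_mul_left, tsum_geometric_of_lt_one hρ0 hρ1]
        congr 1
        rw [one_div]; ring

end Pool.Agent.H900R3.Rev
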