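import Pool.Agent.H900R3.Rev.Stmts

set_option autoImplicit false

open Set Filter Topology MeasureTheory
open scoped ContDiff ENNReal NNReal

namespace Pool.Agent.H900R3.Rev

open Pool.Agent.H900R3.Liou (dX dY)

theorem card_gap (Z : Finset ℝ) {a b γ : ℝ} (hγ : 0 < γ)
    (hZ : ∀ z ∈ Z, z ∈ Icc a b) (hgap : ∀ ξ ∈ Z, ∀ η ∈ Z, ξ < η → γ < η - ξ) (hab : a ≤ b) :
    (Z.card : ℝ) ≤ 1 + (b - a) / γ := by
  have h1 : Z.card ≤ (Finset.range (⌊(b - a) / γ⌋₊ + 1)).card := by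
    apply Finset.card_le_card_of_injOn (fun z => ⌊(z - a) / γ⌋₊)
    · intro z hz
      have hz' := hZ z hz
      simp only [Finset.coe_range, mem_Iio]
      apply Nat.lt_succ_of_le
      apply Nat.floor_le_floor
      exact div_le_div_of_nonneg_right (by linarith [hz'.2]) hγ.le
    · have key : ∀ ξ ∈ Z, ∀ η ∈ Z, ξ < η → ⌊(ξ - a) / γ⌋₊ ≠ ⌊(η - a) / γ⌋₊ := by
        intro ξ hξ η hη hlt he
        have h2 := hgap ξ hξ η hη hlt
        have hξ0 : 0 ≤ (ξ - a) / γ := div_nonneg (by linarith [(hZ ξ hξ).1]) hγ.le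
        have h3 := Nat.floor_le hξ0
        have h4 := Nat.lt_floor_add_one ((η - a) / γ)
        rw [← he] at h4
        have h5 : (η - a) / γ < (ξ - a) / γ + 1 := by linarith
        rw [div_add_one hγ.ne', div_lt_div_iff_of_pos_right hγ] at h5
        linarith
      intro ξ hξ η hη he
      rcases lt_trichotomy ξ η with h | h | h
      · exact absurd he (key ξ hξ η hη h)
      · exact h
      · exact absurd he.symm (key η hη ξ hξ h)
  rw [Finset.card_range] at h1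
  have h2 : (Z.card : ℝ) ≤ (⌊(b - a) / γ⌋₊ : ℝ) + 1 := by exact_mod_cast h1
  have h3 := Nat.floor_le (show 0 ≤ (b - a) / γ from div_nonneg (by linarith) hγ.le)
  linarith

theorem zeros_of_alt {g g1 : ℝ → ℝ} (h1 : ∀ x, HasDerivAt g (g1 x) x) {n : ℕ} (h : AltR g n) :
    ∃ Z : Finset ℝ, Z.card = n ∧ ∀ z ∈ Z, g z = 0 := by
  obtain ⟨t, ht2, ht3⟩ := h
  have hz : ∀ i, ∃ z, i < n → z ∈ Ioo (t i) (t (i + 1)) ∧ g z = 0 := by
    intro i
    by_cases hi : i < n
    · obtain ⟨z, hz, hz0⟩ := Liou.alt_zero h1 (ht2 i hi) (ht3 i hi)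
      exact ⟨z, fun _ => ⟨hz, hz0⟩⟩
    · exact ⟨0, fun h => absurd h hi⟩
  choose z hz using hz
  have hmono : ∀ i j, i < j → j < n → z i < z j := by
    intro i j hij
    induction j with
    | zero => exact absurd hij (Nat.not_lt_zero i)
    | succ j ih =>
      intro hj
      have a1 := (hz j (by omega)).1
      have a2 := (hz (j + 1) hj).1
      have a3 : z j < z (j + 1) := by linarith [a1.2, a2.1]
      rcases Nat.lt_succ_iff_lt_or_eq.1 hij with h | h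
      · exact (ih h (by omega)).trans a3
      · rw [h]; exact a3
  refine ⟨(Finset.range n).image z, ?_, ?_⟩
  · rw [Finset.card_image_of_injOn, Finset.card_range]
    intro i hi j hj hij
    simp only [Finset.coe_range, mem_Iio] at hi hj
    rcases lt_trichotomy i j with h | h | h
    · exact absurd hij (hmono i j h hj).ne
    · exact h
    · exact absurd hij.symm (hmono j i h hi).ne
  · intro x hx
    rw [Finset.mem_image] at hx
    obtain ⟨i, hi, rfl⟩ := hx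
    exact (hz i (Finset.mem_range.1 hi)).2

theorem BSol.flipR {q : ℝ → ℝ} {μ : ℝ} {w w1 : ℝ → ℝ} (h : BSol q μ w w1) :
    BSol (fun x => q (-x)) μ (fun x => w (-x)) (fun x => - w1 (-x)) where
  d1 x := by
    have := (h.d1 (-x)).scomp x (hasDerivAt_neg x)
    exact this.congr_deriv (by simp)
  d2 x := by
    have := ((h.d2 (-x)).scomp x (hasDerivAt_neg x)).neg
    exact this.congr_deriv (by simp)
  bdd := by
    obtain ⟨C, hC⟩ := h.bdd
    exact ⟨C, fun x => hC _⟩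

/-- zeros beyond `X` -/
theorem tail_card (hT : TaskTail) (hCh : TaskCheb) {C α : ℝ} (hC : 0 < C) (hα : 0 < α)
    {q : ℝ → ℝ} (hq : Continuous q) (hq0 : ∀ x, 0 ≤ x → 0 ≤ q x)
    (hq1 : ∀ x, 0 ≤ x → q x ≤ C * Real.exp (-α * x)) {X : ℝ} (hX : 0 ≤ X)
    (hX1 : C * Real.exp (-α * X) ≤ 1) (hX2 : C * Real.exp (-α * X) < α ^ 2)
    {S : Finset ℕ} {w w1 : ℕ → ℝ → ℝ} {a : ℕ → ℝ} (hS : S.Nonempty)
    (hw : ∀ m ∈ S, BSol q ((m : ℝ) ^ 2) (w m) (w1 m)) (hne : ∀ m ∈ S, ∃ x, w m x ≠ 0)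
    (ha : ∀ m ∈ S, a m ≠ 0) {Z : Finset ℝ} (hZ : ∀ z ∈ Z, X ≤ z ∧ ∑ m ∈ S, a m * w m z = 0) :
    Z.card < S.card := by
  by_contra hcon
  push Not at hcon
  obtain ⟨m, hm⟩ := hS
  refine ha m hm (hCh S q w w1 a X hw (fun m hm => (hT C α q _ _ m hC hα hq hq0 hq1 (hw m hm)).1)
    (fun m hm x hx h0 => ?_) Z hZ hcon m hm)
  obtain ⟨y, hy⟩ := hne m hm
  exact hy ((hT C α q _ _ m hC hα hq hq0 hq1 (hw m hm)).2 X x hX hx hX1 hX2 h0 y)

end Pool.Agent.H900R3.Rev
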