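import Pool.Agent.H900R3.Rev.Line

set_option autoImplicit false

open Set Filter Topology MeasureTheory
open scoped ContDiff ENNReal NNReal

namespace Pool.Agent.H900R3.Rev

theorem altR_of_alt {g : ℝ → ℝ} {n : ℕ} {A B : ℝ} (h : Liou.Alt g n A B) : AltR g n := by
  obtain ⟨t, _, h2, h3⟩ := h
  exact ⟨t, h2, h3⟩

theorem line_count (hT : TaskTail) (hCh : TaskCheb) (hSt : TaskStep) (hN : TaskNear) {C α : ℝ}
    (hC : 0 < C) (hα : 0 < α) {lam : ℝ} (hlam : 0 < lam) {f : ℝ → ℝ} (hf : Continuous f)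
    (hf0 : ∀ x, 0 ≤ f x) (hf1 : ∀ x, f x ≤ C * Real.exp (-α * |x|)) {M : ℕ}
    {g g1 : ℕ → ℝ → ℝ}
    (hg : ∀ m : ℕ, BSol (fun x => lam * f x) ((m : ℝ) ^ 2) (g m) (g1 m)) (X : ℕ)
    (hX1 : lam * C * Real.exp (-α * X) ≤ 1) (hX2 : lam * C * Real.exp (-α * X) < α ^ 2)
    (s : Finset ℝ) (hs : ∀ z ∈ s, ∑ m ∈ Finset.range (M + 1), g m z = 0 ∧
      ∑ m ∈ Finset.range (M + 1), g1 m z ≠ 0) :
    (s.card : ℝ) ≤ 2 * M + ∑ i ∈ Finset.range X,
      2 * (1 + (Real.sqrt (lam * C) * Real.exp (-α * i / 2) + 1) / 3) := by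
  classical
  have hR0 : 0 ≤ ∑ i ∈ Finset.range X,
      2 * (1 + (Real.sqrt (lam * C) * Real.exp (-α * i / 2) + 1) / 3) :=
    Finset.sum_nonneg fun i _ => by positivity
  rcases s.eq_empty_or_nonempty with hse | hse
  · subst hse
    rw [Finset.card_empty]
    have : (0:ℝ) ≤ M := Nat.cast_nonneg M
    push_cast
    linarith
  have hlC : 0 < lam * C := mul_pos hlam hC
  -- bound of the potential
  have hq1 : ∀ x, lam * f x ≤ lam * C * Real.exp (-α * |x|) := fun x => by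
    have := mul_le_mul_of_nonneg_left (hf1 x) hlam.le
    linarith
  have hqC : ∀ x, lam * f x ≤ lam * C := fun x => by
    have h1 : Real.exp (-α * |x|) ≤ 1 := by
      apply Real.exp_le_one_iff.2
      have := mul_nonneg hα.le (abs_nonneg x)
      linarith
    have := mul_le_mul_of_nonneg_left h1 hlC.le
    linarith [hq1 x]
  set S0 := (Finset.range (M + 1)).filter fun m => ∃ x, g m x ≠ 0 with hS0
  have hzero : ∀ m, m ∈ Finset.range (M + 1) → m ∉ S0 → ∀ x, g m x = 0 := by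
    intro μ hμ hμ0 x
    by_contra hne
    exact hμ0 (Finset.mem_filter.2 ⟨hμ, x, hne⟩)
  have hzero1 : ∀ m, m ∈ Finset.range (M + 1) → m ∉ S0 → ∀ x, g1 m x = 0 := by
    intro μ hμ hμ0 x
    have : g μ = fun _ => 0 := funext (hzero μ hμ hμ0)
    have h3 := (hg μ).d1 x
    rw [this] at h3
    exact h3.unique (hasDerivAt_const _ _)
  have hsum : ∀ x, ∑ m ∈ Finset.range (M + 1), g m x = ∑ m ∈ S0, g m x := fun x =>
    (Finset.sum_subset (Finset.filter_subset _ _) fun μ hμ hμ0 => hzero μ hμ hμ0 x).symm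
  have hsum1 : ∀ x, ∑ m ∈ Finset.range (M + 1), g1 m x = ∑ m ∈ S0, g1 m x := fun x =>
    (Finset.sum_subset (Finset.filter_subset _ _) fun μ hμ hμ0 => hzero1 μ hμ hμ0 x).symm
  have hS0ne : S0.Nonempty := by
    by_contra hcon
    rw [Finset.not_nonempty_iff_eq_empty] at hcon
    obtain ⟨z, hz⟩ := hse
    apply (hs z hz).2
    rw [hsum1, hcon]; simp
  have hS0c : S0.card ≤ M + 1 := (Finset.card_filter_le _ _).trans (by rw [Finset.card_range])
  have hS0x : ∀ m ∈ S0, ∃ x, g m x ≠ 0 := fun m hm => (Finset.mem_filter.1 hm).2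
  have hS0M : ∀ m ∈ S0, (m : ℝ) ^ 2 ≤ (M : ℝ) ^ 2 := fun m hm => by
    have h1 : m ≤ M := Nat.lt_succ_iff.1 (Finset.mem_range.1 (Finset.mem_filter.1 hm).1)
    have h2 : (m : ℝ) ≤ M := by exact_mod_cast h1
    exact pow_le_pow_left₀ (Nat.cast_nonneg m) h2 2
  set m0 := S0.min' hS0ne with hm0
  have hm0S : m0 ∈ S0 := S0.min'_mem hS0ne
  have hm0le : ∀ m ∈ S0, m0 ≤ m := fun μ hμ => S0.min'_le μ hμ
  set c : ℝ := lam * C + (M : ℝ) ^ 2 + 3 with hc
  have hcm : ∀ m ∈ S0, 0 < c - (m : ℝ) ^ 2 := fun m hm => by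
    have := hS0M m hm
    rw [hc]; linarith
  have hcm0 := hcm m0 hm0S
  set r : ℕ → ℝ := fun m => (c - (m : ℝ) ^ 2) / (c - (m0 : ℝ) ^ 2) with hr
  set G : ℕ → ℝ → ℝ := fun j x => ∑ m ∈ S0, (c - (m : ℝ) ^ 2) ^ j * g m x with hG
  set G1 : ℕ → ℝ → ℝ := fun j x => ∑ m ∈ S0, (c - (m : ℝ) ^ 2) ^ j * g1 m x with hG1
  set G2 : ℕ → ℝ → ℝ := fun j x =>
    ∑ m ∈ S0, (c - (m : ℝ) ^ 2) ^ j * (((m : ℝ) ^ 2 - lam * f x) * g m x) with hG2
  have e1 : ∀ j x, HasDerivAt (G j) (G1 j x) x := fun j x =>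
    HasDerivAt.fun_sum (u := S0) (A := fun m x => (c - (m : ℝ) ^ 2) ^ j * g m x)
      (A' := fun m => (c - (m : ℝ) ^ 2) ^ j * g1 m x) (x := x) fun m _ =>
      ((hg m).d1 x).const_mul _
  have e2 : ∀ j x, HasDerivAt (G1 j) (G2 j x) x := fun j x =>
    HasDerivAt.fun_sum (u := S0) (A := fun m x => (c - (m : ℝ) ^ 2) ^ j * g1 m x)
      (A' := fun m => (c - (m : ℝ) ^ 2) ^ j * (((m : ℝ) ^ 2 - lam * f x) * g m x)) (x := x)
      fun m _ => ((hg m).d2 x).const_mul _
  have e3 : ∀ j x, G (j + 1) x = (c - lam * f x) * G j x - G2 j x := by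
    intro j x
    simp only [hG, hG2]
    rw [Finset.mul_sum, ← Finset.sum_sub_distrib]
    refine Finset.sum_congr rfl fun μ _ => ?_
    ring
  have e4 : ∀ j, ∃ K, ∀ x, |G j x| ≤ K := by
    intro j
    choose K hK using fun m => (hg m).bdd
    refine ⟨∑ m ∈ S0, |(c - (m : ℝ) ^ 2) ^ j| * K m, fun x => ?_⟩
    refine (Finset.abs_sum_le_sum_abs _ _).trans (Finset.sum_le_sum fun m _ => ?_)
    rw [abs_mul]
    exact mul_le_mul_of_nonneg_left (hK m x) (abs_nonneg _)
  -- alternation of all G j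
  have alt : ∀ j, AltR (G j) s.card := by
    intro j
    induction j with
    | zero =>
      refine altR_of_alt (Liou.alt_of_simple (g1 := G1 0) (e1 0) (A := s.min' hse - 1) s
        (s.max' hse + 1) (fun z hz => ?_) hse)
      have h1 := s.min'_le z hz
      have h2 := s.le_max' z hz
      have p0 : G 0 z = ∑ m ∈ Finset.range (M + 1), g m z := by rw [hsum]; simp [hG]
      have p1 : G1 0 z = ∑ m ∈ Finset.range (M + 1), g1 m z := by rw [hsum1]; simp [hG1]
      refine ⟨by linarith, by linarith, ?_, ?_⟩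
      · rw [p0]; exact (hs z hz).1
      · rw [p1]; exact (hs z hz).2
    | succ j ih =>
      have h1 := hSt (G j) (G1 j) (G2 j) (fun x => c - lam * f x) s.card (e1 j) (e2 j) (e4 j)
        (fun x => by
          have h2 := hqC x
          have h3 : (0:ℝ) ≤ (M : ℝ) ^ 2 := by positivity
          rw [hc]; linarith) ih
      have h2 : (fun x => (c - lam * f x) * G j x - G2 j x) = G (j + 1) :=
        funext fun x => (e3 j x).symm
      rwa [h2] at h1
  -- separation
  set κ : ℕ → ℝ := fun i => Real.sqrt (lam * C) * Real.exp (-α * i / 2) + 1 with hκ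
  have hκ0 : ∀ i, 0 < κ i := fun i => by rw [hκ]; positivity
  have hκ2 : ∀ (i : ℕ) (x : ℝ), (i : ℝ) ≤ |x| → lam * f x - (m0 : ℝ) ^ 2 < κ i ^ 2 := by
    intro i x hx
    have h1 : lam * C * Real.exp (-α * |x|) ≤ lam * C * Real.exp (-α * i) := by
      apply mul_le_mul_of_nonneg_left _ hlC.le
      apply Real.exp_le_exp.2
      have := mul_le_mul_of_nonneg_left hx hα.le
      linarith
    have h2 : (Real.sqrt (lam * C) * Real.exp (-α * i / 2)) ^ 2 =
        lam * C * Real.exp (-α * i) := by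
      rw [mul_pow, Real.sq_sqrt hlC.le, ← Real.exp_nat_mul]
      congr 2
      push_cast; ring
    have h3 : 0 ≤ Real.sqrt (lam * C) * Real.exp (-α * i / 2) := by positivity
    have h4 : κ i ^ 2 = (Real.sqrt (lam * C) * Real.exp (-α * i / 2)) ^ 2 +
        2 * (Real.sqrt (lam * C) * Real.exp (-α * i / 2)) + 1 := by
      rw [hκ]; ring
    rw [h4, h2]
    have h5 : (0:ℝ) ≤ (m0 : ℝ) ^ 2 := by positivity
    linarith [hq1 x]
  have sep : ∀ (i : ℕ) (a b : ℝ), (∀ x ∈ Icc a b, (i : ℝ) ≤ |x|) → ∃ J : ℕ, ∀ j ≥ J,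
      ∀ ξ ∈ Icc a b, ∀ η ∈ Icc a b, ξ < η → G j ξ = 0 → G j η = 0 → 3 / κ i < η - ξ := by
    intro i a b hab
    obtain ⟨J, hJ⟩ := hN (S0.erase m0) g g1 r (g m0) (g1 m0) (fun x => lam * f x - (m0 : ℝ) ^ 2)
      a b (κ i) (3 / κ i) (fun m x => (hg m).d1 x)
      (fun m => continuous_iff_continuousAt.2 fun x => ((hg m).d2 x).continuousAt)
      (hg m0).d1 (fun x => ((hg m0).d2 x).congr_deriv (by ring))
      ((continuous_const.mul hf).sub continuous_const) (hS0x m0 hm0S)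
      (fun m hm => div_nonneg (hcm m (Finset.mem_of_mem_erase hm)).le hcm0.le)
      (fun m hm => by
        rw [hr]; simp only
        rw [div_lt_one hcm0]
        have a1 := hm0le m (Finset.mem_of_mem_erase hm)
        have a2 := Finset.ne_of_mem_erase hm
        have a3 : m0 < m := lt_of_le_of_ne a1 (Ne.symm a2)
        have a4 : (m0 : ℝ) < m := by exact_mod_cast a3
        have a5 : (m0 : ℝ) ^ 2 < (m : ℝ) ^ 2 :=
          pow_lt_pow_left₀ a4 (Nat.cast_nonneg _) two_ne_zero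
        linarith) (hκ0 i) (fun x hx => hκ2 i x (hab x hx)) (by
        rw [mul_div_cancel₀ _ (hκ0 i).ne']
        exact Real.pi_gt_three)
    refine ⟨J, fun j hj ξ hξ η hη hlt hξ0 hη0 => hJ j hj ξ hξ η hη hlt ?_ ?_⟩
    all_goals
      have key : ∀ x, g m0 x + ∑ m ∈ S0.erase m0, r m ^ j * g m x =
          G j x / (c - (m0 : ℝ) ^ 2) ^ j := by
        intro x
        rw [eq_div_iff (pow_pos hcm0 j).ne']
        simp only [hG]
        rw [← Finset.add_sum_erase S0 _ hm0S, add_mul, Finset.sum_mul]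
        congr 1
        · ring
        · refine Finset.sum_congr rfl fun μ _ => ?_
          rw [hr]; simp only
          rw [div_pow]
          field_simp
      rw [key]
    · rw [hξ0]; simp
    · rw [hη0]; simp
  have sepP := fun i : ℕ => sep i i (i + 1) (fun x hx => hx.1.trans (le_abs_self x))
  have sepN := fun i : ℕ => sep i (-(i + 1)) (-i) (fun x hx => by
    have := neg_le_abs x
    linarith [hx.2])
  choose JP hJP using sepP
  choose JN hJN using sepN
  set j := (Finset.range X).sup fun i => max (JP i) (JN i) with hj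
  have hjP : ∀ i ∈ Finset.range X, JP i ≤ j := fun i hi =>
    (le_max_left _ _).trans (Finset.le_sup (f := fun i => max (JP i) (JN i)) hi)
  have hjN : ∀ i ∈ Finset.range X, JN i ≤ j := fun i hi =>
    (le_max_right _ _).trans (Finset.le_sup (f := fun i => max (JP i) (JN i)) hi)
  obtain ⟨Z, hZc, hZ0⟩ := zeros_of_alt (e1 j) (alt j)
  -- tails
  have hXr : -α * (X : ℝ) = -α * (X : ℝ) := rfl
  have hA : (Z.filter fun z => (X : ℝ) ≤ z).card < S0.card := by
    refine tail_card hT hCh (C := lam * C) hlC hα (q := fun x => lam * f x)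
      (continuous_const.mul hf) (fun x _ => mul_nonneg hlam.le (hf0 x)) (fun x hx => ?_)
      (X := X) (Nat.cast_nonneg X) hX1 hX2 (w := g) (w1 := g1)
      (a := fun m => (c - (m : ℝ) ^ 2) ^ j) hS0ne (fun m _ => hg m) hS0x
      (fun m hm => (pow_pos (hcm m hm) j).ne') (fun z hz => ?_)
    · have := hq1 x
      rwa [abs_of_nonneg hx] at this
    · rw [Finset.mem_filter] at hz
      exact ⟨hz.2, hZ0 z hz.1⟩
  have hB : (Z.filter fun z => z ≤ -(X : ℝ)).card < S0.card := by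
    have hcard : ((Z.filter fun z => z ≤ -(X : ℝ)).image fun z => -z).card =
        (Z.filter fun z => z ≤ -(X : ℝ)).card :=
      Finset.card_image_of_injective _ neg_injective
    rw [← hcard]
    refine tail_card hT hCh (C := lam * C) hlC hα (q := fun x => lam * f (-x))
      (continuous_const.mul (hf.comp continuous_neg)) (fun x _ => mul_nonneg hlam.le (hf0 _))
      (fun x hx => ?_)
      (X := X) (Nat.cast_nonneg X) hX1 hX2 (w := fun m x => g m (-x))
      (w1 := fun m x => - g1 m (-x))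
      (a := fun m => (c - (m : ℝ) ^ 2) ^ j) hS0ne (fun m _ => (hg m).flipR) (fun m hm => ?_)
      (fun m hm => (pow_pos (hcm m hm) j).ne') (fun z hz => ?_)
    · have := hq1 (-x)
      rwa [abs_neg, abs_of_nonneg hx] at this
    · obtain ⟨x, hx⟩ := hS0x m hm
      exact ⟨-x, by simpa using hx⟩
    · rw [Finset.mem_image] at hz
      obtain ⟨y, hy, rfl⟩ := hz
      rw [Finset.mem_filter] at hy
      refine ⟨by linarith [hy.2], ?_⟩
      simp only [neg_neg]
      exact hZ0 y hy.1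
  -- cells
  have hP : ∀ i ∈ Finset.range X, ((Z.filter fun z => z ∈ Icc (i : ℝ) (i + 1)).card : ℝ) ≤
      1 + κ i / 3 := by
    intro i hi
    have h1 := card_gap (Z.filter fun z => z ∈ Icc (i : ℝ) (i + 1)) (a := i) (b := i + 1)
      (γ := 3 / κ i) (div_pos (by norm_num) (hκ0 i)) (fun z hz => (Finset.mem_filter.1 hz).2)
      (fun ξ hξ η hη hlt => hJP i j (hjP i hi) ξ (Finset.mem_filter.1 hξ).2 η
        (Finset.mem_filter.1 hη).2 hlt (hZ0 ξ (Finset.mem_filter.1 hξ).1)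
        (hZ0 η (Finset.mem_filter.1 hη).1)) (by linarith)
    have h2 : ((i : ℝ) + 1 - i) / (3 / κ i) = κ i / 3 := by
      have := (hκ0 i).ne'
      field_simp
      ring
    rw [h2] at h1
    exact h1
  have hNn : ∀ i ∈ Finset.range X, ((Z.filter fun z => z ∈ Icc (-((i : ℝ) + 1)) (-i)).card : ℝ) ≤
      1 + κ i / 3 := by
    intro i hi
    have h1 := card_gap (Z.filter fun z => z ∈ Icc (-((i : ℝ) + 1)) (-i)) (a := -((i : ℝ) + 1))
      (b := -i)
      (γ := 3 / κ i) (div_pos (by norm_num) (hκ0 i)) (fun z hz => (Finset.mem_filter.1 hz).2)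
      (fun ξ hξ η hη hlt => hJN i j (hjN i hi) ξ (Finset.mem_filter.1 hξ).2 η
        (Finset.mem_filter.1 hη).2 hlt (hZ0 ξ (Finset.mem_filter.1 hξ).1)
        (hZ0 η (Finset.mem_filter.1 hη).1)) (by linarith)
    have h2 : (-(i : ℝ) - -((i : ℝ) + 1)) / (3 / κ i) = κ i / 3 := by
      have := (hκ0 i).ne'
      field_simp
      ring
    rw [h2] at h1
    exact h1
  have hcover : Z ⊆ ((Z.filter fun z => (X : ℝ) ≤ z) ∪ (Z.filter fun z => z ≤ -(X : ℝ))) ∪
      (Finset.range X).biUnion fun i => (Z.filter fun z => z ∈ Icc (i : ℝ) (i + 1)) ∪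
        (Z.filter fun z => z ∈ Icc (-((i : ℝ) + 1)) (-i)) := by
    intro z hz
    by_cases h1 : (X : ℝ) ≤ z
    · exact Finset.mem_union_left _ (Finset.mem_union_left _ (Finset.mem_filter.2 ⟨hz, h1⟩))
    by_cases h2 : z ≤ -(X : ℝ)
    · exact Finset.mem_union_left _ (Finset.mem_union_right _ (Finset.mem_filter.2 ⟨hz, h2⟩))
    push Not at h1 h2
    apply Finset.mem_union_right
    rw [Finset.mem_biUnion]
    rcases le_or_gt 0 z with h3 | h3
    · refine ⟨⌊z⌋₊, Finset.mem_range.2 ?_, Finset.mem_union_left _ (Finset.mem_filter.2 ⟨hz, ?_⟩)⟩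
      · exact (Nat.floor_lt h3).2 h1
      · exact ⟨Nat.floor_le h3, (Nat.lt_floor_add_one z).le⟩
    · have h4 : 0 ≤ -z := by linarith
      refine ⟨⌊-z⌋₊, Finset.mem_range.2 ?_, Finset.mem_union_right _ (Finset.mem_filter.2 ⟨hz, ?_⟩)⟩
      · exact (Nat.floor_lt h4).2 (by linarith)
      · have h5 := Nat.floor_le h4
        have h6 := (Nat.lt_floor_add_one (-z)).le
        exact ⟨by linarith, by linarith⟩
  have hcount : Z.card ≤ (Z.filter fun z => (X : ℝ) ≤ z).card +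
      (Z.filter fun z => z ≤ -(X : ℝ)).card +
      ∑ i ∈ Finset.range X, ((Z.filter fun z => z ∈ Icc (i : ℝ) (i + 1)).card +
        (Z.filter fun z => z ∈ Icc (-((i : ℝ) + 1)) (-i)).card) := by
    refine (Finset.card_le_card hcover).trans ((Finset.card_union_le _ _).trans ?_)
    refine add_le_add (Finset.card_union_le _ _) ?_
    refine Finset.card_biUnion_le.trans (Finset.sum_le_sum fun i _ => Finset.card_union_le _ _)
  have hA' : ((Z.filter fun z => (X : ℝ) ≤ z).card : ℝ) ≤ M := by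
    have : (Z.filter fun z => (X : ℝ) ≤ z).card ≤ M := by omega
    exact_mod_cast this
  have hB' : ((Z.filter fun z => z ≤ -(X : ℝ)).card : ℝ) ≤ M := by
    have : (Z.filter fun z => z ≤ -(X : ℝ)).card ≤ M := by omega
    exact_mod_cast this
  rw [← hZc]
  have hcount' : (Z.card : ℝ) ≤ ((Z.filter fun z => (X : ℝ) ≤ z).card : ℝ) +
      ((Z.filter fun z => z ≤ -(X : ℝ)).card : ℝ) +
      ∑ i ∈ Finset.range X, (((Z.filter fun z => z ∈ Icc (i : ℝ) (i + 1)).card : ℝ) +
        ((Z.filter fun z => z ∈ Icc (-((i : ℝ) + 1)) (-i)).card : ℝ)) := by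
    exact_mod_cast hcount
  have hsumle : ∑ i ∈ Finset.range X, (((Z.filter fun z => z ∈ Icc (i : ℝ) (i + 1)).card : ℝ) +
        ((Z.filter fun z => z ∈ Icc (-((i : ℝ) + 1)) (-i)).card : ℝ)) ≤
      ∑ i ∈ Finset.range X, 2 * (1 + κ i / 3) :=
    Finset.sum_le_sum fun i hi => by linarith [hP i hi, hNn i hi]
  linarith

end Pool.Agent.H900R3.Rev
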