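import Pool.Agent.H900R3.Rev.Stmts

set_option autoImplicit false

open Set Filter Topology

namespace Pool.Agent.H900R3.Rev

namespace TCheb

/-- Rolle up to infinity -/
lemma rolle_inf {W W' : ℝ → ℝ} {ζ : ℝ} (hd : ∀ x, HasDerivAt W (W' x) x) (h0 : W ζ = 0)
    (hl : Tendsto W atTop (𝓝 0)) : ∃ c, ζ < c ∧ W' c = 0 := by
  by_cases hall : ∀ x, ζ < x → W x = 0
  · refine ⟨ζ + 1, by linarith, ?_⟩
    have h1 : (fun _ => (0:ℝ)) =ᶠ[𝓝 (ζ + 1)] W := by
      filter_upwards [lt_mem_nhds (show ζ < ζ + 1 by linarith)] with x hx using (hall x hx).symm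
    have h2 := (hd (ζ + 1)).congr_of_eventuallyEq h1
    exact h2.unique (hasDerivAt_const _ _)
  · push Not at hall
    obtain ⟨x0, hx0, hne⟩ := hall
    have hpos : 0 < (W x0) ^ 2 := by positivity
    have hl2 : Tendsto (fun x => (W x) ^ 2) atTop (𝓝 0) := by
      have := hl.pow 2
      simpa using this
    obtain ⟨y, hy1, hy2⟩ := ((hl2.eventually (gt_mem_nhds hpos)).and (eventually_gt_atTop x0)).exists
    have hcont : Continuous W := continuous_iff_continuousAt.2 fun x => (hd x).continuousAt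
    have hc : ContinuousOn (fun x => (W x) ^ 2) (Icc ζ y) := (hcont.pow 2).continuousOn
    obtain ⟨c, hc1, hc2⟩ := isCompact_Icc.exists_isMaxOn ⟨ζ, left_mem_Icc.2 (by linarith)⟩ hc
    have h3 : (W x0) ^ 2 ≤ (W c) ^ 2 := hc2 ⟨hx0.le, hy2.le⟩
    have h5 : W c ≠ 0 := by
      intro h
      rw [h] at h3
      nlinarith
    have hcζ : ζ < c := by
      rcases hc1.1.eq_or_lt with h | h
      · exfalso
        apply h5
        rw [← h, h0]
      · exact h
    have hcy : c < y := by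
      rcases hc1.2.eq_or_lt with h | h
      · exfalso
        rw [h] at h3
        linarith
      · exact h
    have hloc : IsLocalMax (fun x => (W x) ^ 2) c := hc2.isLocalMax (Icc_mem_nhds hcζ hcy)
    have hd2 : HasDerivAt (fun x => (W x) ^ 2) (2 * W c * W' c) c := by
      have := (hd c).fun_pow 2
      simpa using this
    have h4 := hloc.hasDerivAt_eq_zero hd2
    refine ⟨c, hcζ, ?_⟩
    rcases mul_eq_zero.1 h4 with h | h
    · exfalso
      apply h5
      linarith
    · exact h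

lemma bdd_mul {f g : ℝ → ℝ} (hf : ∃ C, ∀ x, |f x| ≤ C) (hg : Tendsto g atTop (𝓝 0)) :
    Tendsto (fun x => g x * f x) atTop (𝓝 0) := by
  obtain ⟨C, hC⟩ := hf
  have h1 : Tendsto (fun x => |g x| * C) atTop (𝓝 0) := by
    have := (hg.abs).mul_const C
    simpa using this
  refine squeeze_zero_norm (fun x => ?_) h1
  rw [Real.norm_eq_abs, abs_mul]
  exact mul_le_mul_of_nonneg_left (hC x) (abs_nonneg _)

lemma cheb (q : ℝ → ℝ) (w w1 : ℕ → ℝ → ℝ) (X : ℝ) : ∀ (n : ℕ) (S : Finset ℕ) (a : ℕ → ℝ), S.card = n →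
    (∀ m ∈ S, BSol q ((m : ℝ) ^ 2) (w m) (w1 m)) → (∀ m ∈ S, Tendsto (w1 m) atTop (𝓝 0)) →
    (∀ m ∈ S, ∀ x, X ≤ x → w m x ≠ 0) → ∀ t : ℕ → ℝ, (∀ j, j + 1 < n → t j < t (j + 1)) →
    (∀ j, j < n → X ≤ t j ∧ ∑ m ∈ S, a m * w m (t j) = 0) → ∀ m ∈ S, a m = 0 := by
  intro n
  induction n with
  | zero =>
    intro S a hS _ _ _ t _ _ m hm
    rw [Finset.card_eq_zero] at hS
    rw [hS] at hm
    simp at hm
  | succ n ih =>
    intro S a hS hB hT hne t ht hz
    obtain ⟨i, hi⟩ : S.Nonempty := Finset.card_pos.1 (by omega)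
    set u : ℝ → ℝ := fun x => ∑ m ∈ S, a m * w m x with hu
    set u1 : ℝ → ℝ := fun x => ∑ m ∈ S, a m * w1 m x with hu1
    have hud : ∀ x, HasDerivAt u (u1 x) x := fun x =>
      HasDerivAt.fun_sum (fun m hm => ((hB m hm).d1 x).const_mul (a m))
    have hu1d : ∀ x, HasDerivAt u1 (∑ m ∈ S, a m * (((m:ℝ) ^ 2 - q x) * w m x)) x := fun x =>
      HasDerivAt.fun_sum (fun m hm => ((hB m hm).d2 x).const_mul (a m))
    set W : ℝ → ℝ := fun x => u1 x * w i x - u x * w1 i x with hW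
    set W' : ℝ → ℝ := fun x => w i x * ∑ m ∈ S.erase i, (a m * ((m:ℝ) ^ 2 - (i:ℝ) ^ 2)) * w m x with hW'
    have hWd : ∀ x, HasDerivAt W (W' x) x := by
      intro x
      have h := ((hu1d x).mul ((hB i hi).d1 x)).sub ((hud x).mul ((hB i hi).d2 x))
      have e1 : ∑ m ∈ S.erase i, (a m * ((m:ℝ) ^ 2 - (i:ℝ) ^ 2)) * w m x =
          ∑ m ∈ S, (a m * ((m:ℝ) ^ 2 - (i:ℝ) ^ 2)) * w m x :=
        Finset.sum_erase S (by ring)
      have e2 : ∑ m ∈ S, (a m * ((m:ℝ) ^ 2 - (i:ℝ) ^ 2)) * w m x =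
          ∑ m ∈ S, a m * (((m:ℝ) ^ 2 - q x) * w m x) - ((i:ℝ) ^ 2 - q x) * ∑ m ∈ S, a m * w m x := by
        rw [Finset.mul_sum, ← Finset.sum_sub_distrib]
        exact Finset.sum_congr rfl fun m _ => by ring
      have e3 : W' x = (∑ m ∈ S, a m * (((m:ℝ) ^ 2 - q x) * w m x)) * w i x + u1 x * w1 i x -
          (u1 x * w1 i x + u x * (((i:ℝ) ^ 2 - q x) * w i x)) := by
        change w i x * ∑ m ∈ S.erase i, (a m * ((m:ℝ) ^ 2 - (i:ℝ) ^ 2)) * w m x = _
        rw [e1, e2]
        change _ = (∑ m ∈ S, a m * (((m:ℝ) ^ 2 - q x) * w m x)) * w i x + u1 x * w1 i x -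
          (u1 x * w1 i x + (∑ m ∈ S, a m * w m x) * (((i:ℝ) ^ 2 - q x) * w i x))
        ring
      rw [e3]
      exact h
    have hWl : Tendsto W atTop (𝓝 0) := by
      have e : W = fun x => ∑ m ∈ S, a m * (w1 m x * w i x - w1 i x * w m x) := by
        funext x
        simp only [hW, hu, hu1]
        rw [Finset.sum_mul, Finset.sum_mul, ← Finset.sum_sub_distrib]
        exact Finset.sum_congr rfl fun m _ => by ring
      rw [e]
      have h1 : ∀ m ∈ S, Tendsto (fun x => a m * (w1 m x * w i x - w1 i x * w m x)) atTop (𝓝 0) := by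
        intro m hm
        have h2 := (bdd_mul (hB i hi).bdd (hT m hm)).sub (bdd_mul (hB m hm).bdd (hT i hi))
        have h3 := h2.const_mul (a m)
        simpa using h3
      have h4 := tendsto_finsetSum S h1
      simpa using h4
    have hζ : ∀ j, j < n → ∃ c, t j < c ∧ c < t (j + 1) ∧ W c = 0 := by
      intro j hj
      have hlt := ht j (by omega)
      have hX := (hz j (by omega)).1
      have hd : ∀ x, X ≤ x → HasDerivAt (fun x => u x / w i x) (W x / (w i x) ^ 2) x := by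
        intro x hx
        exact (hud x).div ((hB i hi).d1 x) (hne i hi x hx)
      obtain ⟨c, hc, hc0⟩ := exists_hasDerivAt_eq_zero (f := fun x => u x / w i x)
        (f' := fun x => W x / (w i x) ^ 2) hlt
        (fun x hx => (hd x (hX.trans hx.1)).continuousAt.continuousWithinAt)
        (by
          have h1 : u (t j) = 0 := (hz j (by omega)).2
          have h2 : u (t (j + 1)) = 0 := (hz (j + 1) (by omega)).2
          simp only [h1, h2, zero_div])
        (fun x hx => hd x (hX.trans hx.1.le))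
      refine ⟨c, hc.1, hc.2, ?_⟩
      have h1 : (w i c) ^ 2 ≠ 0 := pow_ne_zero 2 (hne i hi c (hX.trans hc.1.le))
      exact (div_eq_zero_iff.1 hc0).resolve_right h1
    choose! ζ hζ1 hζ2 hζ3 using hζ
    have hξ : ∀ j, j < n → ∃ c, ζ j < c ∧ (j + 1 < n → c < ζ (j + 1)) ∧ W' c = 0 := by
      intro j hj
      by_cases hj1 : j + 1 < n
      · have hlt : ζ j < ζ (j + 1) := (hζ2 j hj).trans (hζ1 (j + 1) hj1)
        obtain ⟨c, hc, hc0⟩ := exists_hasDerivAt_eq_zero (f := W) (f' := W') hlt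
          (fun x _ => (hWd x).continuousAt.continuousWithinAt)
          (by rw [hζ3 j hj, hζ3 (j + 1) hj1]) (fun x _ => hWd x)
        exact ⟨c, hc.1, fun _ => hc.2, hc0⟩
      · obtain ⟨c, hc, hc0⟩ := rolle_inf hWd (hζ3 j hj) hWl
        exact ⟨c, hc, fun h => absurd h hj1, hc0⟩
    choose! ξ hξ1 hξ2 hξ3 using hξ
    have hmain := ih (S.erase i) (fun m => a m * ((m:ℝ) ^ 2 - (i:ℝ) ^ 2))
      (by rw [Finset.card_erase_of_mem hi, hS]; rfl)
      (fun m hm => hB m (Finset.mem_of_mem_erase hm)) (fun m hm => hT m (Finset.mem_of_mem_erase hm))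
      (fun m hm => hne m (Finset.mem_of_mem_erase hm)) ξ
      (fun j hj => (hξ2 j (by omega) hj).trans (hξ1 (j + 1) hj))
      (fun j hj => by
        have hX : X ≤ ξ j := (hz j (by omega)).1.trans ((hζ1 j hj).le.trans (hξ1 j hj).le)
        refine ⟨hX, ?_⟩
        exact (mul_eq_zero.1 (hξ3 j hj)).resolve_left (hne i hi _ hX))
    have hoff : ∀ m ∈ S, m ≠ i → a m = 0 := by
      intro m hm hmi
      have h1 := hmain m (Finset.mem_erase.2 ⟨hmi, hm⟩)
      refine (mul_eq_zero.1 h1).resolve_right fun h2 => hmi ?_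
      have h3 : (m:ℝ) ^ 2 = (i:ℝ) ^ 2 := by linarith
      have h4 : m ^ 2 = i ^ 2 := by exact_mod_cast h3
      exact Nat.pow_left_injective (by norm_num) h4
    intro m hm
    by_cases hmi : m = i
    · subst hmi
      have h1 := (hz 0 (by omega)).2
      rw [Finset.sum_eq_single m (fun k hk hkm => by rw [hoff k hk hkm, zero_mul])
        (fun h => absurd hm h)] at h1
      exact (mul_eq_zero.1 h1).resolve_right (hne m hm _ (hz 0 (by omega)).1)
    · exact hoff m hm hmi

end TCheb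

theorem taskCheb : TaskCheb := by
  intro S q w w1 a X hB hT hne Z hZ hcard
  obtain ⟨Z', hZ', hc⟩ := Finset.exists_subset_card_eq hcard
  refine TCheb.cheb q w w1 X S.card S a rfl hB hT hne
    (fun j => if h : j < S.card then Z'.orderEmbOfFin hc ⟨j, h⟩ else 0) ?_ ?_
  · intro j hj
    have hj' : j < S.card := by omega
    simp only [hj, hj', dif_pos]
    exact (Z'.orderEmbOfFin hc).strictMono (by
      rw [Fin.lt_def]
      simp)
  · intro j hj
    simp only [hj, dif_pos]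
    exact hZ _ (hZ' (Z'.orderEmbOfFin_mem hc _))

end Pool.Agent.H900R3.Rev
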