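import Pool.Agent.H900R3.Rev.Stmts

/-!
# No eigenvalue near `0`
-/

set_option autoImplicit false

open Set Filter Topology

namespace Pool.Agent.H900R3.Rev

/-- A function with derivative at least `c > 0` beyond a point is not bounded. -/
theorem unbounded_of_deriv {h h1 : ℝ → ℝ} (hd : ∀ x, HasDerivAt h (h1 x) x) {c x0 B : ℝ}
    (hc : 0 < c) (hx : ∀ x, x0 ≤ x → c ≤ h1 x) (hB : ∀ x, |h x| ≤ B) : False := by
  have hcont : Continuous h := continuous_iff_continuousAt.2 fun x => (hd x).continuousAt
  have key : ∀ x, x0 ≤ x → c * (x - x0) ≤ h x - h x0 := by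
    intro x hxx
    refine (convex_Ici x0).mul_sub_le_image_sub_of_le_deriv hcont.continuousOn
      (fun y _ => (hd y).differentiableAt.differentiableWithinAt) (fun y hy => ?_) x0
      (mem_Ici.2 le_rfl) x hxx hxx
    rw [interior_Ici] at hy
    rw [(hd y).deriv]
    exact hx y (le_of_lt hy)
  have hB0 : 0 ≤ B := (abs_nonneg _).trans (hB 0)
  have h1 := key (x0 + (2 * B + 1) / c) (by have : 0 ≤ (2 * B + 1) / c := by positivity
                                            linarith)
  have h2 : c * (x0 + (2 * B + 1) / c - x0) = 2 * B + 1 := by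
    field_simp
    ring
  rw [h2] at h1
  have h3 := (abs_le.1 (hB (x0 + (2 * B + 1) / c))).2
  have h4 := (abs_le.1 (hB x0)).1
  linarith

/-- Mirror image of a solution. -/
theorem BSol.mirror {q w w1 : ℝ → ℝ} {μ : ℝ} (h : BSol q μ w w1) :
    BSol (fun x => q (-x)) μ (fun x => w (-x)) (fun x => -w1 (-x)) := by
  refine ⟨fun x => ?_, fun x => ?_, ?_⟩
  · have := (h.d1 (-x)).comp x (hasDerivAt_neg x)
    have e : w1 (-x) * -1 = -w1 (-x) := by ring
    rw [e] at this
    exact this
  · have := ((h.d2 (-x)).comp x (hasDerivAt_neg x)).neg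
    have e : -((μ - q (-x)) * w (-x) * -1) = (μ - q (-x)) * w (-x) := by ring
    rw [e] at this
    exact this
  · obtain ⟨C, hC⟩ := h.bdd
    exact ⟨C, fun x => hC _⟩

theorem BSol.neg {q w w1 : ℝ → ℝ} {μ : ℝ} (h : BSol q μ w w1) :
    BSol q μ (fun x => -w x) (fun x => -w1 x) := by
  refine ⟨fun x => (h.d1 x).neg, fun x => ?_, ?_⟩
  · have := (h.d2 x).neg
    have e : -((μ - q x) * w x) = (μ - q x) * -w x := by ring
    rw [e] at this
    exact this
  · obtain ⟨C, hC⟩ := h.bdd
    exact ⟨C, fun x => by rw [abs_neg]; exact hC _⟩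

/-- A bounded solution with `μ - q ≥ k0 > 0` vanishes. -/
theorem BSol.zero_of_pos {q w w1 : ℝ → ℝ} {μ k0 : ℝ} (h : BSol q μ w w1) (hk : 0 < k0)
    (hq : ∀ x, k0 ≤ μ - q x) : ∀ x, w x = 0 := by
  have hg : ∀ x, HasDerivAt (fun x => w x * w1 x) (w1 x * w1 x + w x * ((μ - q x) * w x)) x :=
    fun x => (h.d1 x).mul (h.d2 x)
  have hg0 : ∀ x, 0 ≤ w1 x * w1 x + w x * ((μ - q x) * w x) := fun x => by
    have h1 : 0 ≤ μ - q x := hk.le.trans (hq x)
    have h2 := mul_self_nonneg (w1 x)
    have h3 := mul_nonneg h1 (mul_self_nonneg (w x))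
    nlinarith
  have hmono : Monotone fun x => w x * w1 x :=
    monotone_of_deriv_nonneg (fun x => (hg x).differentiableAt) fun x => by
      rw [(hg x).deriv]
      exact hg0 x
  have hs : ∀ x, HasDerivAt (fun x => w x * w x) (2 * (w x * w1 x)) x := fun x => by
    have := (h.d1 x).mul (h.d1 x)
    have e : w1 x * w x + w x * w1 x = 2 * (w x * w1 x) := by ring
    rw [e] at this
    exact this
  obtain ⟨C, hC⟩ := h.bdd
  have hC2 : ∀ x, |w x * w x| ≤ C * C := fun x => by
    rw [abs_mul]
    exact mul_le_mul (hC x) (hC x) (abs_nonneg _) ((abs_nonneg _).trans (hC x))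
  have h1 : ∀ x, w x * w1 x ≤ 0 := by
    intro x0
    by_contra hx
    push Not at hx
    refine unbounded_of_deriv hs (c := 2 * (w x0 * w1 x0)) (x0 := x0) (by linarith)
      (fun x hxx => ?_) hC2
    have := hmono hxx
    simp only at this
    linarith
  have h2 : ∀ x, 0 ≤ w x * w1 x := by
    intro x0
    by_contra hx
    push Not at hx
    have hs' : ∀ x, HasDerivAt (fun x => w (-x) * w (-x)) (-(2 * (w (-x) * w1 (-x)))) x := by
      intro x
      have := (hs (-x)).comp x (hasDerivAt_neg x)
      have e : 2 * (w (-x) * w1 (-x)) * -1 = -(2 * (w (-x) * w1 (-x))) := by ring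
      rw [e] at this
      exact this
    refine unbounded_of_deriv hs' (c := -(2 * (w x0 * w1 x0))) (x0 := -x0) (by linarith)
      (fun x hxx => ?_) (fun x => hC2 (-x))
    have := hmono (show -x ≤ x0 by linarith)
    simp only at this
    linarith
  intro x
  have h3 : (fun x => w x * w1 x) = fun _ => 0 := by
    funext x
    exact le_antisymm (h1 x) (h2 x)
  have h4 := hg x
  rw [h3] at h4
  have h5 := h4.unique (hasDerivAt_const x (0 : ℝ))
  have h6 := hq x
  have h7 := mul_self_nonneg (w1 x)
  have h8 : k0 * (w x * w x) ≤ (μ - q x) * (w x * w x) :=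
    mul_le_mul_of_nonneg_right h6 (mul_self_nonneg _)
  have h9 : w x * w x ≤ 0 := by
    by_contra hx
    push Not at hx
    have := mul_pos hk hx
    linarith
  exact mul_self_eq_zero.1 (le_antisymm h9 (mul_self_nonneg _))

theorem gap_aux {lam : ℝ} {f w w1 : ℝ → ℝ} (hlam : 0 < lam) (hf : ∀ x, 0 < f x)
    (h : BSol (fun x => lam * f x) (((0 : ℕ) : ℝ) ^ 2) w w1) (t1 : Tendsto w1 atTop (𝓝 0))
    (t2 : Tendsto (fun x => -w1 (-x)) atTop (𝓝 0)) (hw : ∀ x, 0 < w x) : False := by
  have hanti : StrictAnti w1 := strictAnti_of_deriv_neg fun x => by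
    rw [(h.d2 x).deriv]
    have := mul_pos (mul_pos hlam (hf x)) (hw x)
    simp only [Nat.cast_zero, ne_eq, OfNat.ofNat_ne_zero, not_false_eq_true, zero_pow, zero_sub,
      neg_mul]
    linarith
  have h1 : 0 < w1 0 := by
    have h2 : 0 ≤ w1 1 := by
      refine le_of_tendsto t1 ?_
      filter_upwards [eventually_ge_atTop (1 : ℝ)] with x hx
      exact hanti.antitone hx
    have h3 : w1 1 < w1 0 := hanti zero_lt_one
    linarith
  have h2 : w1 0 < 0 := by
    have h2 : 0 ≤ -w1 (-1) := by
      refine le_of_tendsto t2 ?_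
      filter_upwards [eventually_ge_atTop (1 : ℝ)] with x hx
      have : w1 (-1) ≤ w1 (-x) := hanti.antitone (by linarith)
      linarith
    have h3 : w1 0 < w1 (-1) := hanti (by norm_num)
    linarith
  linarith

/-- No eigenvalue near `0`. -/
theorem taskGap : TaskGap := by
  intro hT C α hC hα
  refine ⟨min (1 / C) (α ^ 2 / C), by positivity, ?_⟩
  intro lam f m w w1 hlam hlam0 hcf hf hfC hsol
  have l1 : lam * C < 1 := by
    have : lam < 1 / C := lt_of_lt_of_le hlam0 (min_le_left _ _)
    rwa [lt_div_iff₀ hC] at this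
  have l2 : lam * C < α ^ 2 := by
    have : lam < α ^ 2 / C := lt_of_lt_of_le hlam0 (min_le_right _ _)
    rwa [lt_div_iff₀ hC] at this
  have hfC' : ∀ x, f x ≤ C := fun x => by
    refine (hfC x).trans ?_
    have : Real.exp (-α * |x|) ≤ 1 := by
      rw [Real.exp_le_one_iff]
      have := mul_nonneg hα.le (abs_nonneg x)
      linarith
    nlinarith
  rcases Nat.eq_zero_or_pos m with hm | hm
  · subst hm
    by_contra hne
    have q1 : ∀ x, 0 ≤ x → lam * f x ≤ lam * C * Real.exp (-α * x) := fun x hx => by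
      have := hfC x
      rw [abs_of_nonneg hx] at this
      calc lam * f x ≤ lam * (C * Real.exp (-α * x)) := mul_le_mul_of_nonneg_left this hlam.le
        _ = _ := by ring
    have q2 : ∀ x, 0 ≤ x → lam * f (-x) ≤ lam * C * Real.exp (-α * x) := fun x hx => by
      have := hfC (-x)
      rw [abs_neg, abs_of_nonneg hx] at this
      calc lam * f (-x) ≤ lam * (C * Real.exp (-α * x)) := mul_le_mul_of_nonneg_left this hlam.le
        _ = _ := by ring
    have T1 := hT (lam * C) α (fun x => lam * f x) w w1 0 (mul_pos hlam hC) hα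
      (continuous_const.mul hcf) (fun x _ => (mul_pos hlam (hf x)).le) q1 hsol
    have T2 := hT (lam * C) α (fun x => lam * f (-x)) (fun x => w (-x)) (fun x => -w1 (-x)) 0
      (mul_pos hlam hC) hα (continuous_const.mul (hcf.comp continuous_neg))
      (fun x _ => (mul_pos hlam (hf _)).le) q2 hsol.mirror
    have e0 : lam * C * Real.exp (-α * 0) = lam * C := by simp
    have nz : ∀ x, w x ≠ 0 := by
      intro x hx
      rcases le_total 0 x with h0 | h0
      · exact hne (T1.2 0 x le_rfl h0 (by rw [e0]; exact l1.le) (by rw [e0]; exact l2) hx)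
      · refine hne fun y => ?_
        have := T2.2 0 (-x) le_rfl (by linarith) (by rw [e0]; exact l1.le) (by rw [e0]; exact l2)
          (by simpa using hx) (-y)
        simpa using this
    have hcw : Continuous w := continuous_iff_continuousAt.2 fun x => (hsol.d1 x).continuousAt
    have sgn : (∀ x, 0 < w x) ∨ ∀ x, w x < 0 := by
      by_contra hcon
      push Not at hcon
      obtain ⟨⟨a, ha⟩, ⟨b, hb⟩⟩ := hcon
      obtain ⟨c, hc⟩ := mem_range_of_exists_le_of_exists_ge hcw ⟨a, ha⟩ ⟨b, hb⟩
      exact nz c hc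
    rcases sgn with hs | hs
    · exact gap_aux hlam hf hsol T1.1 T2.1 hs
    · refine gap_aux hlam hf hsol.neg ?_ ?_ fun x => neg_pos.2 (hs x)
      · simpa using T1.1.neg
      · simpa using T2.1.neg
  · refine hsol.zero_of_pos (k0 := 1 - lam * C) (by linarith) fun x => ?_
    have h1 : (1 : ℝ) ≤ (m : ℝ) ^ 2 := by
      have : (1 : ℝ) ≤ m := by exact_mod_cast hm
      nlinarith
    have h2 : lam * f x ≤ lam * C := mul_le_mul_of_nonneg_left (hfC' x) hlam.le
    linarith

end Pool.Agent.H900R3.Rev
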