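import Pool.Agent.H900R3.Rev.Stmts

/-! TaskNear, by helper482 -/

set_option autoImplicit false

open Set Filter Topology MeasureTheory
open scoped ContDiff Interval

namespace Pool.Agent.H900R3.Rev

open Pool.Agent.H900R3.Liou

/-- Sturm comparison: gap between zeros (local condition on `Q`) -/
theorem gap_pos' {w w1 Q : ℝ → ℝ} {κ ξ η : ℝ} (h1 : ∀ x, HasDerivAt w (w1 x) x)
    (h2 : ∀ x, HasDerivAt w1 (- Q x * w x) x) (hκ : 0 < κ) (hQ : ∀ x ∈ Ioo ξ η, Q x < κ ^ 2)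
    (hgap : κ * (η - ξ) < Real.pi) (h0 : w ξ = 0) (h0' : w η = 0) (t : ℝ)
    (ht : t ∈ Ioo ξ η) : w t ≤ 0 := by
  by_contra hpos
  push Not at hpos
  set ε := (Real.pi - κ * (η - ξ)) / 2 with hε
  have hε0 : 0 < ε := by rw [hε]; linarith
  set s : ℝ → ℝ := fun x => Real.sin (κ * (x - ξ) + ε) with hs
  have hs1 : ∀ x, HasDerivAt s (κ * Real.cos (κ * (x - ξ) + ε)) x := by
    intro x
    have h3 : HasDerivAt (fun x : ℝ => κ * (x - ξ) + ε) κ x := by
      have := (((hasDerivAt_id x).sub_const ξ).const_mul κ).add_const ε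
      simpa using this
    have h4 := h3.sin
    rw [mul_comm] at h4
    exact h4
  have hs2 : ∀ x, HasDerivAt (fun x => κ * Real.cos (κ * (x - ξ) + ε)) (- κ ^ 2 * s x) x := by
    intro x
    have h3 : HasDerivAt (fun x : ℝ => κ * (x - ξ) + ε) κ x := by
      have := (((hasDerivAt_id x).sub_const ξ).const_mul κ).add_const ε
      simpa using this
    have h4 := h3.cos.const_mul κ
    refine h4.congr_deriv ?_
    show κ * (-Real.sin (κ * (x - ξ) + ε) * κ) = -κ ^ 2 * Real.sin (κ * (x - ξ) + ε)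
    ring
  have hspos : ∀ x ∈ Icc ξ η, 0 < s x := by
    intro x hx
    apply Real.sin_pos_of_pos_of_lt_pi
    · have := mul_nonneg hκ.le (sub_nonneg.2 hx.1); linarith
    · have := mul_le_mul_of_nonneg_left (sub_le_sub_right hx.2 ξ) hκ.le
      rw [hε]; linarith
  have hc : ContinuousOn (fun x => w x / s x) (Icc ξ η) := by
    apply ContinuousOn.div
    · exact fun x _ => (h1 x).continuousAt.continuousWithinAt
    · exact fun x _ => (hs1 x).continuousAt.continuousWithinAt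
    · exact fun x hx => (hspos x hx).ne'
  obtain ⟨x, hx, hmax⟩ := isCompact_Icc.exists_isMaxOn
    (⟨t, Ioo_subset_Icc_self ht⟩ : (Icc ξ η).Nonempty) hc
  set c := w x / s x with hcdef
  have hct : w t / s t ≤ c := hmax (Ioo_subset_Icc_self ht)
  have hc0 : 0 < c := lt_of_lt_of_le (div_pos hpos (hspos t (Ioo_subset_Icc_self ht))) hct
  have hxξ : x ≠ ξ := by
    intro h; rw [hcdef, h, h0] at hc0; simp at hc0
  have hxη : x ≠ η := by
    intro h; rw [hcdef, h, h0'] at hc0; simp at hc0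
  have hxI : x ∈ Ioo ξ η := ⟨lt_of_le_of_ne hx.1 (Ne.symm hxξ), lt_of_le_of_ne hx.2 hxη⟩
  have hwx : w x = c * s x := by rw [hcdef, div_mul_cancel₀ _ (hspos x hx).ne']
  have hu1 : ∀ y, HasDerivAt (fun y => w y - c * s y)
      (w1 y - c * (κ * Real.cos (κ * (y - ξ) + ε))) y := fun y => (h1 y).sub ((hs1 y).const_mul c)
  have hu2 : ∀ y, HasDerivAt (fun y => w1 y - c * (κ * Real.cos (κ * (y - ξ) + ε)))
      (- Q y * w y - c * (- κ ^ 2 * s y)) y := fun y => (h2 y).sub ((hs2 y).const_mul c)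
  have hmaxu : IsLocalMax (fun y => w y - c * s y) x := by
    filter_upwards [Icc_mem_nhds hxI.1 hxI.2] with y hy
    have h5 : w y / s y ≤ c := hmax hy
    rw [div_le_iff₀ (hspos y hy)] at h5
    show w y - c * s y ≤ w x - c * s x
    rw [hwx]; linarith
  have h6 := snd_max hu1 hu2 hmaxu
  rw [hwx] at h6
  have h7 : 0 < (κ ^ 2 - Q x) * (c * s x) :=
    mul_pos (by linarith [hQ x hxI]) (mul_pos hc0 (hspos x hx))
  nlinarith

theorem gap_zero' {w w1 Q : ℝ → ℝ} {κ ξ η : ℝ} (h1 : ∀ x, HasDerivAt w (w1 x) x)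
    (h2 : ∀ x, HasDerivAt w1 (- Q x * w x) x) (hκ : 0 < κ) (hQ : ∀ x ∈ Ioo ξ η, Q x < κ ^ 2)
    (hgap : κ * (η - ξ) < Real.pi) (h0 : w ξ = 0) (h0' : w η = 0) (t : ℝ)
    (ht : t ∈ Ioo ξ η) : w t = 0 := by
  apply le_antisymm (gap_pos' h1 h2 hκ hQ hgap h0 h0' t ht)
  have := gap_pos' (w := fun x => - w x) (w1 := fun x => - w1 x) (Q := Q) (fun x => (h1 x).neg)
    (fun x => by
      have := (h2 x).neg
      exact this.congr_deriv (by ring)) hκ hQ hgap (by simp [h0]) (by simp [h0']) t ht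
  linarith

theorem taskNear : TaskNear := by
  intro S w w1 r v v1 Q a b κ γ h1 hc1 hv1 hv2 hQc hv hr0 hr1 hκ hQ hγ
  by_contra hcon
  push Not at hcon
  choose j hjJ ξ k1 η k2 k5 k3 k4 k6 using hcon
  have hvc : Continuous v1 := continuous_iff_continuousAt.2 fun x => (hv2 x).continuousAt
  obtain ⟨⟨x, y⟩, hxy', σ, hσ, hlim⟩ := (isCompact_Icc.prod isCompact_Icc).tendsto_subseq
    (x := fun j => (ξ j, η j)) (fun j => (⟨k1 j, k2 j⟩ : _ ∈ Icc a b ×ˢ Icc a b))
  have lx : Tendsto (fun i => ξ (σ i)) atTop (𝓝 x) := (continuous_fst.tendsto _).comp hlim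
  have ly : Tendsto (fun i => η (σ i)) atTop (𝓝 y) := (continuous_snd.tendsto _).comp hlim
  have hvc0 : Continuous v := continuous_iff_continuousAt.2 fun x => (hv1 x).continuousAt
  have hwc0 : ∀ μ, Continuous (w μ) := fun μ =>
    continuous_iff_continuousAt.2 fun x => (h1 μ x).continuousAt
  have hj : Tendsto (fun i => j (σ i)) atTop atTop :=
    tendsto_atTop_mono (fun i => hjJ (σ i)) hσ.tendsto_atTop
  -- limits
  have lim : ∀ {V : ℝ → ℝ} {W : ℕ → ℝ → ℝ}, Continuous V → (∀ μ, Continuous (W μ)) →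
      ∀ {u : ℕ → ℝ} {x : ℝ}, Tendsto u atTop (𝓝 x) →
      Tendsto (fun i => V (u i) + ∑ μ ∈ S, r μ ^ (j (σ i)) * W μ (u i)) atTop (𝓝 (V x)) := by
    intro V W hV hW u x hu
    have e : V x = V x + ∑ μ ∈ S, 0 * W μ x := by simp
    rw [e]
    refine ((hV.tendsto x).comp hu).add (tendsto_finset_sum _ fun μ hμ => ?_)
    refine Tendsto.mul ?_ (((hW μ).tendsto x).comp hu)
    exact (tendsto_pow_atTop_nhds_zero_of_lt_one (hr0 μ hμ) (hr1 μ hμ)).comp hj
  have vx : v x = 0 := by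
    have := lim hvc0 hwc0 lx
    simp only [k3] at this
    exact tendsto_nhds_unique this tendsto_const_nhds |>.symm ▸ rfl
  have vy : v y = 0 := by
    have := lim hvc0 hwc0 ly
    simp only [k4] at this
    exact tendsto_nhds_unique this tendsto_const_nhds |>.symm ▸ rfl
  have hxy : x ≤ y := le_of_tendsto_of_tendsto' lx ly fun i => (k5 _).le
  have hyx : y - x ≤ γ := le_of_tendsto' (ly.sub lx) fun i => k6 _
  obtain ⟨x0, hx0⟩ := hv
  have hkc : Continuous fun x => -Q x := hQc.neg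
  have hfin : ∀ p, v p = 0 → v1 p = 0 → False := fun p hp0 hp1 =>
    hx0 (ode_unique (k := fun x => -Q x) hv1 hv2 hkc hp0 hp1 x0)
  rcases hxy.eq_or_lt with h | h
  · -- equal
    have hz : ∀ i, ∃ ζ ∈ Ioo (ξ i) (η i), v1 ζ + ∑ μ ∈ S, r μ ^ (j i) * w1 μ ζ = 0 := by
      intro i
      have hd : ∀ x, HasDerivAt (fun x => v x + ∑ μ ∈ S, r μ ^ (j i) * w μ x)
          (v1 x + ∑ μ ∈ S, r μ ^ (j i) * w1 μ x) x := by
        intro x
        refine (hv1 x).add ?_
        have := HasDerivAt.fun_sum (u := S) (A := fun μ x => r μ ^ (j i) * w μ x)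
          (A' := fun μ => r μ ^ (j i) * w1 μ x) (x := x) fun μ _ => (h1 μ x).const_mul _
        exact this
      obtain ⟨ζ, hζ, hζ0⟩ := exists_hasDerivAt_eq_zero (k5 i)
        (fun x _ => (hd x).continuousAt.continuousWithinAt) ((k3 i).trans (k4 i).symm)
        (fun x _ => hd x)
      exact ⟨ζ, hζ, hζ0⟩
    choose ζ hζ hζ0 using hz
    have lz : Tendsto (fun i => ζ (σ i)) atTop (𝓝 x) :=
      tendsto_of_tendsto_of_tendsto_of_le_of_le lx (h ▸ ly) (fun i => (hζ _).1.le)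
        (fun i => (hζ _).2.le)
    have := lim hvc hc1 lz
    simp only [hζ0] at this
    exact hfin x vx (tendsto_nhds_unique this tendsto_const_nhds)
  · have hg : κ * (y - x) < Real.pi :=
      lt_of_le_of_lt (mul_le_mul_of_nonneg_left hyx hκ.le) hγ
    have hQ' : ∀ t ∈ Ioo x y, Q t < κ ^ 2 := fun t ht =>
      hQ t ⟨hxy'.1.1.trans ht.1.le, ht.2.le.trans hxy'.2.2⟩
    have h0 : ∀ t ∈ Ioo x y, v t = 0 := gap_zero' hv1 hv2 hκ hQ' hg vx vy
    obtain ⟨t, ht⟩ := exists_between h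
    have ht' : t ∈ Ioo x y := ht
    have h3 : v =ᶠ[𝓝 t] fun _ => 0 := by
      filter_upwards [Ioo_mem_nhds ht'.1 ht'.2] with s hs using h0 s hs
    have h4 : HasDerivAt v 0 t := (hasDerivAt_const t (0 : ℝ)).congr_of_eventuallyEq h3
    exact hfin t (h0 t ht') ((hv1 t).unique h4)

end Pool.Agent.H900R3.Rev
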