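import Pool.Agent.H900R3.Rev.Stmts
import Pool.Agent.H900R3.Liou.Sing

/-! Project H900-REV: the singular set is countable (`TaskSing`). -/

set_option autoImplicit false

open Set Filter Topology MeasureTheory
open scoped ContDiff ENNReal NNReal

namespace Pool.Agent.H900R3.Rev

open Pool.Agent.H900R3.Liou (dX dY dX_smooth dY_smooth dXY dX_add dY_add dX_smul dY_smul dY_mul
  dX_mul diff_of fd_eq hdX hdY re_smooth ode_unique)

/-- iterated derivatives in the second variable -/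
noncomputable def Q (φ : ℂ → ℝ) (j : ℕ) : ℂ → ℝ := dY^[j] φ

theorem Q_succ (φ : ℂ → ℝ) (j : ℕ) : Q φ (j + 1) = dY (Q φ j) := Function.iterate_succ_apply' _ _ _
theorem Q_succ' (φ : ℂ → ℝ) (j : ℕ) : Q φ (j + 1) = Q (dY φ) j := rfl

theorem Q_smooth {φ : ℂ → ℝ} (h : ContDiff ℝ ∞ φ) (j : ℕ) : ContDiff ℝ ∞ (Q φ j) := by
  induction j with
  | zero => exact h
  | succ j ih => rw [Q_succ]; exact dY_smooth ih

theorem Q_add {φ ψ : ℂ → ℝ} (h : ContDiff ℝ ∞ φ) (h' : ContDiff ℝ ∞ ψ) (j : ℕ) :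
    Q (fun z => φ z + ψ z) j = fun z => Q φ j z + Q ψ j z := by
  induction j with
  | zero => rfl
  | succ j ih => rw [Q_succ, ih, dY_add (Q_smooth h j) (Q_smooth h' j)]; simp only [Q_succ]

theorem Q_smul {φ : ℂ → ℝ} (h : ContDiff ℝ ∞ φ) (c : ℝ) (j : ℕ) :
    Q (fun z => c * φ z) j = fun z => c * Q φ j z := by
  induction j with
  | zero => rfl
  | succ j ih => rw [Q_succ, ih, dY_smul (Q_smooth h j)]; simp only [Q_succ]

theorem Q_dX {φ : ℂ → ℝ} (h : ContDiff ℝ ∞ φ) (j : ℕ) : Q (dX φ) j = dX (Q φ j) := by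
  induction j with
  | zero => rfl
  | succ j ih => rw [Q_succ, ih, ← dXY (Q_smooth h j), ← Q_succ]

theorem Q_mul_zero (k : ℕ) : ∀ {g ψ : ℂ → ℝ}, ContDiff ℝ ∞ g → ContDiff ℝ ∞ ψ → ∀ {z : ℂ},
    (∀ i ≤ k, Q ψ i z = 0) → Q (fun z => g z * ψ z) k z = 0 := by
  induction k with
  | zero =>
    intro g ψ hg hψ z h0
    show g z * ψ z = 0
    have : ψ z = 0 := h0 0 le_rfl
    rw [this]; ring
  | succ k ih =>
    intro g ψ hg hψ z h0
    rw [Q_succ', dY_mul hg hψ, Q_add ((dY_smooth hg).mul hψ) (hg.mul (dY_smooth hψ))]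
    have a1 := ih (dY_smooth hg) hψ (z := z) (fun i hi => h0 i (by omega))
    have a2 := ih hg (dY_smooth hψ) (z := z) (fun i hi => by
      have := h0 (i + 1) (by omega)
      rwa [Q_succ'] at this)
    simp only [a1, a2, add_zero]

/-- jets of order less than `m` vanish -/
def SS (φ : ℂ → ℝ) (m : ℕ) : Set ℂ :=
  {z | (∀ j < m, Q φ j z = 0) ∧ ∀ j, j + 1 < m → Q (dX φ) j z = 0}

theorem isolatedQ {lam : ℝ} {f : ℝ → ℝ} {φ : ℂ → ℝ} (hf : ContDiff ℝ ∞ f) (h : CSol lam f φ)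
    (k : ℕ) {z : ℂ} (hz : z ∈ SS φ (k + 2))
    (hz' : z ∉ SS φ (k + 3)) : ∀ᶠ w in 𝓝 z, w ∈ SS φ (k + 2) → w = z := by
  have hs := h.smooth
  set α := Q φ (k + 2) z with hα
  set β := Q (dX φ) (k + 1) z with hβ
  have hαβ : 0 < α ^ 2 + β ^ 2 := by
    by_contra hcon
    have h1 : α = 0 := by nlinarith [sq_nonneg α, sq_nonneg β]
    have h2 : β = 0 := by nlinarith [sq_nonneg α, sq_nonneg β]
    apply hz'
    constructor
    · intro j hj
      rcases Nat.lt_succ_iff_lt_or_eq.1 hj with h3 | h3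
      · exact hz.1 j h3
      · rw [h3]; exact h1
    · intro j hj
      rcases Nat.lt_succ_iff_lt_or_eq.1 (Nat.lt_of_succ_lt_succ hj) with h3 | h3
      · exact hz.2 j (by omega)
      · rw [h3]; exact h2
  have g1s := Q_smooth hs (k + 1)
  have g2s := Q_smooth (dX_smooth hs) k
  have e1 : dY (Q φ (k + 1)) z = α := by rw [← Q_succ]
  have e2 : dX (Q φ (k + 1)) z = β := by rw [← Q_dX hs]
  have e3 : dY (Q (dX φ) k) z = β := by rw [← Q_succ]
  have e4 : dX (Q (dX φ) k) z = -α := by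
    rw [← Q_dX (dX_smooth hs)]
    have e5 : dX (dX φ) = fun z => (-1) * dY (dY φ) z +
        (fun z : ℂ => (-1) * (lam * f z.re)) z * φ z := by
      funext w
      have := h.pde w
      simp only
      linarith
    have s3 : ContDiff ℝ ∞ (fun z : ℂ => (-1) * (lam * f z.re)) :=
      contDiff_const.mul (contDiff_const.mul (re_smooth hf))
    rw [e5, Q_add (contDiff_const.mul (dY_smooth (dY_smooth hs))) (s3.mul hs),
      Q_smul (dY_smooth (dY_smooth hs))]
    have a1 := Q_mul_zero k s3 hs (z := z) (fun i hi => hz.1 i (by omega))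
    have a2 : Q (dY (dY φ)) k z = α := by rw [hα, Q_succ', Q_succ']
    simp only at a1 ⊢
    rw [a1, a2]; ring
  have z1 : Q φ (k + 1) z = 0 := hz.1 _ (by omega)
  have z2 : Q (dX φ) k z = 0 := hz.2 _ (by omega)
  set c := Real.sqrt (α ^ 2 + β ^ 2) / 2 with hc
  have hc0 : 0 < c := by rw [hc]; positivity
  have hc2 : c ^ 2 = (α ^ 2 + β ^ 2) / 4 := by
    rw [hc, div_pow, Real.sq_sqrt hαβ.le]; norm_num
  have d1 := ((diff_of g1s z).hasFDerivAt.isLittleO).def hc0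
  have d2 := ((diff_of g2s z).hasFDerivAt.isLittleO).def hc0
  filter_upwards [d1, d2] with w hw1 hw2 hwT
  have w1 : Q φ (k + 1) w = 0 := hwT.1 _ (by omega)
  have w2 : Q (dX φ) k w = 0 := hwT.2 _ (by omega)
  rw [w1, z1, fd_eq, e1, e2] at hw1
  rw [w2, z2, fd_eq, e3, e4] at hw2
  set v := w - z with hv
  have hn : ‖v‖ ^ 2 = v.re ^ 2 + v.im ^ 2 := by
    rw [← Complex.normSq_eq_norm_sq, Complex.normSq_apply]; ring
  simp only [sub_zero, zero_sub, norm_neg, Real.norm_eq_abs] at hw1 hw2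
  have q1 : (β * v.re + α * v.im) ^ 2 ≤ c ^ 2 * ‖v‖ ^ 2 := by
    rw [← sq_abs, ← mul_pow]
    exact pow_le_pow_left₀ (abs_nonneg _) hw1 2
  have q2 : (-α * v.re + β * v.im) ^ 2 ≤ c ^ 2 * ‖v‖ ^ 2 := by
    rw [← sq_abs, ← mul_pow]
    exact pow_le_pow_left₀ (abs_nonneg _) hw2 2
  have q3 : (α ^ 2 + β ^ 2) * ‖v‖ ^ 2 ≤ 2 * (c ^ 2 * ‖v‖ ^ 2) := by
    rw [hn] at q1 q2 ⊢
    nlinarith
  rw [hc2] at q3
  have q4 : ‖v‖ ^ 2 = 0 := by
    by_contra hne
    have : 0 < ‖v‖ ^ 2 := lt_of_le_of_ne (sq_nonneg _) (Ne.symm hne)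
    have := mul_pos hαβ this
    nlinarith
  have q5 : v = 0 := by
    rw [← norm_eq_zero]
    exact pow_eq_zero_iff (two_ne_zero) |>.1 q4
  exact sub_eq_zero.1 q5

/-- derivatives of a trigonometric polynomial -/
theorem trig_der {ψ : ℂ → ℝ} (hs : ContDiff ℝ ∞ ψ) (x0 : ℝ) (M : ℕ) (a b : ℕ → ℝ)
    (h : ∀ y : ℝ, ψ ⟨x0, y⟩ = ∑ m ∈ Finset.range (M + 1),
      (a m * Real.cos (m * y) + b m * Real.sin (m * y))) (j : ℕ) :
    (∀ y : ℝ, Q ψ (2 * j) ⟨x0, y⟩ = ∑ m ∈ Finset.range (M + 1),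
      (a m * Real.cos (m * y) + b m * Real.sin (m * y)) * (-(m : ℝ) ^ 2) ^ j) ∧
    (∀ y : ℝ, Q ψ (2 * j + 1) ⟨x0, y⟩ = ∑ m ∈ Finset.range (M + 1),
      (m * (b m * Real.cos (m * y) - a m * Real.sin (m * y))) * (-(m : ℝ) ^ 2) ^ j) := by
  have hcos : ∀ (m : ℕ) (y : ℝ), HasDerivAt (fun y : ℝ => Real.cos (m * y)) (-(m * Real.sin (m * y))) y := by
    intro m y
    have := (Real.hasDerivAt_cos (m * y)).comp y ((hasDerivAt_id y).const_mul (m : ℝ))
    refine this.congr_deriv ?_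
    simp
    ring
  have hsin : ∀ (m : ℕ) (y : ℝ), HasDerivAt (fun y : ℝ => Real.sin (m * y)) (m * Real.cos (m * y)) y := by
    intro m y
    have := (Real.hasDerivAt_sin (m * y)).comp y ((hasDerivAt_id y).const_mul (m : ℝ))
    refine this.congr_deriv ?_
    simp
    ring
  -- from even to odd
  have step1 : ∀ j : ℕ, (∀ y : ℝ, Q ψ (2 * j) ⟨x0, y⟩ = ∑ m ∈ Finset.range (M + 1),
      (a m * Real.cos (m * y) + b m * Real.sin (m * y)) * (-(m : ℝ) ^ 2) ^ j) →
      ∀ y : ℝ, Q ψ (2 * j + 1) ⟨x0, y⟩ = ∑ m ∈ Finset.range (M + 1),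
      (m * (b m * Real.cos (m * y) - a m * Real.sin (m * y))) * (-(m : ℝ) ^ 2) ^ j := by
    intro j hj y
    have h1 := hdY (Q_smooth hs (2 * j)) x0 y
    rw [← Q_succ] at h1
    have h2 : HasDerivAt (fun y : ℝ => Q ψ (2 * j) ⟨x0, y⟩) (∑ m ∈ Finset.range (M + 1),
      (m * (b m * Real.cos (m * y) - a m * Real.sin (m * y))) * (-(m : ℝ) ^ 2) ^ j) y := by
      have e : (fun y : ℝ => Q ψ (2 * j) ⟨x0, y⟩) = fun y => ∑ m ∈ Finset.range (M + 1),
        (a m * Real.cos (m * y) + b m * Real.sin (m * y)) * (-(m : ℝ) ^ 2) ^ j := funext hj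
      rw [e]
      refine HasDerivAt.fun_sum (fun m _ => ?_)
      have := (((hcos m y).const_mul (a m)).add ((hsin m y).const_mul (b m))).mul_const
        ((-(m : ℝ) ^ 2) ^ j)
      refine this.congr_deriv ?_
      ring
    exact h1.unique h2
  have step2 : ∀ j : ℕ, (∀ y : ℝ, Q ψ (2 * j + 1) ⟨x0, y⟩ = ∑ m ∈ Finset.range (M + 1),
      (m * (b m * Real.cos (m * y) - a m * Real.sin (m * y))) * (-(m : ℝ) ^ 2) ^ j) →
      ∀ y : ℝ, Q ψ (2 * (j + 1)) ⟨x0, y⟩ = ∑ m ∈ Finset.range (M + 1),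
      (a m * Real.cos (m * y) + b m * Real.sin (m * y)) * (-(m : ℝ) ^ 2) ^ (j + 1) := by
    intro j hj y
    have h1 := hdY (Q_smooth hs (2 * j + 1)) x0 y
    rw [← Q_succ] at h1
    have h2 : HasDerivAt (fun y : ℝ => Q ψ (2 * j + 1) ⟨x0, y⟩) (∑ m ∈ Finset.range (M + 1),
      (a m * Real.cos (m * y) + b m * Real.sin (m * y)) * (-(m : ℝ) ^ 2) ^ (j + 1)) y := by
      have e : (fun y : ℝ => Q ψ (2 * j + 1) ⟨x0, y⟩) = fun y => ∑ m ∈ Finset.range (M + 1),
        (m * (b m * Real.cos (m * y) - a m * Real.sin (m * y))) * (-(m : ℝ) ^ 2) ^ j := funext hj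
      rw [e]
      refine HasDerivAt.fun_sum (fun m _ => ?_)
      have := ((((hcos m y).const_mul (b m)).sub ((hsin m y).const_mul (a m))).const_mul
        (m : ℝ)).mul_const ((-(m : ℝ) ^ 2) ^ j)
      refine this.congr_deriv ?_
      ring
    exact h1.unique h2
  induction j with
  | zero =>
    have h0 : ∀ y : ℝ, Q ψ (2 * 0) ⟨x0, y⟩ = ∑ m ∈ Finset.range (M + 1),
      (a m * Real.cos (m * y) + b m * Real.sin (m * y)) * (-(m : ℝ) ^ 2) ^ 0 := by
      intro y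
      simp only [pow_zero, mul_one]
      exact h y
    exact ⟨h0, step1 0 h0⟩
  | succ j ih => exact ⟨step2 j ih.2, step1 (j + 1) (step2 j ih.2)⟩

theorem vdm (M : ℕ) (c : ℕ → ℝ) (h : ∀ j : ℕ, ∑ m ∈ Finset.range (M + 1),
    c m * (-(m : ℝ) ^ 2) ^ j = 0) : ∀ m ∈ Finset.range (M + 1), c m = 0 := by
  have h1 : (fun m : Fin (M + 1) => c m) = 0 := by
    refine Matrix.eq_zero_of_forall_pow_sum_mul_pow_eq_zero (f := fun m : Fin (M + 1) => -((m : ℕ) : ℝ) ^ 2)
      ?_ ?_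
    · intro m n hmn
      simp only [neg_inj] at hmn
      have h2 : ((m : ℕ) : ℝ) = ((n : ℕ) : ℝ) := by
        rwa [sq_eq_sq₀ (Nat.cast_nonneg _) (Nat.cast_nonneg _)] at hmn
      exact Fin.ext (by exact_mod_cast h2)
    · intro i
      rw [← h i, Finset.sum_range]
  intro m hm
  exact congrFun h1 ⟨m, Finset.mem_range.1 hm⟩

/-- a trigonometric polynomial with all derivatives zero at a point vanishes -/
theorem trig_zero {ψ : ℂ → ℝ} (hs : ContDiff ℝ ∞ ψ) (x0 y0 : ℝ) (M : ℕ) (a b : ℕ → ℝ)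
    (h : ∀ y : ℝ, ψ ⟨x0, y⟩ = ∑ m ∈ Finset.range (M + 1),
      (a m * Real.cos (m * y) + b m * Real.sin (m * y))) (hz : ∀ j, Q ψ j ⟨x0, y0⟩ = 0) :
    ∀ m ∈ Finset.range (M + 1), a m = 0 ∧ (m ≠ 0 → b m = 0) := by
  have hc := vdm M (fun m => a m * Real.cos (m * y0) + b m * Real.sin (m * y0)) (fun j => by
    rw [← (trig_der hs x0 M a b h j).1 y0, hz])
  have hd := vdm M (fun m => m * (b m * Real.cos (m * y0) - a m * Real.sin (m * y0))) (fun j => by
    rw [← (trig_der hs x0 M a b h j).2 y0, hz])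
  intro m hm
  have h1 : a m * Real.cos (m * y0) + b m * Real.sin (m * y0) = 0 := hc m hm
  have h2 : m * (b m * Real.cos (m * y0) - a m * Real.sin (m * y0)) = 0 := hd m hm
  have h3 := Real.sin_sq_add_cos_sq (m * y0)
  by_cases hm0 : m = 0
  · subst hm0
    simp at h1
    exact ⟨h1, fun h => absurd rfl h⟩
  · have hm1 : (m : ℝ) ≠ 0 := Nat.cast_ne_zero.2 hm0
    have h4 : b m * Real.cos (m * y0) - a m * Real.sin (m * y0) = 0 := by
      rcases mul_eq_zero.1 h2 with h5 | h5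
      · exact absurd h5 hm1
      · exact h5
    constructor
    · linear_combination (-(a m)) * h3 + Real.cos (m * y0) * h1 - Real.sin (m * y0) * h4
    · intro _
      linear_combination (-(b m)) * h3 + Real.sin (m * y0) * h1 + Real.cos (m * y0) * h4

theorem taskSing : TaskSing := by
  intro lam f φ M A A1 B B1 hf h hA hB hφ hne
  -- formula for the derivative
  have hφ1 : ∀ x y : ℝ, dX φ ⟨x, y⟩ = ∑ m ∈ Finset.range (M + 1),
        (A1 m x * Real.cos (m * y) + B1 m x * Real.sin (m * y)) := by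
    intro x y
    have h1 := hdX h.smooth x y
    have h2 : HasDerivAt (fun x : ℝ => φ ⟨x, y⟩) (∑ m ∈ Finset.range (M + 1),
        (A1 m x * Real.cos (m * y) + B1 m x * Real.sin (m * y))) x := by
      have e : (fun x : ℝ => φ ⟨x, y⟩) = fun x => ∑ m ∈ Finset.range (M + 1),
        (A m x * Real.cos (m * y) + B m x * Real.sin (m * y)) := funext fun x => hφ x y
      rw [e]
      refine HasDerivAt.fun_sum (fun m _ => ?_)
      exact (((hA m).d1 x).mul_const _).add (((hB m).d1 x).mul_const _)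
    exact h1.unique h2
  have no_inf : ∀ z : ℂ, (∀ m, z ∈ SS φ m) → False := by
    rintro ⟨x0, y0⟩ hz
    have z1 : ∀ j, Q φ j ⟨x0, y0⟩ = 0 := fun j => (hz (j + 1)).1 j (by omega)
    have z2 : ∀ j, Q (dX φ) j ⟨x0, y0⟩ = 0 := fun j => (hz (j + 2)).2 j (by omega)
    have t1 := trig_zero h.smooth x0 y0 M (fun m => A m x0) (fun m => B m x0) (hφ x0) z1
    have t2 := trig_zero (dX_smooth h.smooth) x0 y0 M (fun m => A1 m x0) (fun m => B1 m x0)
      (hφ1 x0) z2
    have hk : ∀ m : ℕ, Continuous fun x => (m : ℝ) ^ 2 - lam * f x := fun m =>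
      continuous_const.sub (continuous_const.mul hf.continuous)
    apply hne
    funext w
    obtain ⟨x, y⟩ := w
    rw [hφ x y]
    refine Finset.sum_eq_zero (fun m hm => ?_)
    have a1 : A m x = 0 := ode_unique (w := A m) (w1 := A1 m)
      (k := fun x => (m : ℝ) ^ 2 - lam * f x) (x0 := x0) (hA m).d1 (hA m).d2 (hk m)
      (t1 m hm).1 (t2 m hm).1 x
    by_cases hm0 : m = 0
    · rw [a1, hm0]
      simp
    · have b1 : B m x = 0 := ode_unique (w := B m) (w1 := B1 m)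
        (k := fun x => (m : ℝ) ^ 2 - lam * f x) (x0 := x0) (hB m).d1 (hB m).d2 (hk m)
        ((t1 m hm).2 hm0) ((t2 m hm).2 hm0) x
      rw [a1, b1]
      simp
  have h1 : {z : ℂ | φ z = 0 ∧ dX φ z = 0 ∧ dY φ z = 0} ⊆
      ⋃ k : ℕ, (SS φ (k + 2) \ SS φ (k + 3)) := by
    intro z hz
    have h2 : z ∈ SS φ 2 := by
      constructor
      · intro j hj
        have : j = 0 ∨ j = 1 := by omega
        rcases this with rfl | rfl
        · exact hz.1
        · exact hz.2.2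
      · intro j hj
        have : j = 0 := by omega
        subst this
        exact hz.2.1
    by_contra hcon
    simp only [mem_iUnion, mem_diff, not_exists, not_and, not_not] at hcon
    have h3 : ∀ k, z ∈ SS φ (k + 2) := by
      intro k
      induction k with
      | zero => exact h2
      | succ k ih => exact hcon k ih
    refine no_inf z fun m => ?_
    exact ⟨fun j hj => (h3 m).1 j (by omega), fun j hj => (h3 m).2 j (by omega)⟩
  refine (countable_iUnion fun k => ?_).mono h1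
  obtain ⟨t, ht, htc, hcov⟩ := TopologicalSpace.countable_cover_nhdsWithin
    (s := SS φ (k + 2) \ SS φ (k + 3)) (f := fun z => {w | w ∈ SS φ (k + 2) → w = z})
    (fun z hz => mem_nhdsWithin_of_mem_nhds (isolatedQ hf h k hz.1 hz.2))
  refine htc.mono fun w hw => ?_
  have := hcov hw
  simp only [mem_iUnion, mem_setOf_eq] at this
  obtain ⟨z, hz, hwz⟩ := this
  rw [hwz hw.1]
  exact hz

end Pool.Agent.H900R3.Rev
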