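import Pool.Agent.H900R3.Rev.Stmts

/-! Alternation step on the whole line (maximum principle with weight `1 + x²`). -/

set_option autoImplicit false

open Set Filter Topology MeasureTheory
open scoped ContDiff ENNReal NNReal

namespace Pool.Agent.H900R3.Rev

open Pool.Agent.H900R3.Liou (snd_max alt_zero)

namespace StepH405

theorem tends {g : ℝ → ℝ} (hb : ∃ C, ∀ x, |g x| ≤ C) :
    Tendsto (fun x => g x / (1 + x ^ 2)) (cocompact ℝ) (𝓝 0) := by
  obtain ⟨C, hC⟩ := hb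
  have h1 : Tendsto (fun x : ℝ => 1 + x ^ 2) (cocompact ℝ) atTop := by
    apply tendsto_atTop_add_const_left
    have h2 : Tendsto (fun x : ℝ => ‖x‖) (cocompact ℝ) atTop := tendsto_norm_cocompact_atTop
    have h3 := (tendsto_pow_atTop (α := ℝ) (n := 2) (by norm_num)).comp h2
    refine h3.congr fun x => ?_
    simp
  have h4 : Tendsto (fun x : ℝ => C / (1 + x ^ 2)) (cocompact ℝ) (𝓝 0) :=
    h1.const_div_atTop C
  refine squeeze_zero_norm (fun x => ?_) h4
  rw [Real.norm_eq_abs, abs_div, abs_of_pos (show (0 : ℝ) < 1 + x ^ 2 by positivity)]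
  exact div_le_div_of_nonneg_right (hC x) (by positivity)

theorem peakS_pos {g g1 g2 q : ℝ → ℝ} (h1 : ∀ x, HasDerivAt g (g1 x) x)
    (h2 : ∀ x, HasDerivAt g1 (g2 x) x) (hbd : ∃ C, ∀ x, |g x| ≤ C) (hq : ∀ x, 2 < q x)
    (P Q : Prop) {a b t : ℝ} (ha : P → g a = 0) (hb : Q → g b = 0) (hta : P → a ≤ t)
    (htb : Q → t ≤ b) (hg : 0 < g t) :
    ∃ ξ, (P → a < ξ) ∧ (Q → ξ < b) ∧ 0 < q ξ * g ξ - g2 ξ := by
  set S : Set ℝ := {x | (P → a ≤ x) ∧ (Q → x ≤ b)} with hS
  have hScl : IsClosed S := by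
    have e : S = {x | P → a ≤ x} ∩ {x | Q → x ≤ b} := rfl
    rw [e]
    apply IsClosed.inter
    · by_cases hP : P
      · simp only [hP, true_imp_iff]; exact isClosed_Ici (a := a)
      · simp [hP]
    · by_cases hQ : Q
      · simp only [hQ, true_imp_iff]; exact isClosed_Iic (a := b)
      · simp [hQ]
  have htS : t ∈ S := ⟨hta, htb⟩
  have hcont : Continuous g := continuous_iff_continuousAt.2 fun x => (h1 x).continuousAt
  have hc : ContinuousOn (fun x => g x / (1 + x ^ 2)) S := by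
    apply Continuous.continuousOn
    exact hcont.div (by fun_prop) fun x => by positivity
  have hpt : 0 < g t / (1 + t ^ 2) := by positivity
  have hev : ∀ᶠ x in cocompact ℝ ⊓ 𝓟 S, g x / (1 + x ^ 2) ≤ g t / (1 + t ^ 2) := by
    apply Filter.Eventually.filter_mono inf_le_left
    filter_upwards [(tends hbd).eventually (gt_mem_nhds hpt)] with x hx
    exact le_of_lt hx
  obtain ⟨ξ, hξS, hmax⟩ := hc.exists_isMaxOn' hScl htS hev
  have hmax' : ∀ x ∈ S, g x / (1 + x ^ 2) ≤ g ξ / (1 + ξ ^ 2) := fun x hx => hmax hx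
  set c := g ξ / (1 + ξ ^ 2) with hcd
  have hc0 : 0 < c := lt_of_lt_of_le hpt (hmax' t htS)
  have hgξ : g ξ = c * (1 + ξ ^ 2) := by
    rw [hcd, div_mul_cancel₀ _ (by positivity)]
  have hgpos : 0 < g ξ := by rw [hgξ]; positivity
  have hPa : P → a < ξ := by
    intro hP
    refine lt_of_le_of_ne (hξS.1 hP) ?_
    rintro rfl
    rw [ha hP] at hgpos
    exact lt_irrefl _ hgpos
  have hQb : Q → ξ < b := by
    intro hQ
    refine lt_of_le_of_ne (hξS.2 hQ) ?_
    rintro rfl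
    rw [hb hQ] at hgpos
    exact lt_irrefl _ hgpos
  have hnhds : S ∈ 𝓝 ξ := by
    have e : S = {x | P → a ≤ x} ∩ {x | Q → x ≤ b} := rfl
    rw [e]
    apply Filter.inter_mem
    · by_cases hP : P
      · simp only [hP, true_imp_iff]; exact Ici_mem_nhds (hPa hP)
      · simp [hP]
    · by_cases hQ : Q
      · simp only [hQ, true_imp_iff]; exact Iic_mem_nhds (hQb hQ)
      · simp [hQ]
  refine ⟨ξ, hPa, hQb, ?_⟩
  have hu1 : ∀ y, HasDerivAt (fun y => g y - c * (1 + y ^ 2)) (g1 y - c * (2 * y)) y := by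
    intro y
    have h3 : HasDerivAt (fun y : ℝ => 1 + y ^ 2) (2 * y) y := by
      have := ((hasDerivAt_id y).fun_pow 2).const_add 1
      simpa using this
    exact (h1 y).sub (h3.const_mul c)
  have hu2 : ∀ y, HasDerivAt (fun y => g1 y - c * (2 * y)) (g2 y - c * 2) y := by
    intro y
    have h3 : HasDerivAt (fun y : ℝ => 2 * y) 2 y := by
      have := (hasDerivAt_id y).const_mul 2
      simpa using this
    exact (h2 y).sub (h3.const_mul c)
  have hmaxu : IsLocalMax (fun y => g y - c * (1 + y ^ 2)) ξ := by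
    filter_upwards [hnhds] with y hy
    have h5 := hmax' y hy
    rw [div_le_iff₀ (by positivity)] at h5
    show g y - c * (1 + y ^ 2) ≤ g ξ - c * (1 + ξ ^ 2)
    rw [← hgξ]
    linarith
  have h6 := snd_max hu1 hu2 hmaxu
  have h7 : 2 * g ξ < q ξ * g ξ := mul_lt_mul_of_pos_right (hq ξ) hgpos
  have h8 : c ≤ g ξ := by
    rw [hgξ]
    nlinarith [sq_nonneg ξ]
  linarith

theorem peakS {g g1 g2 q : ℝ → ℝ} (h1 : ∀ x, HasDerivAt g (g1 x) x)
    (h2 : ∀ x, HasDerivAt g1 (g2 x) x) (hbd : ∃ C, ∀ x, |g x| ≤ C) (hq : ∀ x, 2 < q x)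
    (P Q : Prop) {a b t : ℝ} (ha : P → g a = 0) (hb : Q → g b = 0) (hta : P → a ≤ t)
    (htb : Q → t ≤ b) (hg : g t ≠ 0) :
    ∃ ξ, (P → a < ξ) ∧ (Q → ξ < b) ∧ 0 < (q ξ * g ξ - g2 ξ) * g t := by
  rcases lt_or_gt_of_ne hg with h | h
  · obtain ⟨ξ, hξ, hξ', h3⟩ := peakS_pos (g := fun x => - g x) (g1 := fun x => - g1 x)
      (g2 := fun x => - g2 x) (fun x => (h1 x).neg) (fun x => (h2 x).neg)
      (by simpa only [abs_neg] using hbd) hq P Q (a := a) (b := b)
      (t := t) (fun hP => by simp [ha hP]) (fun hQ => by simp [hb hQ]) hta htb (by simpa using h)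
    refine ⟨ξ, hξ, hξ', ?_⟩
    have h4 : q ξ * g ξ - g2 ξ < 0 := by linarith
    exact mul_pos_of_neg_of_neg h4 h
  · obtain ⟨ξ, hξ, hξ', h3⟩ := peakS_pos h1 h2 hbd hq P Q ha hb hta htb h
    exact ⟨ξ, hξ, hξ', mul_pos h3 h⟩

end StepH405

open StepH405 in
theorem taskStep : TaskStep := by
  intro g g1 g2 q n h1 h2 hbd hq ⟨t, ht2, ht3⟩
  have hz : ∀ i, ∃ z, i < n → z ∈ Ioo (t i) (t (i + 1)) ∧ g z = 0 := by
    intro i
    by_cases hi : i < n
    · obtain ⟨z, hz, hz0⟩ := alt_zero h1 (ht2 i hi) (ht3 i hi)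
      exact ⟨z, fun _ => ⟨hz, hz0⟩⟩
    · exact ⟨0, fun h => absurd h hi⟩
  choose z hz using hz
  rcases Nat.eq_zero_or_pos n with hn | hn
  · subst hn
    exact ⟨fun _ => 0, fun i hi => absurd hi (by omega), fun i hi => absurd hi (by omega)⟩
  have hne : ∀ i, i ≤ n → g (t i) ≠ 0 := by
    intro i hi h0
    by_cases h : i < n
    · have := ht3 i h
      rw [h0] at this; simp at this
    · have := ht3 (i - 1) (by omega)
      rw [show i - 1 + 1 = i by omega, h0] at this; simp at this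
  have hx : ∀ i, ∃ ξ, i ≤ n → (1 ≤ i → z (i - 1) < ξ) ∧ (i < n → ξ < z i) ∧
      0 < (q ξ * g ξ - g2 ξ) * g (t i) := by
    intro i
    by_cases hi : i ≤ n
    · obtain ⟨ξ, b1, b2, b3⟩ := peakS h1 h2 hbd hq (1 ≤ i) (i < n) (a := z (i - 1)) (b := z i)
        (t := t i) (fun h => (hz (i - 1) (by omega)).2) (fun h => (hz i h).2)
        (fun h => by
          have := (hz (i - 1) (by omega)).1.2
          rw [show i - 1 + 1 = i by omega] at this
          exact this.le)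
        (fun h => (hz i h).1.1.le) (hne i hi)
      exact ⟨ξ, fun _ => ⟨b1, b2, b3⟩⟩
    · exact ⟨0, fun h => absurd h hi⟩
  choose ξ hx using hx
  refine ⟨ξ, fun i hi => ?_, fun i hi => ?_⟩
  · have a3 := (hx i hi.le).2.1 hi
    have a4 := (hx (i + 1) hi).1 (by omega)
    rw [show i + 1 - 1 = i by omega] at a4
    linarith
  · have a3 := (hx i hi.le).2.2
    have a4 := (hx (i + 1) hi).2.2
    have a5 := ht3 i hi
    have a6 := mul_pos a3 a4
    by_contra hcon
    push Not at hcon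
    have a7 : (q (ξ i) * g (ξ i) - g2 (ξ i)) * g (t i) *
        ((q (ξ (i + 1)) * g (ξ (i + 1)) - g2 (ξ (i + 1))) * g (t (i + 1))) =
        ((q (ξ i) * g (ξ i) - g2 (ξ i)) * (q (ξ (i + 1)) * g (ξ (i + 1)) - g2 (ξ (i + 1)))) *
        (g (t i) * g (t (i + 1))) := by ring
    rw [a7] at a6
    nlinarith [mul_nonneg hcon (neg_nonneg.2 a5.le)]

end Pool.Agent.H900R3.Rev
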