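import Pool.Agent.H900R3.Rev.Stmts

/-!
# Task Tail: behaviour at infinity of bounded solutions
-/

set_option autoImplicit false

open Set Filter Topology

namespace Pool.Agent.H900R3.Rev.TailAux

theorem mono {f f' : ℝ → ℝ} {a : ℝ} (h : ∀ x, HasDerivAt f (f' x) x)
    (hn : ∀ x, a ≤ x → 0 ≤ f' x) : ∀ x y, a ≤ x → x ≤ y → f x ≤ f y := by
  intro x y hx hxy
  have hm : MonotoneOn f (Ici a) := by
    apply monotoneOn_of_deriv_nonneg (convex_Ici a)
    · exact fun z _ => (h z).continuousAt.continuousWithinAt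
    · exact fun z _ => (h z).differentiableAt.differentiableWithinAt
    · intro z hz
      rw [interior_Ici] at hz
      rw [(h z).deriv]
      exact hn z hz.le
  exact hm hx (hx.trans hxy) hxy

/-- a function with derivative at least `δ > 0` is unbounded above -/
theorem unbdd {f f' : ℝ → ℝ} {a δ S : ℝ} (h : ∀ x, HasDerivAt f (f' x) x) (hδ : 0 < δ)
    (hn : ∀ x, a ≤ x → δ ≤ f' x) (hS : ∀ x, a ≤ x → |f x| ≤ S) : False := by
  have hd : ∀ x, HasDerivAt (fun x => f x - δ * x) (f' x - δ * 1) x := fun x =>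
    (h x).sub ((hasDerivAt_id x).const_mul δ)
  have hS0 : 0 ≤ S := (abs_nonneg _).trans (hS a le_rfl)
  have h1 := mono hd (a := a) (fun x hx => by have := hn x hx; linarith) a
    (a + (2 * S + 1) / δ) le_rfl (by
      have : 0 ≤ (2 * S + 1) / δ := by positivity
      linarith)
  have h2 := hS a le_rfl
  have h3 := hS (a + (2 * S + 1) / δ) (by
      have : 0 ≤ (2 * S + 1) / δ := by positivity
      linarith)
  have h4 : δ * ((2 * S + 1) / δ) = 2 * S + 1 := by field_simp
  have h5 := (abs_le.1 h2).1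
  have h6 := (abs_le.1 h3).2
  have h7 : δ * (a + (2 * S + 1) / δ) = δ * a + (2 * S + 1) := by rw [mul_add, h4]
  rw [h7] at h1
  linarith

/-- case `m = 0`, upper bound of the derivative -/
theorem bd1 {C α S a : ℝ} {q w w1 : ℝ → ℝ} (hα : 0 < α) (hC : 0 < C)
    (hq0 : ∀ x, a ≤ x → 0 ≤ q x)
    (hq : ∀ x, a ≤ x → q x ≤ C * Real.exp (-α * x)) (h1 : ∀ x, HasDerivAt w (w1 x) x)
    (h2 : ∀ x, HasDerivAt w1 (-q x * w x) x) (hS : ∀ x, a ≤ x → |w x| ≤ S) :
    ∀ x, a ≤ x → w1 x ≤ S * C / α * Real.exp (-α * x) := by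
  intro x1 hx1
  by_contra hcon
  rw [not_le] at hcon
  have hS0 : 0 ≤ S := (abs_nonneg _).trans (hS a le_rfl)
  have he : ∀ x : ℝ, HasDerivAt (fun x => Real.exp (-α * x)) (Real.exp (-α * x) * (-α)) x := by
    intro x
    have := (hasDerivAt_id x).const_mul (-α)
    simpa using this.exp
  have hd : ∀ x, HasDerivAt (fun x => w1 x - S * C / α * Real.exp (-α * x))
      (-q x * w x - S * C / α * (Real.exp (-α * x) * (-α))) x := fun x =>
    (h2 x).sub ((he x).const_mul _)
  have hpos : ∀ x, a ≤ x → 0 ≤ -q x * w x - S * C / α * (Real.exp (-α * x) * (-α)) := by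
    intro x hx
    have e1 : S * C / α * (Real.exp (-α * x) * (-α)) = -(S * (C * Real.exp (-α * x))) := by
      field_simp
    rw [e1]
    have e2 : q x * w x ≤ C * Real.exp (-α * x) * S := by
      calc q x * w x ≤ q x * |w x| := mul_le_mul_of_nonneg_left (le_abs_self _) (hq0 x hx)
        _ ≤ C * Real.exp (-α * x) * S :=
          mul_le_mul (hq x hx) (hS x hx) (abs_nonneg _) (by positivity)
    linarith
  refine unbdd h1 (a := x1) (S := S) (sub_pos.2 hcon) ?_ (fun x hx => hS x (hx1.trans hx))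
  intro x hx
  have h3 := mono hd hpos x1 x hx1 hx
  have h4 : 0 ≤ S * C / α * Real.exp (-α * x) := by positivity
  linarith

theorem bd1' {C α S a : ℝ} {q w w1 : ℝ → ℝ} (hα : 0 < α) (hC : 0 < C)
    (hq0 : ∀ x, a ≤ x → 0 ≤ q x)
    (hq : ∀ x, a ≤ x → q x ≤ C * Real.exp (-α * x)) (h1 : ∀ x, HasDerivAt w (w1 x) x)
    (h2 : ∀ x, HasDerivAt w1 (-q x * w x) x) (hS : ∀ x, a ≤ x → |w x| ≤ S) :
    ∀ x, a ≤ x → |w1 x| ≤ S * C / α * Real.exp (-α * x) := by
  intro x hx
  rw [abs_le]
  constructor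
  · have h3 := bd1 (w := fun x => -w x) (w1 := fun x => -w1 x) hα hC hq0 hq
      (fun x => (h1 x).neg) (fun x => ((h2 x).neg).congr_deriv (by ring))
      (fun x hx => by rw [abs_neg]; exact hS x hx) x hx
    linarith
  · exact bd1 hα hC hq0 hq h1 h2 hS x hx

/-- case `m = 0`, contraction -/
theorem contr {C α S a : ℝ} {q w w1 : ℝ → ℝ} (hα : 0 < α) (hC : 0 < C)
    (hq0 : ∀ x, a ≤ x → 0 ≤ q x)
    (hq : ∀ x, a ≤ x → q x ≤ C * Real.exp (-α * x)) (h1 : ∀ x, HasDerivAt w (w1 x) x)
    (h2 : ∀ x, HasDerivAt w1 (-q x * w x) x) (hS : ∀ x, a ≤ x → |w x| ≤ S) (h0 : w a = 0) :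
    ∀ x, a ≤ x → |w x| ≤ C * Real.exp (-α * a) / α ^ 2 * S := by
  have he : ∀ x : ℝ, HasDerivAt (fun x => Real.exp (-α * x)) (Real.exp (-α * x) * (-α)) x := by
    intro x
    have := (hasDerivAt_id x).const_mul (-α)
    simpa using this.exp
  have hS0 : 0 ≤ S := (abs_nonneg _).trans (hS a le_rfl)
  have key : ∀ (u u1 : ℝ → ℝ), (∀ x, HasDerivAt u (u1 x) x) → u a = 0 →
      (∀ x, a ≤ x → |u1 x| ≤ S * C / α * Real.exp (-α * x)) → ∀ x, a ≤ x →
      u x ≤ C * Real.exp (-α * a) / α ^ 2 * S := by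
    intro u u1 hu hu0 hu1 x hx
    have hd : ∀ x, HasDerivAt (fun x => -(u x + S * C / α ^ 2 * Real.exp (-α * x)))
        (-(u1 x + S * C / α ^ 2 * (Real.exp (-α * x) * (-α)))) x := fun x =>
      ((hu x).add ((he x).const_mul _)).neg
    have h3 := mono hd (a := a) (by
      intro y hy
      have e1 : S * C / α ^ 2 * (Real.exp (-α * y) * (-α)) = -(S * C / α * Real.exp (-α * y)) := by
        field_simp
      rw [e1]
      have := (abs_le.1 (hu1 y hy)).2
      linarith) a x le_rfl hx
    rw [hu0] at h3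
    have h4 : 0 ≤ S * C / α ^ 2 * Real.exp (-α * x) := by positivity
    have h5 : C * Real.exp (-α * a) / α ^ 2 * S = S * C / α ^ 2 * Real.exp (-α * a) := by ring
    rw [h5]
    linarith
  have hb := bd1' hα hC hq0 hq h1 h2 hS
  intro x hx
  rw [abs_le]
  constructor
  · have := key (fun x => -w x) (fun x => -w1 x) (fun x => (h1 x).neg) (by simp [h0])
      (fun x hx => by rw [abs_neg]; exact hb x hx) x hx
    linarith
  · exact key w w1 h1 h0 hb x hx

/-- case `m ≥ 1`: `w w'` is monotone and nonpositive -/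
theorem ww {k w w1 : ℝ → ℝ} {a K : ℝ} (h1 : ∀ x, HasDerivAt w (w1 x) x)
    (h2 : ∀ x, HasDerivAt w1 (k x * w x) x) (hk : ∀ x, a ≤ x → 0 ≤ k x)
    (hK : ∀ x, |w x| ≤ K) :
    (∀ x y, a ≤ x → x ≤ y → w x * w1 x ≤ w y * w1 y) ∧ ∀ x, a ≤ x → w x * w1 x ≤ 0 := by
  have hd : ∀ x, HasDerivAt (fun x => w x * w1 x) (w1 x * w1 x + w x * (k x * w x)) x := fun x =>
    (h1 x).mul (h2 x)
  have hm := mono hd (a := a) (by
    intro x hx
    have e1 : 0 ≤ w1 x * w1 x := mul_self_nonneg _
    have e2 : w x * (k x * w x) = k x * (w x * w x) := by ring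
    have e3 : 0 ≤ k x * (w x * w x) := mul_nonneg (hk x hx) (mul_self_nonneg _)
    rw [e2]
    linarith)
  refine ⟨hm, ?_⟩
  intro x hx
  by_contra hcon
  rw [not_le] at hcon
  have hd2 : ∀ x, HasDerivAt (fun x => w x * w x) (w1 x * w x + w x * w1 x) x := fun x =>
    (h1 x).mul (h1 x)
  refine unbdd hd2 (a := x) (S := K * K) (δ := w x * w1 x + w x * w1 x) (by linarith) ?_ ?_
  · intro y hy
    have h3 := hm x y hx hy
    have h4 : w1 y * w y = w y * w1 y := mul_comm _ _
    rw [h4]
    linarith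
  · intro y _
    rw [abs_mul]
    exact mul_le_mul (hK y) (hK y) (abs_nonneg _) ((abs_nonneg _).trans (hK y))

/-- vanishing on a half line -/
theorem zero_of {w w1 : ℝ → ℝ} {a : ℝ} (h1 : ∀ x, HasDerivAt w (w1 x) x)
    (h : ∀ x, a ≤ x → w x = 0) : w (a + 1) = 0 ∧ w1 (a + 1) = 0 := by
  refine ⟨h _ (by linarith), ?_⟩
  have h2 : w =ᶠ[𝓝 (a + 1)] fun _ => 0 := by
    filter_upwards [Ioi_mem_nhds (show a < a + 1 by linarith)] with x hx
    exact h x (le_of_lt hx)
  have h3 : HasDerivAt w 0 (a + 1) := (hasDerivAt_const (a + 1) (0 : ℝ)).congr_of_eventuallyEq h2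
  exact (h1 (a + 1)).unique h3

theorem exists_X {C α : ℝ} (hC : 0 < C) (hα : 0 < α) (ε : ℝ) (hε : 0 < ε) :
    ∃ X, 0 ≤ X ∧ ∀ x, X ≤ x → C * Real.exp (-α * x) ≤ ε := by
  have h1 : Tendsto (fun x : ℝ => C * Real.exp (-α * x)) atTop (𝓝 (C * 0)) := by
    apply Tendsto.const_mul
    apply Real.tendsto_exp_atBot.comp
    have : Tendsto (fun x : ℝ => x * (-α)) atTop atBot :=
      tendsto_id.atTop_mul_const_of_neg (by linarith)
    refine this.congr fun x => by ring
  rw [mul_zero] at h1
  obtain ⟨X, hX⟩ := (h1.eventually (ge_mem_nhds hε)).exists_forall_of_atTop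
  exact ⟨max X 0, le_max_right _ _, fun x hx => hX x ((le_max_left _ _).trans hx)⟩

end Pool.Agent.H900R3.Rev.TailAux

namespace Pool.Agent.H900R3.Rev

open TailAux

theorem tail_fin {q w w1 : ℝ → ℝ} {μ a : ℝ} (hq : Continuous q) (h : BSol q μ w w1)
    (h0 : ∀ x, a ≤ x → w x = 0) : ∀ x, w x = 0 := by
  obtain ⟨e1, e2⟩ := zero_of h.d1 h0
  exact fun x => Pool.Agent.H900R3.Liou.ode_unique (k := fun x => μ - q x) h.d1 h.d2
    (continuous_const.sub hq) e1 e2 x

theorem taskTail : TaskTail := by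
  intro C α q w w1 m hC hα hqc hq0 hq h
  obtain ⟨K, hK⟩ := h.bdd
  have hK0 : 0 ≤ K := (abs_nonneg _).trans (hK 0)
  rcases Nat.eq_zero_or_pos m with hm | hm
  · -- the case `m = 0`
    subst hm
    have h2 : ∀ x, HasDerivAt w1 (-q x * w x) x := fun x =>
      (h.d2 x).congr_deriv (by norm_num)
    constructor
    · have hb := bd1' (a := 0) hα hC (fun x hx => hq0 x hx) (fun x hx => hq x hx) h.d1 h2
        (fun x _ => hK x)
      have h3 : Tendsto (fun x : ℝ => K * C / α * Real.exp (-α * x)) atTop (𝓝 0) := by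
        have h4 : Tendsto (fun x : ℝ => K * C / α * Real.exp (-α * x)) atTop
            (𝓝 (K * C / α * 0)) := by
          apply Tendsto.const_mul
          apply Real.tendsto_exp_atBot.comp
          have : Tendsto (fun x : ℝ => x * (-α)) atTop atBot :=
            tendsto_id.atTop_mul_const_of_neg (by linarith)
          refine this.congr fun x => by ring
        rwa [mul_zero] at h4
      apply squeeze_zero_norm' _ h3
      filter_upwards [eventually_ge_atTop (0 : ℝ)] with x hx
      rw [Real.norm_eq_abs]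
      exact hb x hx
    · intro X x0 hX hXx0 _ hsmall hz
      have hx0 : 0 ≤ x0 := hX.trans hXx0
      set θ : ℝ := C * Real.exp (-α * x0) / α ^ 2 with hθ
      have hθ0 : 0 ≤ θ := by positivity
      have hθ1 : θ < 1 := by
        rw [hθ, div_lt_one (by positivity)]
        refine lt_of_le_of_lt ?_ hsmall
        apply mul_le_mul_of_nonneg_left _ hC.le
        apply Real.exp_le_exp.2
        nlinarith
      have hit : ∀ n : ℕ, ∀ x, x0 ≤ x → |w x| ≤ θ ^ n * K := by
        intro n
        induction n with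
        | zero => intro x _; simpa using hK x
        | succ n ih =>
          intro x hx
          have h4 := contr (a := x0) hα hC (fun x hx => hq0 x (hx0.trans hx))
            (fun x hx => hq x (hx0.trans hx)) h.d1 h2 ih hz x hx
          rw [← hθ] at h4
          calc |w x| ≤ θ * (θ ^ n * K) := h4
            _ = θ ^ (n + 1) * K := by ring
      apply tail_fin hqc h (a := x0)
      intro x hx
      have h5 : Tendsto (fun n : ℕ => θ ^ n * K) atTop (𝓝 (0 * K)) :=
        (tendsto_pow_atTop_nhds_zero_of_lt_one hθ0 hθ1).mul_const K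
      rw [zero_mul] at h5
      have h6 : |w x| ≤ 0 := ge_of_tendsto' h5 fun n => hit n x hx
      exact abs_eq_zero.1 (le_antisymm h6 (abs_nonneg _))
  · -- the case `m ≥ 1`
    have hm1 : (1 : ℝ) ≤ (m : ℝ) ^ 2 := by
      have : (1 : ℝ) ≤ m := by exact_mod_cast hm
      nlinarith
    constructor
    · obtain ⟨X, hX0, hX⟩ := exists_X hC hα (1 / 2) (by norm_num)
      have hk : ∀ x, X ≤ x → 0 ≤ (m : ℝ) ^ 2 - q x := by
        intro x hx
        have h3 := hq x (hX0.trans hx)
        have h4 := hX x hx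
        linarith
      obtain ⟨g1, g2⟩ := ww (a := X) h.d1 h.d2 hk hK
      -- `w1 ^ 2` is antitone
      have hd : ∀ x, HasDerivAt (fun x => -(w1 x * w1 x))
          (-(((m : ℝ) ^ 2 - q x) * w x * w1 x + w1 x * (((m : ℝ) ^ 2 - q x) * w x))) x := fun x =>
        ((h.d2 x).mul (h.d2 x)).neg
      have g3 := mono hd (a := X) (by
        intro x hx
        have e1 : -(((m : ℝ) ^ 2 - q x) * w x * w1 x + w1 x * (((m : ℝ) ^ 2 - q x) * w x)) =
            2 * (((m : ℝ) ^ 2 - q x) * -(w x * w1 x)) := by ring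
        rw [e1]
        have e2 := mul_nonneg (hk x hx) (neg_nonneg.2 (g2 x hx))
        linarith)
      rw [Metric.tendsto_atTop]
      intro ε hε
      obtain ⟨x1, hx1, hx1'⟩ : ∃ x, X ≤ x ∧ w1 x * w1 x < ε * ε := by
        by_contra hcon
        push Not at hcon
        have hd3 : ∀ x, HasDerivAt (fun x => w x * w1 x)
            (w1 x * w1 x + w x * (((m : ℝ) ^ 2 - q x) * w x)) x := fun x =>
          (h.d1 x).mul (h.d2 x)
        refine unbdd hd3 (a := X) (S := -(w X * w1 X)) (δ := ε * ε) (mul_pos hε hε) ?_ ?_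
        · intro x hx
          have e1 := hcon x hx
          have e2 : w x * (((m : ℝ) ^ 2 - q x) * w x) = ((m : ℝ) ^ 2 - q x) * (w x * w x) := by ring
          have e3 := mul_nonneg (hk x hx) (mul_self_nonneg (w x))
          rw [e2]
          linarith
        · intro x hx
          have e1 := g1 X x le_rfl hx
          have e2 := g2 x hx
          have e3 := g2 X le_rfl
          rw [abs_of_nonpos e2]
          linarith
      refine ⟨x1, fun x hx => ?_⟩
      rw [dist_zero_right, Real.norm_eq_abs]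
      have h5 := g3 x1 x hx1 hx
      have h6 : w1 x * w1 x < ε * ε := by linarith
      rw [← abs_mul_abs_self (w1 x)] at h6
      exact lt_of_mul_self_lt_mul_self₀ hε.le h6
    · intro X x0 hX hXx0 hsmall _ hz
      have hk : ∀ x, X ≤ x → 0 ≤ (m : ℝ) ^ 2 - q x := by
        intro x hx
        have h3 := hq x (hX.trans hx)
        have h4 : C * Real.exp (-α * x) ≤ C * Real.exp (-α * X) := by
          apply mul_le_mul_of_nonneg_left _ hC.le
          apply Real.exp_le_exp.2
          nlinarith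
        linarith
      obtain ⟨g1, g2⟩ := ww (a := X) h.d1 h.d2 hk hK
      apply tail_fin hqc h (a := x0)
      have g4 : ∀ x, x0 ≤ x → w x * w1 x = 0 := by
        intro x hx
        apply le_antisymm (g2 x (hXx0.trans hx))
        have := g1 x0 x hXx0 hx
        rw [hz, zero_mul] at this
        exact this
      have hd2 : ∀ x, HasDerivAt (fun x => w x * w x) (w1 x * w x + w x * w1 x) x := fun x =>
        (h.d1 x).mul (h.d1 x)
      have hd3 : ∀ x, HasDerivAt (fun x => -(w x * w x)) (-(w1 x * w x + w x * w1 x)) x := fun x =>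
        (hd2 x).neg
      intro x hx
      have h7 := mono hd3 (a := x0) (by
        intro y hy
        have e1 := g4 y hy
        have e2 : w1 y * w y = w y * w1 y := mul_comm _ _
        rw [e2, e1]
        norm_num) x0 x le_rfl hx
      rw [hz] at h7
      have h8 : 0 ≤ w x * w x := mul_self_nonneg _
      have h9 : w x * w x = 0 := by linarith
      exact mul_self_eq_zero.1 h9

end Pool.Agent.H900R3.Rev
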