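import Pool.Agent.H900R3.Rev.Length
import Pool.Agent.H900R3.Rev.TaskTail
import Pool.Agent.H900R3.Rev.TaskCheb
import Pool.Agent.H900R3.Rev.TaskStep
import Pool.Agent.H900R3.Rev.TaskNear
import Pool.Agent.H900R3.Rev.TaskSing
import Pool.Agent.H900R3.Rev.TaskGap

set_option autoImplicit false

open Set Filter Topology MeasureTheory
open scoped ContDiff ENNReal NNReal

namespace Pool.Agent.H900R3.Rev

open Pool.Agent.H900R3.Liou (dX dY dX_smooth dY_smooth hdX hdY)

theorem BSol.comb {q : ℝ → ℝ} {μ : ℝ} {w w1 v v1 : ℝ → ℝ} (h : BSol q μ w w1) (h' : BSol q μ v v1)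
    (a b : ℝ) : BSol q μ (fun x => w x * a + v x * b) (fun x => w1 x * a + v1 x * b) where
  d1 x := ((h.d1 x).mul_const a).add ((h'.d1 x).mul_const b)
  d2 x := by
    have := ((h.d2 x).mul_const a).add ((h'.d2 x).mul_const b)
    exact this.congr_deriv (by ring)
  bdd := by
    obtain ⟨C, hC⟩ := h.bdd
    obtain ⟨C', hC'⟩ := h'.bdd
    refine ⟨C * |a| + C' * |b|, fun x => (abs_add_le _ _).trans ?_⟩
    rw [abs_mul, abs_mul]
    exact add_le_add (mul_le_mul_of_nonneg_right (hC x) (abs_nonneg _))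
      (mul_le_mul_of_nonneg_right (hC' x) (abs_nonneg _))

theorem counts {C α : ℝ} (hC : 0 < C) (hα : 0 < α) {lam : ℝ} (hlam : 0 < lam) {f : ℝ → ℝ}
    (hf : Continuous f) (hf0 : ∀ x, 0 ≤ f x) (hf1 : ∀ x, f x ≤ C * Real.exp (-α * |x|))
    {φ : ℂ → ℝ} (hφ : ContDiff ℝ ∞ φ) {M : ℕ} (hM : (M : ℝ) ^ 2 ≤ lam * C)
    {A A1 B B1 : ℕ → ℝ → ℝ}
    (hA : ∀ m : ℕ, BSol (fun x => lam * f x) ((m : ℝ) ^ 2) (A m) (A1 m))
    (hB : ∀ m : ℕ, BSol (fun x => lam * f x) ((m : ℝ) ^ 2) (B m) (B1 m))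
    (hs : ∀ x y : ℝ, φ ⟨x, y⟩ = ∑ m ∈ Finset.range (M + 1),
        (A m x * Real.cos (m * y) + B m x * Real.sin (m * y))) :
    Counts φ ⌊(lineK C α + 2 * Real.sqrt C + 2) * (1 + Real.sqrt lam)⌋₊ := by
  have hl := Real.sqrt_nonneg lam
  have hc := Real.sqrt_nonneg C
  have hK := lineK_nonneg (C := C) hα
  have hsC : Real.sqrt (lam * C) = Real.sqrt lam * Real.sqrt C := Real.sqrt_mul hlam.le C
  have hMs : (M : ℝ) ≤ Real.sqrt lam * Real.sqrt C := by
    rw [← hsC]; exact Real.le_sqrt_of_sq_le hM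
  constructor
  · intro y s hsz
    apply Nat.le_floor
    have hd : ∀ x, dX φ ⟨x, y⟩ = ∑ m ∈ Finset.range (M + 1),
        (A1 m x * Real.cos (m * y) + B1 m x * Real.sin (m * y)) := by
      intro x
      have d1 := HasDerivAt.fun_sum (u := Finset.range (M + 1))
        (A := fun (m : ℕ) x => A m x * Real.cos (m * y) + B m x * Real.sin (m * y))
        (A' := fun m => A1 m x * Real.cos (m * y) + B1 m x * Real.sin (m * y)) (x := x)
        fun m _ => ((hA m).comb (hB m) _ _).d1 x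
      have e : (fun x => ∑ m ∈ Finset.range (M + 1),
          (A m x * Real.cos (m * y) + B m x * Real.sin (m * y))) = fun x => φ ⟨x, y⟩ :=
        funext fun x => (hs x y).symm
      rw [e] at d1
      exact (hdX hφ x y).unique d1
    have h1 := line_bound taskTail taskCheb taskStep taskNear hC hα hlam hf hf0 hf1 hM
      (g := fun m x => A m x * Real.cos (m * y) + B m x * Real.sin (m * y))
      (g1 := fun m x => A1 m x * Real.cos (m * y) + B1 m x * Real.sin (m * y))
      (fun m => (hA m).comb (hB m) _ _) s (fun z hz => by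
        obtain ⟨b1, b2⟩ := hsz z hz
        rw [hs] at b1
        rw [hd] at b2
        exact ⟨b1, b2⟩)
    nlinarith
  · intro x s hsz
    apply Nat.le_floor
    have hd : ∀ y, dY φ ⟨x, y⟩ = ∑ m ∈ Finset.range (M + 1),
        (-(m * A m x * Real.sin (m * y)) + m * B m x * Real.cos (m * y)) := by
      intro y
      have d1 := HasDerivAt.fun_sum (u := Finset.range (M + 1))
        (A := fun (m : ℕ) y => A m x * Real.cos (m * y) + B m x * Real.sin (m * y))
        (A' := fun m => -(m * A m x * Real.sin (m * y)) + m * B m x * Real.cos (m * y)) (x := y)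
        fun m _ => by
          have h0 : HasDerivAt (fun y : ℝ => (m : ℝ) * y) m y := by
            simpa using (hasDerivAt_id y).const_mul (m : ℝ)
          have h1 := (h0.cos.const_mul (A m x)).add (h0.sin.const_mul (B m x))
          refine h1.congr_deriv ?_
          ring
      have e : (fun y => ∑ m ∈ Finset.range (M + 1),
          (A m x * Real.cos (m * y) + B m x * Real.sin (m * y))) = fun y => φ ⟨x, y⟩ :=
        funext fun y => (hs x y).symm
      rw [e] at d1
      exact (hdY hφ x y).unique d1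
    have h1 := y_count (M := M) (fun m => A m x) (fun m => B m x) s (fun z hz => by
        obtain ⟨b1, b2, b3⟩ := hsz z hz
        rw [hs] at b2
        rw [hd] at b3
        exact ⟨b1, b2, b3⟩)
    nlinarith [mul_nonneg hl hc, mul_nonneg hK hl]

/-- the constant of the theorem -/
noncomputable def revK (C α : ℝ) : ℝ :=
  30 * (Real.sqrt C * (1 / (1 - Real.exp (-α / 2)))) * (lineK C α + 2 * Real.sqrt C + 2)

theorem revK_nonneg {C α : ℝ} (hα : 0 < α) : 0 ≤ revK C α := by
  have h1 := exp_half_lt hα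
  have h2 : 0 < 1 - Real.exp (-α / 2) := by linarith
  have := lineK_nonneg (C := C) hα
  unfold revK
  positivity

theorem nodal_bound (hF : TaskFourier) {C α : ℝ} (hC : 0 < C) (hα : 0 < α) :
    ∃ K : ℝ, ∀ (lam : ℝ) (f : ℝ → ℝ) (φ : ℂ → ℝ), 0 < lam → ContDiff ℝ ∞ f → (∀ x, 0 < f x) →
      (∀ x, f x ≤ C * Real.exp (-α * |x|)) → CSol lam f φ → φ ≠ 0 →
      ∫⁻ z in {z : ℂ | z.im ∈ Ico 0 (2 * Real.pi) ∧ φ z = 0},
        ENNReal.ofReal (Real.sqrt (f z.re)) ∂μH[1] ≤ ENNReal.ofReal (K * Real.sqrt lam) := by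
  obtain ⟨lam0, hlam0, hgap⟩ := taskGap taskTail C α hC hα
  refine ⟨revK C α * (1 + 1 / Real.sqrt lam0), fun lam f φ hlam hf hf0 hf1 hφ hne => ?_⟩
  have hfC : ∀ x, f x ≤ C := fun x => by
    have h1 : Real.exp (-α * |x|) ≤ 1 := by
      apply Real.exp_le_one_iff.2
      have := mul_nonneg hα.le (abs_nonneg x)
      linarith
    have := mul_le_mul_of_nonneg_left h1 hC.le
    linarith [hf1 x]
  obtain ⟨M, A, A1, B, B1, hM, hA, hB, hs⟩ := hF lam C f φ hlam hf (fun x => (hf0 x).le) hfC hφ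
  have hge : lam0 ≤ lam := by
    by_contra hlt
    push Not at hlt
    apply hne
    funext z
    have : z = ⟨z.re, z.im⟩ := rfl
    rw [this, hs]
    refine Finset.sum_eq_zero fun m _ => ?_
    rw [hgap lam f m _ _ hlam hlt hf.continuous hf0 hf1 (hA m) z.re,
      hgap lam f m _ _ hlam hlt hf.continuous hf0 hf1 (hB m) z.re]
    ring
  have hcount := counts hC hα hlam hf.continuous (fun x => (hf0 x).le) hf1 hφ.smooth hM hA hB hs
  have hsing := taskSing lam f φ M A A1 B B1 hf hφ hA hB hs hne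
  refine (weighted_length hφ.smooth hcount hsing hC hα hf1).trans (ENNReal.ofReal_le_ofReal ?_)
  have h1 := exp_half_lt hα
  have h2 : 0 < 1 - Real.exp (-α / 2) := by linarith
  have hK := lineK_nonneg (C := C) hα
  have hl := Real.sqrt_nonneg lam
  have h3 : (0:ℝ) ≤ 30 * (Real.sqrt C * (1 / (1 - Real.exp (-α / 2)))) := by positivity
  have h4 : (0:ℝ) ≤ (lineK C α + 2 * Real.sqrt C + 2) * (1 + Real.sqrt lam) := by positivity
  have h5 := Nat.floor_le h4
  have h6 : 0 < Real.sqrt lam0 := Real.sqrt_pos.2 hlam0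
  have h7 : Real.sqrt lam0 ≤ Real.sqrt lam := Real.sqrt_le_sqrt hge
  have h8 : 1 ≤ 1 / Real.sqrt lam0 * Real.sqrt lam := by
    rw [one_div, inv_mul_eq_div, le_div_iff₀ h6]; linarith
  calc 30 * (Real.sqrt C * (1 / (1 - Real.exp (-α / 2)))) *
        (⌊(lineK C α + 2 * Real.sqrt C + 2) * (1 + Real.sqrt lam)⌋₊ : ℝ)
      ≤ 30 * (Real.sqrt C * (1 / (1 - Real.exp (-α / 2)))) *
        ((lineK C α + 2 * Real.sqrt C + 2) * (1 + Real.sqrt lam)) :=
        mul_le_mul_of_nonneg_left h5 h3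
    _ = revK C α * (1 + Real.sqrt lam) := by unfold revK; ring
    _ ≤ revK C α * ((1 + 1 / Real.sqrt lam0) * Real.sqrt lam) := by
        apply mul_le_mul_of_nonneg_left _ (revK_nonneg hα)
        nlinarith
    _ = revK C α * (1 + 1 / Real.sqrt lam0) * Real.sqrt lam := by ring

end Pool.Agent.H900R3.Rev
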