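import Pool.Agent.H900R3.Liou.Graph

/-! Tasks for Yau's upper bound of the nodal length on spheres of revolution (cylinder
coordinates `x + i y`, metric `f(x) (dx² + dy²)`, `0 ≤ f(x) ≤ C e^{-α|x|}`). -/

set_option autoImplicit false

open Set Filter Topology MeasureTheory
open scoped ContDiff ENNReal NNReal

namespace Pool.Agent.H900R3.Rev

open Pool.Agent.H900R3.Liou (dX dY)

/-- `w` solves `w'' = (μ - q) w` with derivative `w1`, and is bounded -/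
structure BSol (q : ℝ → ℝ) (μ : ℝ) (w w1 : ℝ → ℝ) : Prop where
  d1 : ∀ x, HasDerivAt w (w1 x) x
  d2 : ∀ x, HasDerivAt w1 ((μ - q x) * w x) x
  bdd : ∃ C, ∀ x, |w x| ≤ C

/-- `g` alternates in sign at `n+1` increasing points -/
def AltR (g : ℝ → ℝ) (n : ℕ) : Prop :=
  ∃ t : ℕ → ℝ, (∀ i < n, t i < t (i + 1)) ∧ ∀ i < n, g (t i) * g (t (i + 1)) < 0

/-- bounded smooth solutions on the cylinder -/
structure CSol (lam : ℝ) (f : ℝ → ℝ) (φ : ℂ → ℝ) : Prop where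
  smooth : ContDiff ℝ ∞ φ
  perY : ∀ z, φ (z + (2 * Real.pi : ℝ) * Complex.I) = φ z
  bdd : ∃ C, ∀ z, |φ z| ≤ C
  pde : ∀ z, dX (dX φ) z + dY (dY φ) z + lam * f z.re * φ z = 0

/-- Fourier decomposition in `y`. Proof: `A m x = (1/π) ∫_0^{2π} φ(x,y) cos(my) dy` (for `m = 0`
half of it), `B m` the same with `sin`; differentiate under the integral sign twice, use the PDE
and integrate by parts twice in `y` (periodicity): `A'' = (m² - lam f) A`. A bounded solution of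
`w'' = k w` on the line with `k ≥ k0 > 0` vanishes (so `A m = B m = 0` if `m² > lam F`; take
`M = ⌊√(lam F)⌋`). For fixed `x` the continuous `2π`-periodic function
`φ(x,y) - Σ_{m ≤ M} …` has all its Fourier coefficients zero, so it is zero (Mathlib: `fourierCoeff`,
`hasSum_fourier_series_of_summable` on `AddCircle`). -/
def TaskFourier : Prop :=
  ∀ (lam F : ℝ) (f : ℝ → ℝ) (φ : ℂ → ℝ), 0 < lam → ContDiff ℝ ∞ f → (∀ x, 0 ≤ f x) →
    (∀ x, f x ≤ F) → CSol lam f φ →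
    ∃ (M : ℕ) (A A1 B B1 : ℕ → ℝ → ℝ), (M : ℝ) ^ 2 ≤ lam * F ∧
      (∀ m : ℕ, BSol (fun x => lam * f x) ((m : ℝ) ^ 2) (A m) (A1 m)) ∧
      (∀ m : ℕ, BSol (fun x => lam * f x) ((m : ℝ) ^ 2) (B m) (B1 m)) ∧
      ∀ x y : ℝ, φ ⟨x, y⟩ = ∑ m ∈ Finset.range (M + 1),
        (A m x * Real.cos (m * y) + B m x * Real.sin (m * y))

/-- Behaviour at `+∞` of a bounded solution, `0 ≤ q(x) ≤ C e^{-αx}` for `x ≥ 0`.
First part: `w' → 0`. For `m = 0` : `w'' = - q w` is integrable so `w'` has a limit, which is `0` as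
`w` is bounded. For `m ≥ 1`: for `x ≥ X`, `k = m² - q ≥ 1/2`; `w w' ≤ 0` there (otherwise `w` is
unbounded), so `w'^2` is antitone, and `(w^2)'' = 2 w'^2 + 2 k w^2 ≥ 2 w'^2` with `(w²)'` bounded
gives `w' → 0`.
Second part: if moreover `q(x) ≤ 1` for `x ≥ X` and `C e^{-αX} / α² < 1`, a zero `x0 ≥ X` forces
`w = 0`. `m ≥ 1`: `w²` is convex on `[X,∞)`, bounded, so antitone, so `w = 0` on `[x0,∞)`.
`m = 0`: `w'(x) = ∫_x^∞ q w`, so `|w(x)| ≤ S ∫_{x0}^∞ (s - x0) q(s) ds ≤ S C e^{-αx0}/α²`, where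
`S = sup_{[x0,∞)} |w|`, so `S = 0`. Then `Liou.ode_unique`. -/
def TaskTail : Prop :=
  ∀ (C α : ℝ) (q w w1 : ℝ → ℝ) (m : ℕ), 0 < C → 0 < α → Continuous q → (∀ x, 0 ≤ x → 0 ≤ q x) →
    (∀ x, 0 ≤ x → q x ≤ C * Real.exp (-α * x)) → BSol q ((m : ℝ) ^ 2) w w1 →
    Tendsto w1 atTop (𝓝 0) ∧
    ∀ X x0 : ℝ, 0 ≤ X → X ≤ x0 → C * Real.exp (-α * X) ≤ 1 → C * Real.exp (-α * X) < α ^ 2 →
      w x0 = 0 → ∀ x, w x = 0

/-- Chebyshev property near `+∞`: `Σ a_m w_m` has at most `|S| - 1` zeros in `[X, ∞)`.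
Induction on `|S|`: choose `i ∈ S`; `W = w_i u' - u w_i'` tends to `0` at `+∞`; by Rolle
for `u / w_i`, `W` has `|S| - 1` zeros in `(X,∞)`, interlaced with those of `u`, then by Rolle for `W`
(also between the last zero and `+∞`) `W' = w_i Σ_{m ≠ i} a_m (μ_m - μ_i) w_m` has `|S| - 1` zeros;
apply the induction hypothesis. -/
def TaskCheb : Prop :=
  ∀ (S : Finset ℕ) (q : ℝ → ℝ) (w w1 : ℕ → ℝ → ℝ) (a : ℕ → ℝ) (X : ℝ),
    (∀ m ∈ S, BSol q ((m : ℝ) ^ 2) (w m) (w1 m)) → (∀ m ∈ S, Tendsto (w1 m) atTop (𝓝 0)) →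
    (∀ m ∈ S, ∀ x, X ≤ x → w m x ≠ 0) → ∀ Z : Finset ℝ,
    (∀ z ∈ Z, X ≤ z ∧ ∑ m ∈ S, a m * w m z = 0) → S.card ≤ Z.card → ∀ m ∈ S, a m = 0

/-- Alternation step on the whole line without loss: with `ψ = 1 + x²`, look at an extremum of
`g / ψ` (which tends to `0` at infinity) on the closed sets `(-∞, z_0]`, `[z_0, z_1]`, …,
`[z_{n-1}, ∞)`, where `z_i` is a zero of `g` in `(t_i, t_{i+1})`; at a positive maximum `ξ` of
`g/ψ` one has `g2 ξ ≤ (2/(1+ξ²)) g ξ ≤ 2 g ξ`, so `q ξ * g ξ - g2 ξ > 0`. (Compare `Liou.peak` and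
`Liou.alt_step`; use `ContinuousOn.exists_isMaxOn'` and `Liou.snd_max` for `g - c ψ`.) -/
def TaskStep : Prop :=
  ∀ (g g1 g2 q : ℝ → ℝ) (n : ℕ), (∀ x, HasDerivAt g (g1 x) x) → (∀ x, HasDerivAt g1 (g2 x) x) →
    (∃ C, ∀ x, |g x| ≤ C) → (∀ x, 2 < q x) → AltR g n → AltR (fun x => q x * g x - g2 x) n

/-- The singular set is countable. Adapt `Liou.no_inf`, `Liou.isolated`, `Liou.sing_countable` (with
`D.h = 0`; only smoothness and the PDE are used in `isolated`); a point where all derivatives vanish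
is excluded by the finite sum: all `∂_y^j φ`, `∂_x ∂_y^j φ` vanish at the point, so by Vandermonde in
`m²` every `A m x0 cos(m y0) + B m x0 sin(m y0)`, its `y`-derivative, and the same for `A1`, `B1`,
vanish, so `A m x0 = B m x0 = A1 m x0 = B1 m x0 = 0` (`m ≥ 1`; for `m = 0` only `A`), so by
`Liou.ode_unique` `φ = 0`. -/
def TaskSing : Prop :=
  ∀ (lam : ℝ) (f : ℝ → ℝ) (φ : ℂ → ℝ) (M : ℕ) (A A1 B B1 : ℕ → ℝ → ℝ), ContDiff ℝ ∞ f →
    CSol lam f φ →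
    (∀ m : ℕ, BSol (fun x => lam * f x) ((m : ℝ) ^ 2) (A m) (A1 m)) →
    (∀ m : ℕ, BSol (fun x => lam * f x) ((m : ℝ) ^ 2) (B m) (B1 m)) →
    (∀ x y : ℝ, φ ⟨x, y⟩ = ∑ m ∈ Finset.range (M + 1),
        (A m x * Real.cos (m * y) + B m x * Real.sin (m * y))) →
    φ ≠ 0 → {z : ℂ | φ z = 0 ∧ dX φ z = 0 ∧ dY φ z = 0}.Countable

/-- No eigenvalue near `0`: if `0 < f(x) ≤ C e^{-α|x|}` and `lam` is small (depending on `C, α`),
a bounded solution of `w'' = (m² - lam f) w` is zero. `m ≥ 1`: `lam C < 1`, so `w'' = k w` with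
`k ≥ k0 > 0` everywhere. `m = 0`: `w' → 0` at `±∞` (TaskTail and its mirror image), so
`∫ f w = 0`, so `w` has a zero; and `|w'(x)| ≤ lam S min(∫_{-∞}^x f, ∫_x^∞ f) ≤ lam S (C/α) e^{-α|x|}`,
so the oscillation of `w` is at most `2 lam S C / α² < S`, so `S = 0`. -/
def TaskGap : Prop :=
  TaskTail → ∀ (C α : ℝ), 0 < C → 0 < α → ∃ lam0 : ℝ, 0 < lam0 ∧
    ∀ (lam : ℝ) (f : ℝ → ℝ) (m : ℕ) (w w1 : ℝ → ℝ), 0 < lam → lam < lam0 → Continuous f →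
      (∀ x, 0 < f x) → (∀ x, f x ≤ C * Real.exp (-α * |x|)) →
      BSol (fun x => lam * f x) ((m : ℝ) ^ 2) w w1 → ∀ x, w x = 0

/-- Separation of zeros on a compact interval for large powers: adapt `Liou.near` (no periodicity,
the zeros are in the compact interval `[a,b]`) and `Liou.gap_pos`/`gap_zero` (the condition
`Q x < κ²` only on `(ξ, η)`). -/
def TaskNear : Prop :=
  ∀ (S : Finset ℕ) (w w1 : ℕ → ℝ → ℝ) (r : ℕ → ℝ) (v v1 Q : ℝ → ℝ) (a b κ γ : ℝ),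
    (∀ m x, HasDerivAt (w m) (w1 m x) x) → (∀ m, Continuous (w1 m)) →
    (∀ x, HasDerivAt v (v1 x) x) → (∀ x, HasDerivAt v1 (-Q x * v x) x) → Continuous Q →
    (∃ x, v x ≠ 0) → (∀ m ∈ S, 0 ≤ r m) → (∀ m ∈ S, r m < 1) → 0 < κ →
    (∀ x ∈ Icc a b, Q x < κ ^ 2) → κ * γ < Real.pi →
    ∃ J : ℕ, ∀ j ≥ J, ∀ ξ ∈ Icc a b, ∀ η ∈ Icc a b, ξ < η →
      v ξ + ∑ m ∈ S, r m ^ j * w m ξ = 0 → v η + ∑ m ∈ S, r m ^ j * w m η = 0 → γ < η - ξ

end Pool.Agent.H900R3.Rev
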