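import Pool.Agent.H900R3.Rev.Stmts

/-!
# Fourier decomposition on the cylinder (volunteer helper26)
-/

set_option autoImplicit false

open Set Filter Topology MeasureTheory
open scoped ContDiff ENNReal NNReal

namespace Pool.Agent.H900R3.Rev

open Pool.Agent.H900R3.Liou (dX dY)

namespace Four

open Real

/-- scaling of bounded solutions -/
theorem BSol.smul' {q : ℝ → ℝ} {μ : ℝ} {w w1 : ℝ → ℝ} (h : BSol q μ w w1) (c : ℝ) :
    BSol q μ (fun x => c * w x) (fun x => c * w1 x) where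
  d1 x := (h.d1 x).const_mul c
  d2 x := ((h.d2 x).const_mul c).congr_deriv (by ring)
  bdd := by
    obtain ⟨C, hC⟩ := h.bdd
    refine ⟨|c| * C, fun x => ?_⟩
    rw [abs_mul]
    exact mul_le_mul_of_nonneg_left (hC x) (abs_nonneg c)

theorem nonpos_of_bdd {μ : ℝ} {q w w1 : ℝ → ℝ} (h : BSol q μ w w1) {k0 : ℝ} (hk0 : 0 < k0)
    (hk : ∀ x, k0 ≤ μ - q x) (x1 : ℝ) : w x1 ≤ 0 := by
  by_contra hpos
  push Not at hpos
  obtain ⟨C, hC⟩ := h.bdd
  have hC0 : 0 < C := lt_of_lt_of_le hpos ((le_abs_self _).trans (hC x1))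
  set ε : ℝ := k0 * w x1 / 4 with hε
  have hε0 : 0 < ε := by positivity
  set R : ℝ := 2 * C / ε + 1 with hR
  have hR1 : 1 ≤ R := by
    have : 0 ≤ 2 * C / ε := by positivity
    linarith
  have hεR : 2 * C < ε * R ^ 2 := by
    have e1 : ε * R = 2 * C + ε := by
      rw [hR]
      field_simp
    have e2 : ε * R ≤ ε * R ^ 2 := by
      have : R ≤ R ^ 2 := by nlinarith
      exact mul_le_mul_of_nonneg_left this hε0.le
    linarith
  let v : ℝ → ℝ := fun x => w x - ε * (x - x1) ^ 2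
  let v1 : ℝ → ℝ := fun x => w1 x - ε * (2 * (x - x1))
  let v2 : ℝ → ℝ := fun x => (μ - q x) * w x - ε * 2
  have hv1 : ∀ x, HasDerivAt v (v1 x) x := by
    intro x
    have e : HasDerivAt (fun x : ℝ => (x - x1) ^ 2) (2 * (x - x1)) x := by
      have := ((hasDerivAt_id x).sub_const x1).fun_pow 2
      simpa using this
    exact (h.d1 x).sub (e.const_mul ε)
  have hv2 : ∀ x, HasDerivAt v1 (v2 x) x := by
    intro x
    have e : HasDerivAt (fun x : ℝ => 2 * (x - x1)) 2 x := by
      have := ((hasDerivAt_id x).sub_const x1).const_mul 2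
      simpa using this
    exact (h.d2 x).sub (e.const_mul ε)
  have hcont : ContinuousOn v (Icc (x1 - R) (x1 + R)) := fun x _ =>
    (hv1 x).continuousAt.continuousWithinAt
  obtain ⟨ξ, hξ, hmax⟩ := isCompact_Icc.exists_isMaxOn
    (⟨x1, ⟨by linarith, by linarith⟩⟩ : (Icc (x1 - R) (x1 + R)).Nonempty) hcont
  have hvx1 : v x1 ≤ v ξ := hmax ⟨by linarith, by linarith⟩
  have hvx1' : v x1 = w x1 := by simp [v]
  have hglob : ∀ x, v x ≤ v ξ := by
    intro x
    by_cases hx : x ∈ Icc (x1 - R) (x1 + R)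
    · exact hmax hx
    · have hfar : R ^ 2 ≤ (x - x1) ^ 2 := by
        rw [mem_Icc, not_and_or, not_le, not_le] at hx
        rcases hx with hx | hx
        · nlinarith
        · nlinarith
      have h1 : w x ≤ C := (le_abs_self _).trans (hC x)
      have h2 : ε * R ^ 2 ≤ ε * (x - x1) ^ 2 := mul_le_mul_of_nonneg_left hfar hε0.le
      have h3 : v x = w x - ε * (x - x1) ^ 2 := rfl
      linarith
  have hloc : IsLocalMax v ξ := Eventually.of_forall hglob
  have h2 := Pool.Agent.H900R3.Liou.snd_max hv1 hv2 hloc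
  have h3 : (μ - q ξ) * w ξ - ε * 2 ≤ 0 := h2
  have h4 : w x1 ≤ w ξ := by
    have : v ξ = w ξ - ε * (ξ - x1) ^ 2 := rfl
    have h5 : 0 ≤ ε * (ξ - x1) ^ 2 := by positivity
    linarith
  have h5 : k0 * w x1 ≤ (μ - q ξ) * w ξ :=
    mul_le_mul (hk ξ) h4 hpos.le (hk0.le.trans (hk ξ))
  have h6 : k0 * w x1 = 4 * ε := by rw [hε]; ring
  linarith

theorem zero_of_bdd {μ : ℝ} {q w w1 : ℝ → ℝ} (h : BSol q μ w w1) {k0 : ℝ} (hk0 : 0 < k0)
    (hk : ∀ x, k0 ≤ μ - q x) (x1 : ℝ) : w x1 = 0 := by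
  have h1 := nonpos_of_bdd h hk0 hk x1
  have h2 := nonpos_of_bdd (BSol.smul' h (-1)) hk0 hk x1
  linarith

/-- the integral against a function of `y` -/
noncomputable def TT (φ : ℂ → ℝ) (e : ℝ → ℝ) (x : ℝ) : ℝ :=
  ∫ y in (0 : ℝ)..(2 * π), φ ⟨x, y⟩ * e y

theorem cont_mk (x : ℝ) : Continuous fun y : ℝ => (⟨x, y⟩ : ℂ) := by
  have : (fun y : ℝ => (⟨x, y⟩ : ℂ)) = fun y : ℝ => (x : ℂ) + y * Complex.I := by
    funext y
    apply Complex.ext <;> simp
  rw [this]
  fun_prop

theorem cont_mk2 : Continuous fun p : ℝ × ℝ => (⟨p.1, p.2⟩ : ℂ) := by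
  have : (fun p : ℝ × ℝ => (⟨p.1, p.2⟩ : ℂ)) = fun p : ℝ × ℝ => (p.1 : ℂ) + p.2 * Complex.I := by
    funext y
    apply Complex.ext <;> simp
  rw [this]
  fun_prop

theorem tt_deriv {ψ : ℂ → ℝ} (h : ContDiff ℝ ∞ ψ) {e : ℝ → ℝ} (he : Continuous e) (x : ℝ) :
    HasDerivAt (TT ψ e) (TT (dX ψ) e x) x := by
  have hc1 : ∀ x, Continuous fun y => ψ ⟨x, y⟩ * e y := fun x =>
    (h.continuous.comp (cont_mk x)).mul he
  have hd : Continuous (dX ψ) := (Liou.dX_smooth h).continuous
  have hc2 : ∀ x, Continuous fun y => dX ψ ⟨x, y⟩ * e y := fun x =>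
    (hd.comp (cont_mk x)).mul he
  have hc3 : Continuous fun p : ℝ × ℝ => dX ψ ⟨p.1, p.2⟩ * e p.2 :=
    (hd.comp cont_mk2).mul (he.comp continuous_snd)
  obtain ⟨K, hK⟩ := ((isCompact_closedBall x (1 : ℝ)).prod
    (isCompact_Icc (a := (0 : ℝ)) (b := 2 * π))).exists_bound_of_continuousOn hc3.continuousOn
  refine (intervalIntegral.hasDerivAt_integral_of_dominated_loc_of_deriv_le
    (F := fun x y => ψ ⟨x, y⟩ * e y) (F' := fun x y => dX ψ ⟨x, y⟩ * e y)
    (bound := fun _ => K) (s := Metric.closedBall x 1) (μ := volume)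
    (Metric.closedBall_mem_nhds x one_pos) ?_ ?_ ?_ ?_ ?_ ?_).2
  · exact Eventually.of_forall fun x => (hc1 x).aestronglyMeasurable
  · exact (hc1 x).intervalIntegrable _ _
  · exact (hc2 x).aestronglyMeasurable
  · refine Eventually.of_forall fun t ht x' hx' => hK (x', t) ⟨hx', ?_⟩
    rw [uIoc_of_le (by positivity)] at ht
    exact ⟨ht.1.le, ht.2⟩
  · exact intervalIntegrable_const
  · exact Eventually.of_forall fun t _ x' _ => (Liou.hdX h x' t).mul_const (e t)

theorem per_mk {ψ : ℂ → ℝ} (hp : ∀ z, ψ (z + (2 * π : ℝ) * Complex.I) = ψ z) (x y : ℝ) :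
    ψ ⟨x, y + 2 * π⟩ = ψ ⟨x, y⟩ := by
  rw [← hp ⟨x, y⟩]
  congr 1
  apply Complex.ext <;> simp

theorem tt_parts {ψ : ℂ → ℝ} (h : ContDiff ℝ ∞ ψ)
    (hp : ∀ z, ψ (z + (2 * π : ℝ) * Complex.I) = ψ z) {e e1 : ℝ → ℝ}
    (he : ∀ y, HasDerivAt e (e1 y) y) (hec : Continuous e1) (hep : e (2 * π) = e 0) (x : ℝ) :
    TT (dY ψ) e x = -TT ψ e1 x := by
  have hce : Continuous e := continuous_iff_continuousAt.mpr fun y => (he y).continuousAt
  have hd : Continuous (dY ψ) := (Liou.dY_smooth h).continuous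
  have hc1 : Continuous fun y => ψ ⟨x, y⟩ := h.continuous.comp (cont_mk x)
  have hc2 : Continuous fun y => dY ψ ⟨x, y⟩ := hd.comp (cont_mk x)
  have key := intervalIntegral.integral_deriv_mul_eq_sub (a := 0) (b := 2 * π)
    (u := fun y => ψ ⟨x, y⟩) (u' := fun y => dY ψ ⟨x, y⟩) (v := e) (v' := e1)
    (fun y _ => Liou.hdY h x y) (fun y _ => he y) (hc2.intervalIntegrable _ _)
    (hec.intervalIntegrable _ _)
  have ia : IntervalIntegrable (fun y => dY ψ ⟨x, y⟩ * e y) volume 0 (2 * π) :=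
    (hc2.mul hce).intervalIntegrable _ _
  have ib : IntervalIntegrable (fun y => ψ ⟨x, y⟩ * e1 y) volume 0 (2 * π) :=
    (hc1.mul hec).intervalIntegrable _ _
  rw [intervalIntegral.integral_add ia ib] at key
  have hper := per_mk hp x 0
  rw [zero_add] at hper
  simp only [hper, hep, sub_self] at key
  unfold TT
  linarith

/-- the Fourier coefficient functions are bounded solutions -/
theorem coef {lam : ℝ} {f : ℝ → ℝ} {φ : ℂ → ℝ} (hC : CSol lam f φ) (m : ℕ) {e e1 : ℝ → ℝ}
    (he : ∀ y, HasDerivAt e (e1 y) y) (he1 : ∀ y, HasDerivAt e1 (-((m : ℝ) ^ 2 * e y)) y)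
    (hep : e (2 * π) = e 0) (hep1 : e1 (2 * π) = e1 0) :
    BSol (fun x => lam * f x) ((m : ℝ) ^ 2) (TT φ e) (TT (dX φ) e) := by
  have hce : Continuous e := continuous_iff_continuousAt.mpr fun y => (he y).continuousAt
  have hce1 : Continuous e1 := continuous_iff_continuousAt.mpr fun y => (he1 y).continuousAt
  refine ⟨fun x => tt_deriv hC.smooth hce x, fun x => ?_, ?_⟩
  · have h1 := tt_deriv (Liou.dX_smooth hC.smooth) hce x
    convert h1 using 1
    have hpY : ∀ z, dY φ (z + (2 * π : ℝ) * Complex.I) = dY φ z := fun z => by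
      unfold Liou.dY
      rw [Liou.fderiv_trans hC.perY]
    have h2 := tt_parts (Liou.dY_smooth hC.smooth) hpY he hce1 hep x
    have h3 := tt_parts hC.smooth hC.perY he1 (by fun_prop) hep1 x
    have h4 : TT φ (fun y => -((m : ℝ) ^ 2 * e y)) x = -((m : ℝ) ^ 2 * TT φ e x) := by
      unfold TT
      rw [← intervalIntegral.integral_const_mul, ← intervalIntegral.integral_neg]
      congr 1
      funext y
      ring
    have hcφ : Continuous fun y => φ ⟨x, y⟩ * e y :=
      (hC.smooth.continuous.comp (cont_mk x)).mul hce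
    have hcY : Continuous fun y => dY (dY φ) ⟨x, y⟩ * e y :=
      ((Liou.dY_smooth (Liou.dY_smooth hC.smooth)).continuous.comp (cont_mk x)).mul hce
    have h5 : TT (dX (dX φ)) e x = -TT (dY (dY φ)) e x - lam * f x * TT φ e x := by
      unfold TT
      have ia : IntervalIntegrable (fun y => -(dY (dY φ) ⟨x, y⟩ * e y)) volume 0 (2 * π) :=
        hcY.neg.intervalIntegrable _ _
      have ib : IntervalIntegrable (fun y => lam * f x * (φ ⟨x, y⟩ * e y)) volume 0 (2 * π) :=
        (hcφ.const_mul _).intervalIntegrable _ _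
      rw [← intervalIntegral.integral_const_mul, ← intervalIntegral.integral_neg,
        ← intervalIntegral.integral_sub ia ib]
      congr 1
      funext y
      have := hC.pde ⟨x, y⟩
      simp only at this
      have h6 : dX (dX φ) ⟨x, y⟩ = -dY (dY φ) ⟨x, y⟩ - lam * f x * φ ⟨x, y⟩ := by linarith
      rw [h6]
      ring
    rw [h5, h2, h3, h4]
    ring
  · obtain ⟨C, hCb⟩ := hC.bdd
    obtain ⟨E, hE⟩ := (isCompact_Icc (a := (0 : ℝ)) (b := 2 * π)).exists_bound_of_continuousOn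
      hce.continuousOn
    refine ⟨C * E * |2 * π - 0|, fun x => ?_⟩
    have hC0 : 0 ≤ C := (abs_nonneg _).trans (hCb 0)
    refine intervalIntegral.norm_integral_le_of_norm_le_const (a := 0) (b := 2 * π)
      (f := fun y => φ ⟨x, y⟩ * e y) (C := C * E) ?_
    intro y hy
    rw [uIoc_of_le (by positivity)] at hy
    rw [norm_mul]
    exact mul_le_mul (hCb _) (hE y ⟨hy.1.le, hy.2⟩) (norm_nonneg _) hC0

/-! ### Fourier series of a continuous periodic function with finitely many harmonics -/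

noncomputable def IC (g : ℝ → ℝ) (n : ℤ) : ℝ := ∫ y in (0 : ℝ)..(2 * π), g y * cos (n * y)
noncomputable def IS (g : ℝ → ℝ) (n : ℤ) : ℝ := ∫ y in (0 : ℝ)..(2 * π), g y * sin (n * y)

theorem fourier_pt (n : ℤ) (y : ℝ) :
    (fourier n (y : AddCircle (2 * π)) : ℂ) = (cos (n * y) : ℝ) + (sin (n * y) : ℝ) * Complex.I := by
  rw [fourier_coe_apply]
  have e : 2 * (π : ℂ) * Complex.I * n * y / ((2 * π : ℝ) : ℂ) = ((n * y : ℝ) : ℂ) * Complex.I := by
    have : (π : ℂ) ≠ 0 := by exact_mod_cast Real.pi_ne_zero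
    push_cast
    field_simp
  rw [e, Complex.exp_mul_I, Complex.ofReal_cos, Complex.ofReal_sin]

theorem fs (g : ℝ → ℝ) (hg : Continuous g) (hp : ∀ y, g (y + 2 * π) = g y) (M : ℕ)
    (hz : ∀ m : ℕ, M < m → IC g m = 0 ∧ IS g m = 0) (y : ℝ) :
    g y = ∑ m ∈ Finset.range (M + 1), (((if m = 0 then 1 / 2 else 1) * (1 / π) * IC g m) * cos (m * y)
      + (1 / π * IS g m) * sin (m * y)) := by
  have : Fact (0 < 2 * π) := ⟨Real.two_pi_pos⟩
  let gc : ℝ → ℂ := fun y => (g y : ℂ)
  have hgc : Continuous gc := Complex.continuous_ofReal.comp hg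
  have hper : Function.Periodic gc (2 * π) := fun y => by simp [gc, hp]
  let G : C(AddCircle (2 * π), ℂ) := ⟨hper.lift, continuous_coinduced_dom.mpr hgc⟩
  have hG : ∀ y : ℝ, G (y : AddCircle (2 * π)) = (g y : ℂ) := fun y => rfl
  have hcc : ∀ n : ℤ, Continuous fun y => g y * cos (n * y) := fun n => by fun_prop
  have hcs : ∀ n : ℤ, Continuous fun y => g y * sin (n * y) := fun n => by fun_prop
  have hcoef : ∀ n : ℤ, fourierCoeff G n =
      ((1 / (2 * π) * IC g n : ℝ) : ℂ) - ((1 / (2 * π) * IS g n : ℝ) : ℂ) * Complex.I := by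
    intro n
    rw [fourierCoeff_eq_intervalIntegral G n 0, zero_add]
    have e1 : ∀ y : ℝ, (fourier (-n) (y : AddCircle (2 * π)) : ℂ) • G (y : AddCircle (2 * π)) =
        ((g y * cos (n * y) : ℝ) : ℂ) - ((g y * sin (n * y) : ℝ) : ℂ) * Complex.I := by
      intro y
      rw [fourier_pt, hG, smul_eq_mul]
      push_cast
      have : -(n : ℂ) * (y : ℂ) = -((n : ℂ) * y) := by ring
      rw [this, Complex.cos_neg, Complex.sin_neg]
      ring
    have ia : IntervalIntegrable (fun y : ℝ => ((g y * cos (n * y) : ℝ) : ℂ)) volume 0 (2 * π) :=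
      (Complex.continuous_ofReal.comp (hcc n)).intervalIntegrable _ _
    have ib : IntervalIntegrable (fun y : ℝ => ((g y * sin (n * y) : ℝ) : ℂ) * Complex.I) volume 0
        (2 * π) :=
      ((Complex.continuous_ofReal.comp (hcs n)).mul continuous_const).intervalIntegrable _ _
    simp only [e1]
    rw [intervalIntegral.integral_sub ia ib, intervalIntegral.integral_mul_const,
      intervalIntegral.integral_ofReal, intervalIntegral.integral_ofReal]
    unfold IC IS
    rw [Complex.real_smul]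
    push_cast
    ring
  have hev : ∀ n : ℤ, IC g (-n) = IC g n ∧ IS g (-n) = -IS g n := by
    intro n
    constructor
    · unfold IC
      congr 1
      funext y
      push_cast
      rw [neg_mul, cos_neg]
    · unfold IS
      rw [← intervalIntegral.integral_neg]
      congr 1
      funext y
      push_cast
      rw [neg_mul, sin_neg]
      ring
  have hzz : ∀ n : ℤ, M < n.natAbs → IC g n = 0 ∧ IS g n = 0 := by
    intro n hn
    rcases Int.natAbs_eq n with h | h
    · rw [h]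
      exact hz _ hn
    · rw [h, (hev _).1, (hev _).2, (hz _ hn).1, (hz _ hn).2]
      simp
  have hsum : Summable (fourierCoeff G) := by
    apply summable_of_ne_finset_zero (s := Finset.Icc (-(M : ℤ)) M)
    intro n hn
    have : M < n.natAbs := by
      rw [Finset.mem_Icc, not_and_or] at hn
      omega
    rw [hcoef, (hzz n this).1, (hzz n this).2]
    simp
  have hs := has_pointwise_sum_fourier_series_of_summable hsum (y : AddCircle (2 * π))
  have hs2 := Complex.reCLM.hasSum hs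
  let r : ℤ → ℝ := fun n => 1 / (2 * π) * (IC g n * cos (n * y) + IS g n * sin (n * y))
  have hr : ∀ n : ℤ, Complex.reCLM (fourierCoeff G n • fourier n (y : AddCircle (2 * π))) = r n := by
    intro n
    rw [hcoef, fourier_pt, smul_eq_mul, Complex.reCLM_apply]
    simp only [Complex.mul_re, Complex.sub_re, Complex.sub_im, Complex.add_re, Complex.add_im,
      Complex.ofReal_re, Complex.ofReal_im, Complex.I_re, Complex.I_im, Complex.mul_im]
    show _ = 1 / (2 * π) * (IC g n * cos (n * y) + IS g n * sin (n * y))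
    ring
  simp only [hr] at hs2
  have hs3 : HasSum r (g y) := by
    have : Complex.reCLM (G (y : AddCircle (2 * π))) = g y := by
      rw [hG, Complex.reCLM_apply, Complex.ofReal_re]
    rwa [this] at hs2
  have hs4 := hs3.nat_add_neg
  have hrn : ∀ n : ℤ, r (-n) = r n := by
    intro n
    show 1 / (2 * π) * (IC g (-n) * cos ((-n : ℤ) * y) + IS g (-n) * sin ((-n : ℤ) * y)) =
      1 / (2 * π) * (IC g n * cos (n * y) + IS g n * sin (n * y))
    rw [(hev n).1, (hev n).2]
    push_cast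
    rw [neg_mul, cos_neg, sin_neg]
    ring
  have hs5 : HasSum (fun n : ℕ => r n + r (-(n : ℤ))) (∑ m ∈ Finset.range (M + 1),
      (r m + r (-(m : ℤ)))) := by
    apply hasSum_sum_of_ne_finset_zero
    intro m hm
    have hm' : M < m := by
      rw [Finset.mem_range] at hm
      omega
    rw [hrn]
    show 1 / (2 * π) * (IC g m * cos (m * y) + IS g m * sin (m * y)) +
      1 / (2 * π) * (IC g m * cos (m * y) + IS g m * sin (m * y)) = 0
    rw [(hz m hm').1, (hz m hm').2]
    ring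
  have hfin := hs4.unique hs5
  rw [Finset.sum_range_succ'] at hfin ⊢
  have e0 : r ((0 : ℕ) : ℤ) + r (-((0 : ℕ) : ℤ)) = 2 * r 0 := by
    simp
    ring
  rw [e0] at hfin
  have e1 : r 0 = (((if (0 : ℕ) = 0 then 1 / 2 else 1) * (1 / π) * IC g (0 : ℕ)) * cos ((0 : ℕ) * y)
      + (1 / π * IS g (0 : ℕ)) * sin ((0 : ℕ) * y)) := by
    show 1 / (2 * π) * (IC g 0 * cos ((0 : ℤ) * y) + IS g 0 * sin ((0 : ℤ) * y)) = _
    rw [if_pos rfl]
    simp only [Nat.cast_zero, Int.cast_zero, zero_mul, cos_zero, sin_zero, mul_zero, add_zero]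
    ring
  have e2 : ∀ m : ℕ, r ((m + 1 : ℕ) : ℤ) + r (-((m + 1 : ℕ) : ℤ)) =
      (((if m + 1 = 0 then 1 / 2 else 1) * (1 / π) * IC g (m + 1 : ℕ)) * cos ((m + 1 : ℕ) * y)
      + (1 / π * IS g (m + 1 : ℕ)) * sin ((m + 1 : ℕ) * y)) := by
    intro m
    rw [hrn]
    show 1 / (2 * π) * (IC g (m + 1 : ℕ) * cos (((m + 1 : ℕ) : ℤ) * y) +
      IS g (m + 1 : ℕ) * sin (((m + 1 : ℕ) : ℤ) * y)) +
      1 / (2 * π) * (IC g (m + 1 : ℕ) * cos (((m + 1 : ℕ) : ℤ) * y) +
      IS g (m + 1 : ℕ) * sin (((m + 1 : ℕ) : ℤ) * y)) = _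
    rw [if_neg (Nat.succ_ne_zero m), Int.cast_natCast]
    ring
  simp only [e2] at hfin
  rw [← e1]
  linarith

theorem coef_cos {lam : ℝ} {f : ℝ → ℝ} {φ : ℂ → ℝ} (hC : CSol lam f φ) (m : ℕ) :
    BSol (fun x => lam * f x) ((m : ℝ) ^ 2) (TT φ (fun y => cos (m * y)))
      (TT (dX φ) (fun y => cos (m * y))) := by
  refine coef hC m (e := fun y => cos (m * y)) (e1 := fun y => -((m : ℝ) * sin (m * y))) ?_ ?_ ?_ ?_
  · intro y
    have h1 : HasDerivAt (fun y : ℝ => (m : ℝ) * y) m y := by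
      simpa using (hasDerivAt_id y).const_mul (m : ℝ)
    exact h1.cos.congr_deriv (by ring)
  · intro y
    have h1 : HasDerivAt (fun y : ℝ => (m : ℝ) * y) m y := by
      simpa using (hasDerivAt_id y).const_mul (m : ℝ)
    exact ((h1.sin.const_mul (m : ℝ)).neg).congr_deriv (by ring)
  · have := Real.cos_periodic.nat_mul_eq m
    simpa using this
  · have := Real.sin_periodic.nat_mul_eq m
    simp only [mul_zero] at this ⊢
    rw [this]

theorem coef_sin {lam : ℝ} {f : ℝ → ℝ} {φ : ℂ → ℝ} (hC : CSol lam f φ) (m : ℕ) :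
    BSol (fun x => lam * f x) ((m : ℝ) ^ 2) (TT φ (fun y => sin (m * y)))
      (TT (dX φ) (fun y => sin (m * y))) := by
  refine coef hC m (e := fun y => sin (m * y)) (e1 := fun y => (m : ℝ) * cos (m * y)) ?_ ?_ ?_ ?_
  · intro y
    have h1 : HasDerivAt (fun y : ℝ => (m : ℝ) * y) m y := by
      simpa using (hasDerivAt_id y).const_mul (m : ℝ)
    exact h1.sin.congr_deriv (by ring)
  · intro y
    have h1 : HasDerivAt (fun y : ℝ => (m : ℝ) * y) m y := by
      simpa using (hasDerivAt_id y).const_mul (m : ℝ)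
    exact (h1.cos.const_mul (m : ℝ)).congr_deriv (by ring)
  · have := Real.sin_periodic.nat_mul_eq m
    simpa using this
  · have := Real.cos_periodic.nat_mul_eq m
    simp only [mul_zero] at this ⊢
    rw [this]

end Four

open Four in
theorem taskFourier : TaskFourier := by
  intro lam F f φ hlam _ hf0 hfF hC
  have hF : 0 ≤ lam * F := mul_nonneg hlam.le ((hf0 0).trans (hfF 0))
  set M : ℕ := ⌊Real.sqrt (lam * F)⌋₊ with hM
  have hbig : ∀ m : ℕ, M < m → lam * F < (m : ℝ) ^ 2 := by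
    intro m hm
    have h1 : Real.sqrt (lam * F) < m := by
      have h2 := Nat.lt_floor_add_one (Real.sqrt (lam * F))
      have h3 : ((M + 1 : ℕ) : ℝ) ≤ m := by exact_mod_cast hm
      push_cast at h3
      linarith
    have h4 := Real.sqrt_nonneg (lam * F)
    calc lam * F = Real.sqrt (lam * F) ^ 2 := (Real.sq_sqrt hF).symm
      _ < (m : ℝ) ^ 2 := by nlinarith
  have hzero : ∀ (m : ℕ) (w w1 : ℝ → ℝ), M < m → BSol (fun x => lam * f x) ((m : ℝ) ^ 2) w w1 →
      ∀ x, w x = 0 := by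
    intro m w w1 hm hb x
    refine zero_of_bdd hb (k0 := (m : ℝ) ^ 2 - lam * F) (by linarith [hbig m hm]) ?_ x
    intro x'
    have := mul_le_mul_of_nonneg_left (hfF x') hlam.le
    show (m : ℝ) ^ 2 - lam * F ≤ (m : ℝ) ^ 2 - lam * f x'
    linarith
  refine ⟨M, fun m x => ((if m = 0 then 1 / 2 else 1) * (1 / Real.pi)) *
      TT φ (fun y => Real.cos (m * y)) x,
    fun m x => ((if m = 0 then 1 / 2 else 1) * (1 / Real.pi)) *
      TT (dX φ) (fun y => Real.cos (m * y)) x,
    fun m x => (1 / Real.pi) * TT φ (fun y => Real.sin (m * y)) x,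
    fun m x => (1 / Real.pi) * TT (dX φ) (fun y => Real.sin (m * y)) x, ?_, ?_, ?_, ?_⟩
  · have h1 : (M : ℝ) ≤ Real.sqrt (lam * F) := Nat.floor_le (Real.sqrt_nonneg _)
    calc (M : ℝ) ^ 2 ≤ Real.sqrt (lam * F) ^ 2 := by
          have : (0 : ℝ) ≤ M := Nat.cast_nonneg M
          nlinarith
      _ = lam * F := Real.sq_sqrt hF
  · intro m
    exact BSol.smul' (coef_cos hC m) _
  · intro m
    exact BSol.smul' (coef_sin hC m) _
  · intro x y
    have hg : Continuous fun y : ℝ => φ ⟨x, y⟩ := hC.smooth.continuous.comp (cont_mk x)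
    have e1 : ∀ m : ℕ, IC (fun y => φ ⟨x, y⟩) m = TT φ (fun y => Real.cos (m * y)) x := by
      intro m
      unfold IC TT
      simp only [Int.cast_natCast]
    have e2 : ∀ m : ℕ, IS (fun y => φ ⟨x, y⟩) m = TT φ (fun y => Real.sin (m * y)) x := by
      intro m
      unfold IS TT
      simp only [Int.cast_natCast]
    have key := fs (fun y => φ ⟨x, y⟩) hg (fun y => per_mk hC.perY x y) M (by
      intro m hm
      rw [e1, e2]
      exact ⟨hzero m _ _ hm (coef_cos hC m) x, hzero m _ _ hm (coef_sin hC m) x⟩) y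
    simp only [e1, e2] at key
    exact key

end Pool.Agent.H900R3.Rev
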